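import Mathlib

/-! Integer model of the circulant graphs `G_t` (`t = 2k+1`, `n = 10k-5`, `m = 2k-1`). -/

namespace Pool.Agent.R792.Circ

/-- `Fp k z`: the integer `0 < z < 10k-5` is an adjacent difference. -/
def Fp (k z : ℤ) : Prop :=
  z = 2*k-3 ∨ z = 2*k-2 ∨ (2*k+2 ≤ z ∧ z ≤ 3*k-3) ∨ z = 3*k-1 ∨ z = 4*k-2 ∨
  z = 6*k-3 ∨ z = 7*k-4 ∨ (7*k-2 ≤ z ∧ z ≤ 8*k-7) ∨ z = 8*k-3 ∨ z = 8*k-2

theorem f1 {k z : ℤ} (h : z = 2*k-3) : Fp k z := Or.inl h
theorem f2 {k z : ℤ} (h : z = 2*k-2) : Fp k z := Or.inr (Or.inl h)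
theorem f3 {k z : ℤ} (h : 2*k+2 ≤ z ∧ z ≤ 3*k-3) : Fp k z := by unfold Fp; tauto
theorem f4 {k z : ℤ} (h : z = 3*k-1) : Fp k z := by unfold Fp; tauto
theorem f5 {k z : ℤ} (h : z = 4*k-2) : Fp k z := by unfold Fp; tauto
theorem f6 {k z : ℤ} (h : z = 6*k-3) : Fp k z := by unfold Fp; tauto
theorem f7 {k z : ℤ} (h : z = 7*k-4) : Fp k z := by unfold Fp; tauto
theorem f8 {k z : ℤ} (h : 7*k-2 ≤ z ∧ z ≤ 8*k-7) : Fp k z := by unfold Fp; tauto
theorem f9 {k z : ℤ} (h : z = 8*k-3) : Fp k z := by unfold Fp; tauto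
theorem f10 {k z : ℤ} (h : z = 8*k-2) : Fp k z := by unfold Fp; tauto

/-- An independent set of the periodic model. -/
structure Hyp (k : ℤ) (A : ℤ → Prop) : Prop where
  hk : 8 ≤ k
  per : ∀ z, A (z + (10*k-5)) ↔ A z
  ind : ∀ u v, A u → A v → ¬ Fp k (v-u)

/-- The fibre (coset of the subgroup of order five) of `z` meets `A`. -/
def N (k : ℤ) (A : ℤ → Prop) (z : ℤ) : Prop :=
  A z ∨ A (z + (2*k-1)) ∨ A (z + 2*(2*k-1)) ∨ A (z + 3*(2*k-1)) ∨ A (z + 4*(2*k-1))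

theorem Hyp.shift {k : ℤ} {A : ℤ → Prop} (H : Hyp k A) (x : ℤ) : Hyp k (fun z => A (x+z)) where
  hk := H.hk
  per := fun z => by
    have := H.per (x+z)
    rw [show x + (z + (10*k-5)) = x + z + (10*k-5) by ring]
    exact this
  ind := fun u v hu hv h => H.ind _ _ hu hv (by
    have : x + v - (x + u) = v - u := by ring
    rw [this]; exact h)

theorem Fp.refl' {k z : ℤ} (h : Fp k z) : Fp k (10*k-5-z) := by
  unfold Fp at *; omega

theorem Hyp.reflect {k : ℤ} {A : ℤ → Prop} (H : Hyp k A) (c : ℤ) : Hyp k (fun z => A (c-z)) where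
  hk := H.hk
  per := fun z => by
    have := H.per (c - (z + (10*k-5)))
    rw [show c - (z + (10*k-5)) + (10*k-5) = c - z by ring] at this
    exact this.symm
  ind := fun u v hu hv h => H.ind _ _ hv hu (by
    have : c - u - (c - v) = v - u := by ring
    rw [this]; exact h)

theorem Hyp.perk {k : ℤ} {A : ℤ → Prop} (H : Hyp k A) (z : ℤ) : A (z - (10*k-5)) ↔ A z := by
  have := H.per (z - (10*k-5))
  rw [sub_add_cancel] at this
  exact this.symm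

/-- `N` is invariant under translation by `m = 2k-1`. -/
theorem Hyp.N_add {k : ℤ} {A : ℤ → Prop} (H : Hyp k A) (z : ℤ) : N k A (z + (2*k-1)) ↔ N k A z := by
  unfold N
  have h := H.per z
  rw [show z + (2*k-1) + 4*(2*k-1) = z + (10*k-5) by ring, h,
    show z + (2*k-1) + (2*k-1) = z + 2*(2*k-1) by ring,
    show z + (2*k-1) + 2*(2*k-1) = z + 3*(2*k-1) by ring,
    show z + (2*k-1) + 3*(2*k-1) = z + 4*(2*k-1) by ring]
  tauto

theorem Hyp.N_add_mul {k : ℤ} {A : ℤ → Prop} (H : Hyp k A) (z j : ℤ) :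
    N k A (z + j*(2*k-1)) ↔ N k A z := by
  induction j using Int.induction_on with
  | zero => simp
  | succ i ih =>
    rw [show z + ((i:ℤ)+1)*(2*k-1) = z + (i:ℤ)*(2*k-1) + (2*k-1) by ring, H.N_add, ih]
  | pred i ih =>
    rw [← ih, ← H.N_add]
    rw [show z + (-(i:ℤ)-1)*(2*k-1) + (2*k-1) = z + (-(i:ℤ))*(2*k-1) by ring]

theorem N_reflect {k : ℤ} {A : ℤ → Prop} (H : Hyp k A) (c z : ℤ) :
    N k (fun z => A (c-z)) z ↔ N k A (c-z) := by
  rw [← H.N_add_mul (c-z) (-4)]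
  unfold N
  rw [show c - z + -4*(2*k-1) + (2*k-1) = c - (z + 3*(2*k-1)) by ring,
    show c - z + -4*(2*k-1) + 2*(2*k-1) = c - (z + 2*(2*k-1)) by ring,
    show c - z + -4*(2*k-1) + 3*(2*k-1) = c - (z + (2*k-1)) by ring,
    show c - z + -4*(2*k-1) + 4*(2*k-1) = c - z by ring,
    show c - z + -4*(2*k-1) = c - (z + 4*(2*k-1)) by ring]
  tauto

theorem N_shift {k : ℤ} {A : ℤ → Prop} (x z : ℤ) :
    N k (fun z => A (x+z)) z ↔ N k A (x+z) := by
  unfold N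
  simp only [add_assoc]

end Pool.Agent.R792.Circ
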