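import Pool.Agent.R792.Circ.Base

namespace Pool.Agent.R792.Circ

theorem big0 {k : ℤ} {A : ℤ → Prop} (H : Hyp k A) (hk : 9 ≤ k)
    (a0 : A (0)) (b0 : A (2*k-1)) (a1 : A (k-1)) (b1 : A (3*k-2)) (a2 : A (2*k)) (b2 : A (4*k-1)) :
    ¬ N k A (4) ∧ ¬ N k A (5) ∧ ¬ N k A (k+2) ∧ ¬ N k A (k+3) := by
  refine ⟨?_, ?_, ?_, ?_⟩
  · intro e
    rcases e with w0|w0|w0|w0|w0
    · exact H.ind _ _ w0 b1 (f3 (by omega))
    · exact H.ind _ _ a0 w0 (f3 (by omega))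
    · exact H.ind _ _ b0 w0 (f3 (by omega))
    · exact H.ind _ _ b2 w0 (f3 (by omega))
    · exact H.ind _ _ a1 w0 (f8 (by omega))
  · intro e
    rcases e with w0|w0|w0|w0|w0
    · exact H.ind _ _ w0 b1 (f3 (by omega))
    · exact H.ind _ _ a0 w0 (f3 (by omega))
    · exact H.ind _ _ b0 w0 (f3 (by omega))
    · exact H.ind _ _ b2 w0 (f3 (by omega))
    · exact H.ind _ _ a1 w0 (f8 (by omega))
  · intro e
    rcases e with w0|w0|w0|w0|w0
    · exact H.ind _ _ w0 b2 (f3 (by omega))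
    · exact H.ind _ _ a1 w0 (f3 (by omega))
    · exact H.ind _ _ b1 w0 (f3 (by omega))
    · exact H.ind _ _ a0 w0 (f8 (by omega))
    · exact H.ind _ _ b0 w0 (f8 (by omega))
  · intro e
    rcases e with w0|w0|w0|w0|w0
    · exact H.ind _ _ w0 b2 (f3 (by omega))
    · exact H.ind _ _ a1 w0 (f3 (by omega))
    · exact H.ind _ _ b1 w0 (f3 (by omega))
    · exact H.ind _ _ a0 w0 (f8 (by omega))
    · exact H.ind _ _ b0 w0 (f8 (by omega))

theorem big1 {k : ℤ} {A : ℤ → Prop} (H : Hyp k A) (hk : 9 ≤ k)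
    (a0 : A (0)) (b0 : A (2*k-1)) (a1 : A (k+1)) (b1 : A (3*k)) (a2 : A (2*k)) (b2 : A (4*k-1)) :
    ¬ N k A (2) ∧ ¬ N k A (4) ∧ ¬ N k A (5) ∧ ¬ N k A (6) := by
  refine ⟨?_, ?_, ?_, ?_⟩
  · intro e
    rcases e with w0|w0|w0|w0|w0
    · exact H.ind _ _ w0 b0 (f1 (by omega))
    · exact H.ind _ _ w0 b2 (f2 (by omega))
    · exact H.ind _ _ a1 w0 (f4 (by omega))
    · exact H.ind _ _ b1 w0 (f4 (by omega))
    · exact H.ind _ _ a0 w0 (f10 (by omega))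
  · intro e
    rcases e with w0|w0|w0|w0|w0
    · exact H.ind _ _ w0 b1 (f3 (by omega))
    · exact H.ind _ _ a0 w0 (f3 (by omega))
    · exact H.ind _ _ b0 w0 (f3 (by omega))
    · exact H.ind _ _ b2 w0 (f3 (by omega))
    · exact H.ind _ _ a1 w0 (f8 (by omega))
  · intro e
    rcases e with w0|w0|w0|w0|w0
    · exact H.ind _ _ w0 b1 (f3 (by omega))
    · exact H.ind _ _ a0 w0 (f3 (by omega))
    · exact H.ind _ _ b0 w0 (f3 (by omega))
    · exact H.ind _ _ b2 w0 (f3 (by omega))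
    · exact H.ind _ _ a1 w0 (f8 (by omega))
  · intro e
    rcases e with w0|w0|w0|w0|w0
    · exact H.ind _ _ w0 b1 (f3 (by omega))
    · exact H.ind _ _ a0 w0 (f3 (by omega))
    · exact H.ind _ _ b0 w0 (f3 (by omega))
    · exact H.ind _ _ b2 w0 (f3 (by omega))
    · exact H.ind _ _ a1 w0 (f8 (by omega))

theorem big2 {k : ℤ} {A : ℤ → Prop} (H : Hyp k A) (hk : 9 ≤ k)
    (a0 : A (0)) (b0 : A (2*k-1)) (a1 : A (k-1)) (b1 : A (3*k-2)) (a2 : A (2*k+1)) (b2 : A (4*k)) :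
    ¬ N k A (5) ∧ ¬ N k A (k) ∧ ¬ N k A (k+3) ∧ ¬ N k A (k+4) := by
  refine ⟨?_, ?_, ?_, ?_⟩
  · intro e
    rcases e with w0|w0|w0|w0|w0
    · exact H.ind _ _ w0 b1 (f3 (by omega))
    · exact H.ind _ _ a0 w0 (f3 (by omega))
    · exact H.ind _ _ b0 w0 (f3 (by omega))
    · exact H.ind _ _ b2 w0 (f3 (by omega))
    · exact H.ind _ _ a1 w0 (f8 (by omega))
  · intro e
    rcases e with w0|w0|w0|w0|w0
    · exact H.ind _ _ w0 b1 (f2 (by omega))
    · exact H.ind _ _ a0 w0 (f4 (by omega))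
    · exact H.ind _ _ b0 w0 (f4 (by omega))
    · exact H.ind _ _ b2 w0 (f3 (by omega))
    · exact H.ind _ _ a1 w0 (f9 (by omega))
  · intro e
    rcases e with w0|w0|w0|w0|w0
    · exact H.ind _ _ w0 b2 (f3 (by omega))
    · exact H.ind _ _ a1 w0 (f3 (by omega))
    · exact H.ind _ _ b1 w0 (f3 (by omega))
    · exact H.ind _ _ a0 w0 (f8 (by omega))
    · exact H.ind _ _ b0 w0 (f8 (by omega))
  · intro e
    rcases e with w0|w0|w0|w0|w0
    · exact H.ind _ _ w0 b2 (f3 (by omega))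
    · exact H.ind _ _ a1 w0 (f3 (by omega))
    · exact H.ind _ _ b1 w0 (f3 (by omega))
    · exact H.ind _ _ a0 w0 (f8 (by omega))
    · exact H.ind _ _ b0 w0 (f8 (by omega))

theorem big3 {k : ℤ} {A : ℤ → Prop} (H : Hyp k A) (hk : 9 ≤ k)
    (a0 : A (0)) (b0 : A (2*k-1)) (a1 : A (k+2)) (b1 : A (3*k+1)) (a2 : A (2*k+1)) (b2 : A (4*k)) :
    ¬ N k A (5) ∧ ¬ N k A (6) ∧ ¬ N k A (7) ∧ ¬ N k A (k+1) := by
  refine ⟨?_, ?_, ?_, ?_⟩
  · intro e
    rcases e with w0|w0|w0|w0|w0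
    · exact H.ind _ _ w0 b1 (f3 (by omega))
    · exact H.ind _ _ a0 w0 (f3 (by omega))
    · exact H.ind _ _ b0 w0 (f3 (by omega))
    · exact H.ind _ _ b2 w0 (f3 (by omega))
    · exact H.ind _ _ a1 w0 (f8 (by omega))
  · intro e
    rcases e with w0|w0|w0|w0|w0
    · exact H.ind _ _ w0 b1 (f3 (by omega))
    · exact H.ind _ _ a0 w0 (f3 (by omega))
    · exact H.ind _ _ b0 w0 (f3 (by omega))
    · exact H.ind _ _ b2 w0 (f3 (by omega))
    · exact H.ind _ _ a1 w0 (f8 (by omega))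
  · intro e
    rcases e with w0|w0|w0|w0|w0
    · exact H.ind _ _ w0 b1 (f3 (by omega))
    · exact H.ind _ _ a0 w0 (f3 (by omega))
    · exact H.ind _ _ b0 w0 (f3 (by omega))
    · exact H.ind _ _ b2 w0 (f3 (by omega))
    · exact H.ind _ _ a1 w0 (f8 (by omega))
  · intro e
    rcases e with w0|w0|w0|w0|w0
    · exact H.ind _ _ w0 b2 (f4 (by omega))
    · exact H.ind _ _ a1 w0 (f2 (by omega))
    · exact H.ind _ _ b1 w0 (f2 (by omega))
    · exact H.ind _ _ a0 w0 (f8 (by omega))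
    · exact H.ind _ _ b0 w0 (f8 (by omega))

theorem big4 {k : ℤ} {A : ℤ → Prop} (H : Hyp k A) (hk : 9 ≤ k)
    (a0 : A (0)) (b0 : A (2*k-1)) (a1 : A (k-1)) (b1 : A (3*k-2)) (a2 : A (4*k-1)) (b2 : A (6*k-2)) :
    ¬ N k A (4) ∧ ¬ N k A (5) ∧ ¬ N k A (k+2) ∧ ¬ N k A (k+3) := by
  refine ⟨?_, ?_, ?_, ?_⟩
  · intro e
    rcases e with w0|w0|w0|w0|w0
    · exact H.ind _ _ w0 b1 (f3 (by omega))
    · exact H.ind _ _ a0 w0 (f3 (by omega))
    · exact H.ind _ _ b0 w0 (f3 (by omega))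
    · exact H.ind _ _ a2 w0 (f3 (by omega))
    · exact H.ind _ _ a1 w0 (f8 (by omega))
  · intro e
    rcases e with w0|w0|w0|w0|w0
    · exact H.ind _ _ w0 b1 (f3 (by omega))
    · exact H.ind _ _ a0 w0 (f3 (by omega))
    · exact H.ind _ _ b0 w0 (f3 (by omega))
    · exact H.ind _ _ a2 w0 (f3 (by omega))
    · exact H.ind _ _ a1 w0 (f8 (by omega))
  · intro e
    rcases e with w0|w0|w0|w0|w0
    · exact H.ind _ _ w0 a2 (f3 (by omega))
    · exact H.ind _ _ a1 w0 (f3 (by omega))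
    · exact H.ind _ _ b1 w0 (f3 (by omega))
    · exact H.ind _ _ a0 w0 (f8 (by omega))
    · exact H.ind _ _ b0 w0 (f8 (by omega))
  · intro e
    rcases e with w0|w0|w0|w0|w0
    · exact H.ind _ _ w0 a2 (f3 (by omega))
    · exact H.ind _ _ a1 w0 (f3 (by omega))
    · exact H.ind _ _ b1 w0 (f3 (by omega))
    · exact H.ind _ _ a0 w0 (f8 (by omega))
    · exact H.ind _ _ b0 w0 (f8 (by omega))

theorem big5 {k : ℤ} {A : ℤ → Prop} (H : Hyp k A) (hk : 9 ≤ k)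
    (a0 : A (0)) (b0 : A (2*k-1)) (a1 : A (3*k)) (b1 : A (5*k-1)) (a2 : A (4*k-1)) (b2 : A (6*k-2)) :
    ¬ N k A (2) ∧ ¬ N k A (4) ∧ ¬ N k A (5) ∧ ¬ N k A (6) := by
  refine ⟨?_, ?_, ?_, ?_⟩
  · intro e
    rcases e with w0|w0|w0|w0|w0
    · exact H.ind _ _ w0 b0 (f1 (by omega))
    · exact H.ind _ _ w0 a2 (f2 (by omega))
    · exact H.ind _ _ w0 b2 (f2 (by omega))
    · exact H.ind _ _ a1 w0 (f4 (by omega))
    · exact H.ind _ _ a0 w0 (f10 (by omega))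
  · intro e
    rcases e with w0|w0|w0|w0|w0
    · exact H.ind _ _ w0 a1 (f3 (by omega))
    · exact H.ind _ _ a0 w0 (f3 (by omega))
    · exact H.ind _ _ b0 w0 (f3 (by omega))
    · exact H.ind _ _ a2 w0 (f3 (by omega))
    · exact H.ind _ _ b2 w0 (f3 (by omega))
  · intro e
    rcases e with w0|w0|w0|w0|w0
    · exact H.ind _ _ w0 a1 (f3 (by omega))
    · exact H.ind _ _ a0 w0 (f3 (by omega))
    · exact H.ind _ _ b0 w0 (f3 (by omega))
    · exact H.ind _ _ a2 w0 (f3 (by omega))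
    · exact H.ind _ _ b2 w0 (f3 (by omega))
  · intro e
    rcases e with w0|w0|w0|w0|w0
    · exact H.ind _ _ w0 a1 (f3 (by omega))
    · exact H.ind _ _ a0 w0 (f3 (by omega))
    · exact H.ind _ _ b0 w0 (f3 (by omega))
    · exact H.ind _ _ a2 w0 (f3 (by omega))
    · exact H.ind _ _ b2 w0 (f3 (by omega))

theorem big6 {k : ℤ} {A : ℤ → Prop} (H : Hyp k A) (hk : 9 ≤ k)
    (a0 : A (0)) (b0 : A (2*k-1)) (a1 : A (k-1)) (b1 : A (3*k-2)) (a2 : A (4*k)) (b2 : A (6*k-1)) :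
    ¬ N k A (5) ∧ ¬ N k A (k) ∧ ¬ N k A (k+3) ∧ ¬ N k A (k+4) := by
  refine ⟨?_, ?_, ?_, ?_⟩
  · intro e
    rcases e with w0|w0|w0|w0|w0
    · exact H.ind _ _ w0 b1 (f3 (by omega))
    · exact H.ind _ _ a0 w0 (f3 (by omega))
    · exact H.ind _ _ b0 w0 (f3 (by omega))
    · exact H.ind _ _ a2 w0 (f3 (by omega))
    · exact H.ind _ _ a1 w0 (f8 (by omega))
  · intro e
    rcases e with w0|w0|w0|w0|w0
    · exact H.ind _ _ w0 b1 (f2 (by omega))
    · exact H.ind _ _ a0 w0 (f4 (by omega))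
    · exact H.ind _ _ b0 w0 (f4 (by omega))
    · exact H.ind _ _ a2 w0 (f3 (by omega))
    · exact H.ind _ _ a1 w0 (f9 (by omega))
  · intro e
    rcases e with w0|w0|w0|w0|w0
    · exact H.ind _ _ w0 a2 (f3 (by omega))
    · exact H.ind _ _ a1 w0 (f3 (by omega))
    · exact H.ind _ _ b1 w0 (f3 (by omega))
    · exact H.ind _ _ a0 w0 (f8 (by omega))
    · exact H.ind _ _ b0 w0 (f8 (by omega))
  · intro e
    rcases e with w0|w0|w0|w0|w0
    · exact H.ind _ _ w0 a2 (f3 (by omega))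
    · exact H.ind _ _ a1 w0 (f3 (by omega))
    · exact H.ind _ _ b1 w0 (f3 (by omega))
    · exact H.ind _ _ a0 w0 (f8 (by omega))
    · exact H.ind _ _ b0 w0 (f8 (by omega))

theorem big7 {k : ℤ} {A : ℤ → Prop} (H : Hyp k A) (hk : 9 ≤ k)
    (a0 : A (0)) (b0 : A (2*k-1)) (a1 : A (3*k+1)) (b1 : A (5*k)) (a2 : A (4*k)) (b2 : A (6*k-1)) :
    ¬ N k A (5) ∧ ¬ N k A (6) ∧ ¬ N k A (7) ∧ ¬ N k A (k+1) := by
  refine ⟨?_, ?_, ?_, ?_⟩
  · intro e
    rcases e with w0|w0|w0|w0|w0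
    · exact H.ind _ _ w0 a1 (f3 (by omega))
    · exact H.ind _ _ a0 w0 (f3 (by omega))
    · exact H.ind _ _ b0 w0 (f3 (by omega))
    · exact H.ind _ _ a2 w0 (f3 (by omega))
    · exact H.ind _ _ b2 w0 (f3 (by omega))
  · intro e
    rcases e with w0|w0|w0|w0|w0
    · exact H.ind _ _ w0 a1 (f3 (by omega))
    · exact H.ind _ _ a0 w0 (f3 (by omega))
    · exact H.ind _ _ b0 w0 (f3 (by omega))
    · exact H.ind _ _ a2 w0 (f3 (by omega))
    · exact H.ind _ _ b2 w0 (f3 (by omega))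
  · intro e
    rcases e with w0|w0|w0|w0|w0
    · exact H.ind _ _ w0 a1 (f3 (by omega))
    · exact H.ind _ _ a0 w0 (f3 (by omega))
    · exact H.ind _ _ b0 w0 (f3 (by omega))
    · exact H.ind _ _ a2 w0 (f3 (by omega))
    · exact H.ind _ _ b2 w0 (f3 (by omega))
  · intro e
    rcases e with w0|w0|w0|w0|w0
    · exact H.ind _ _ w0 a2 (f4 (by omega))
    · exact H.ind _ _ w0 b2 (f4 (by omega))
    · exact H.ind _ _ a1 w0 (f2 (by omega))
    · exact H.ind _ _ a0 w0 (f8 (by omega))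
    · exact H.ind _ _ b0 w0 (f8 (by omega))

theorem big8 {k : ℤ} {A : ℤ → Prop} (H : Hyp k A) (hk : 9 ≤ k)
    (a0 : A (0)) (b0 : A (2*k-1)) (a1 : A (k+1)) (b1 : A (3*k)) (a2 : A (4*k-1)) (b2 : A (6*k-2)) :
    ¬ N k A (2) ∧ ¬ N k A (4) ∧ ¬ N k A (5) ∧ ¬ N k A (6) := by
  refine ⟨?_, ?_, ?_, ?_⟩
  · intro e
    rcases e with w0|w0|w0|w0|w0
    · exact H.ind _ _ w0 b0 (f1 (by omega))
    · exact H.ind _ _ w0 a2 (f2 (by omega))
    · exact H.ind _ _ a1 w0 (f4 (by omega))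
    · exact H.ind _ _ b1 w0 (f4 (by omega))
    · exact H.ind _ _ a0 w0 (f10 (by omega))
  · intro e
    rcases e with w0|w0|w0|w0|w0
    · exact H.ind _ _ w0 b1 (f3 (by omega))
    · exact H.ind _ _ a0 w0 (f3 (by omega))
    · exact H.ind _ _ b0 w0 (f3 (by omega))
    · exact H.ind _ _ a2 w0 (f3 (by omega))
    · exact H.ind _ _ a1 w0 (f8 (by omega))
  · intro e
    rcases e with w0|w0|w0|w0|w0
    · exact H.ind _ _ w0 b1 (f3 (by omega))
    · exact H.ind _ _ a0 w0 (f3 (by omega))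
    · exact H.ind _ _ b0 w0 (f3 (by omega))
    · exact H.ind _ _ a2 w0 (f3 (by omega))
    · exact H.ind _ _ a1 w0 (f8 (by omega))
  · intro e
    rcases e with w0|w0|w0|w0|w0
    · exact H.ind _ _ w0 b1 (f3 (by omega))
    · exact H.ind _ _ a0 w0 (f3 (by omega))
    · exact H.ind _ _ b0 w0 (f3 (by omega))
    · exact H.ind _ _ a2 w0 (f3 (by omega))
    · exact H.ind _ _ a1 w0 (f8 (by omega))

theorem big9 {k : ℤ} {A : ℤ → Prop} (H : Hyp k A) (hk : 9 ≤ k)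
    (a0 : A (0)) (b0 : A (2*k-1)) (a1 : A (3*k-2)) (b1 : A (5*k-3)) (a2 : A (4*k-1)) (b2 : A (6*k-2)) :
    ¬ N k A (4) ∧ ¬ N k A (5) ∧ ¬ N k A (k+2) ∧ ¬ N k A (k+3) := by
  refine ⟨?_, ?_, ?_, ?_⟩
  · intro e
    rcases e with w0|w0|w0|w0|w0
    · exact H.ind _ _ w0 a1 (f3 (by omega))
    · exact H.ind _ _ a0 w0 (f3 (by omega))
    · exact H.ind _ _ b0 w0 (f3 (by omega))
    · exact H.ind _ _ a2 w0 (f3 (by omega))
    · exact H.ind _ _ b2 w0 (f3 (by omega))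
  · intro e
    rcases e with w0|w0|w0|w0|w0
    · exact H.ind _ _ w0 a1 (f3 (by omega))
    · exact H.ind _ _ a0 w0 (f3 (by omega))
    · exact H.ind _ _ b0 w0 (f3 (by omega))
    · exact H.ind _ _ a2 w0 (f3 (by omega))
    · exact H.ind _ _ b2 w0 (f3 (by omega))
  · intro e
    rcases e with w0|w0|w0|w0|w0
    · exact H.ind _ _ w0 a2 (f3 (by omega))
    · exact H.ind _ _ w0 b2 (f3 (by omega))
    · exact H.ind _ _ a1 w0 (f3 (by omega))
    · exact H.ind _ _ a0 w0 (f8 (by omega))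
    · exact H.ind _ _ b0 w0 (f8 (by omega))
  · intro e
    rcases e with w0|w0|w0|w0|w0
    · exact H.ind _ _ w0 a2 (f3 (by omega))
    · exact H.ind _ _ w0 b2 (f3 (by omega))
    · exact H.ind _ _ a1 w0 (f3 (by omega))
    · exact H.ind _ _ a0 w0 (f8 (by omega))
    · exact H.ind _ _ b0 w0 (f8 (by omega))

theorem big10 {k : ℤ} {A : ℤ → Prop} (H : Hyp k A) (hk : 9 ≤ k)
    (a0 : A (0)) (b0 : A (2*k-1)) (a1 : A (k+2)) (b1 : A (3*k+1)) (a2 : A (4*k)) (b2 : A (6*k-1)) :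
    ¬ N k A (5) ∧ ¬ N k A (6) ∧ ¬ N k A (7) ∧ ¬ N k A (k+1) := by
  refine ⟨?_, ?_, ?_, ?_⟩
  · intro e
    rcases e with w0|w0|w0|w0|w0
    · exact H.ind _ _ w0 b1 (f3 (by omega))
    · exact H.ind _ _ a0 w0 (f3 (by omega))
    · exact H.ind _ _ b0 w0 (f3 (by omega))
    · exact H.ind _ _ a2 w0 (f3 (by omega))
    · exact H.ind _ _ a1 w0 (f8 (by omega))
  · intro e
    rcases e with w0|w0|w0|w0|w0
    · exact H.ind _ _ w0 b1 (f3 (by omega))
    · exact H.ind _ _ a0 w0 (f3 (by omega))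
    · exact H.ind _ _ b0 w0 (f3 (by omega))
    · exact H.ind _ _ a2 w0 (f3 (by omega))
    · exact H.ind _ _ a1 w0 (f8 (by omega))
  · intro e
    rcases e with w0|w0|w0|w0|w0
    · exact H.ind _ _ w0 b1 (f3 (by omega))
    · exact H.ind _ _ a0 w0 (f3 (by omega))
    · exact H.ind _ _ b0 w0 (f3 (by omega))
    · exact H.ind _ _ a2 w0 (f3 (by omega))
    · exact H.ind _ _ a1 w0 (f8 (by omega))
  · intro e
    rcases e with w0|w0|w0|w0|w0
    · exact H.ind _ _ w0 a2 (f4 (by omega))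
    · exact H.ind _ _ a1 w0 (f2 (by omega))
    · exact H.ind _ _ b1 w0 (f2 (by omega))
    · exact H.ind _ _ a0 w0 (f8 (by omega))
    · exact H.ind _ _ b0 w0 (f8 (by omega))

theorem big11 {k : ℤ} {A : ℤ → Prop} (H : Hyp k A) (hk : 9 ≤ k)
    (a0 : A (0)) (b0 : A (2*k-1)) (a1 : A (3*k-2)) (b1 : A (5*k-3)) (a2 : A (4*k)) (b2 : A (6*k-1)) :
    ¬ N k A (5) ∧ ¬ N k A (k) ∧ ¬ N k A (k+3) ∧ ¬ N k A (k+4) := by
  refine ⟨?_, ?_, ?_, ?_⟩
  · intro e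
    rcases e with w0|w0|w0|w0|w0
    · exact H.ind _ _ w0 a1 (f3 (by omega))
    · exact H.ind _ _ a0 w0 (f3 (by omega))
    · exact H.ind _ _ b0 w0 (f3 (by omega))
    · exact H.ind _ _ a2 w0 (f3 (by omega))
    · exact H.ind _ _ b2 w0 (f3 (by omega))
  · intro e
    rcases e with w0|w0|w0|w0|w0
    · exact H.ind _ _ w0 a1 (f2 (by omega))
    · exact H.ind _ _ a0 w0 (f4 (by omega))
    · exact H.ind _ _ b0 w0 (f4 (by omega))
    · exact H.ind _ _ a2 w0 (f3 (by omega))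
    · exact H.ind _ _ b2 w0 (f3 (by omega))
  · intro e
    rcases e with w0|w0|w0|w0|w0
    · exact H.ind _ _ w0 a2 (f3 (by omega))
    · exact H.ind _ _ w0 b2 (f3 (by omega))
    · exact H.ind _ _ a1 w0 (f3 (by omega))
    · exact H.ind _ _ a0 w0 (f8 (by omega))
    · exact H.ind _ _ b0 w0 (f8 (by omega))
  · intro e
    rcases e with w0|w0|w0|w0|w0
    · exact H.ind _ _ w0 a2 (f3 (by omega))
    · exact H.ind _ _ w0 b2 (f3 (by omega))
    · exact H.ind _ _ a1 w0 (f3 (by omega))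
    · exact H.ind _ _ a0 w0 (f8 (by omega))
    · exact H.ind _ _ b0 w0 (f8 (by omega))

theorem big12 {k : ℤ} {A : ℤ → Prop} (H : Hyp k A) (hk : 9 ≤ k)
    (a0 : A (0)) (b0 : A (2*k-1)) (a1 : A (2*k+1)) (b1 : A (4*k)) (a2 : A (6*k-5)) (b2 : A (8*k-6)) :
    ¬ N k A (5) ∧ ¬ N k A (k-2) ∧ ¬ N k A (k+1) ∧ ¬ N k A (k+3) := by
  refine ⟨?_, ?_, ?_, ?_⟩
  · intro e
    rcases e with w0|w0|w0|w0|w0
    · exact H.ind _ _ w0 b2 (f8 (by omega))
    · exact H.ind _ _ a0 w0 (f3 (by omega))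
    · exact H.ind _ _ b0 w0 (f3 (by omega))
    · exact H.ind _ _ b1 w0 (f3 (by omega))
    · exact H.ind _ _ a2 w0 (f3 (by omega))
  · intro e
    rcases e with w0|w0|w0|w0|w0
    · exact H.ind _ _ w0 b2 (f7 (by omega))
    · exact H.ind _ _ a0 w0 (f3 (by omega))
    · exact H.ind _ _ b0 w0 (f3 (by omega))
    · exact H.ind _ _ b1 w0 (f3 (by omega))
    · exact H.ind _ _ a2 w0 (f4 (by omega))
  · intro e
    rcases e with w0|w0|w0|w0|w0
    · exact H.ind _ _ w0 b1 (f4 (by omega))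
    · exact H.ind _ _ w0 a2 (f3 (by omega))
    · exact H.ind _ _ w0 b2 (f3 (by omega))
    · exact H.ind _ _ a0 w0 (f8 (by omega))
    · exact H.ind _ _ b0 w0 (f8 (by omega))
  · intro e
    rcases e with w0|w0|w0|w0|w0
    · exact H.ind _ _ w0 b1 (f3 (by omega))
    · exact H.ind _ _ w0 a2 (f3 (by omega))
    · exact H.ind _ _ w0 b2 (f3 (by omega))
    · exact H.ind _ _ a0 w0 (f8 (by omega))
    · exact H.ind _ _ b0 w0 (f8 (by omega))

theorem big13 {k : ℤ} {A : ℤ → Prop} (H : Hyp k A) (hk : 9 ≤ k)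
    (a0 : A (0)) (b0 : A (2*k-1)) (a1 : A (4*k-6)) (b1 : A (6*k-7)) (a2 : A (6*k-5)) (b2 : A (8*k-6)) :
    ¬ N k A (3) ∧ ¬ N k A (k-4) ∧ ¬ N k A (k-1) ∧ ¬ N k A (k+1) := by
  refine ⟨?_, ?_, ?_, ?_⟩
  · intro e
    rcases e with w0|w0|w0|w0|w0
    · exact H.ind _ _ w0 b2 (f8 (by omega))
    · exact H.ind _ _ a0 w0 (f3 (by omega))
    · exact H.ind _ _ b0 w0 (f3 (by omega))
    · exact H.ind _ _ a1 w0 (f3 (by omega))
    · exact H.ind _ _ b1 w0 (f3 (by omega))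
  · intro e
    rcases e with w0|w0|w0|w0|w0
    · exact H.ind _ _ w0 b2 (f8 (by omega))
    · exact H.ind _ _ a0 w0 (f3 (by omega))
    · exact H.ind _ _ b0 w0 (f3 (by omega))
    · exact H.ind _ _ a1 w0 (f4 (by omega))
    · exact H.ind _ _ b1 w0 (f4 (by omega))
  · intro e
    rcases e with w0|w0|w0|w0|w0
    · exact H.ind _ _ w0 a1 (f3 (by omega))
    · exact H.ind _ _ w0 b1 (f3 (by omega))
    · exact H.ind _ _ w0 b2 (f3 (by omega))
    · exact H.ind _ _ a0 w0 (f7 (by omega))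
    · exact H.ind _ _ b0 w0 (f7 (by omega))
  · intro e
    rcases e with w0|w0|w0|w0|w0
    · exact H.ind _ _ w0 a1 (f3 (by omega))
    · exact H.ind _ _ w0 b1 (f3 (by omega))
    · exact H.ind _ _ w0 b2 (f3 (by omega))
    · exact H.ind _ _ a0 w0 (f8 (by omega))
    · exact H.ind _ _ b0 w0 (f8 (by omega))

theorem big14 {k : ℤ} {A : ℤ → Prop} (H : Hyp k A) (hk : 9 ≤ k)
    (a0 : A (0)) (b0 : A (2*k-1)) (a1 : A (2*k+1)) (b1 : A (4*k)) (a2 : A (6*k-4)) (b2 : A (8*k-5)) :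
    ¬ N k A (5) ∧ ¬ N k A (6) ∧ ¬ N k A (k+1) ∧ ¬ N k A (k+3) := by
  refine ⟨?_, ?_, ?_, ?_⟩
  · intro e
    rcases e with w0|w0|w0|w0|w0
    · exact H.ind _ _ w0 b2 (f8 (by omega))
    · exact H.ind _ _ a0 w0 (f3 (by omega))
    · exact H.ind _ _ b0 w0 (f3 (by omega))
    · exact H.ind _ _ b1 w0 (f3 (by omega))
    · exact H.ind _ _ a2 w0 (f3 (by omega))
  · intro e
    rcases e with w0|w0|w0|w0|w0
    · exact H.ind _ _ w0 b2 (f8 (by omega))
    · exact H.ind _ _ a0 w0 (f3 (by omega))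
    · exact H.ind _ _ b0 w0 (f3 (by omega))
    · exact H.ind _ _ b1 w0 (f3 (by omega))
    · exact H.ind _ _ a2 w0 (f3 (by omega))
  · intro e
    rcases e with w0|w0|w0|w0|w0
    · exact H.ind _ _ w0 b1 (f4 (by omega))
    · exact H.ind _ _ w0 a2 (f3 (by omega))
    · exact H.ind _ _ w0 b2 (f3 (by omega))
    · exact H.ind _ _ a0 w0 (f8 (by omega))
    · exact H.ind _ _ b0 w0 (f8 (by omega))
  · intro e
    rcases e with w0|w0|w0|w0|w0
    · exact H.ind _ _ w0 b1 (f3 (by omega))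
    · exact H.ind _ _ w0 a2 (f3 (by omega))
    · exact H.ind _ _ w0 b2 (f3 (by omega))
    · exact H.ind _ _ a0 w0 (f8 (by omega))
    · exact H.ind _ _ b0 w0 (f8 (by omega))

theorem big15 {k : ℤ} {A : ℤ → Prop} (H : Hyp k A) (hk : 9 ≤ k)
    (a0 : A (0)) (b0 : A (2*k-1)) (a1 : A (4*k-5)) (b1 : A (6*k-6)) (a2 : A (6*k-4)) (b2 : A (8*k-5)) :
    ¬ N k A (3) ∧ ¬ N k A (4) ∧ ¬ N k A (k-3) ∧ ¬ N k A (k+1) := by
  refine ⟨?_, ?_, ?_, ?_⟩
  · intro e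
    rcases e with w0|w0|w0|w0|w0
    · exact H.ind _ _ w0 b2 (f8 (by omega))
    · exact H.ind _ _ a0 w0 (f3 (by omega))
    · exact H.ind _ _ b0 w0 (f3 (by omega))
    · exact H.ind _ _ a1 w0 (f3 (by omega))
    · exact H.ind _ _ b1 w0 (f3 (by omega))
  · intro e
    rcases e with w0|w0|w0|w0|w0
    · exact H.ind _ _ w0 b2 (f8 (by omega))
    · exact H.ind _ _ a0 w0 (f3 (by omega))
    · exact H.ind _ _ b0 w0 (f3 (by omega))
    · exact H.ind _ _ a1 w0 (f3 (by omega))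
    · exact H.ind _ _ b1 w0 (f3 (by omega))
  · intro e
    rcases e with w0|w0|w0|w0|w0
    · exact H.ind _ _ w0 b2 (f8 (by omega))
    · exact H.ind _ _ a0 w0 (f3 (by omega))
    · exact H.ind _ _ b0 w0 (f3 (by omega))
    · exact H.ind _ _ a1 w0 (f4 (by omega))
    · exact H.ind _ _ b1 w0 (f4 (by omega))
  · intro e
    rcases e with w0|w0|w0|w0|w0
    · exact H.ind _ _ w0 a1 (f3 (by omega))
    · exact H.ind _ _ w0 b1 (f3 (by omega))
    · exact H.ind _ _ w0 b2 (f3 (by omega))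
    · exact H.ind _ _ a0 w0 (f8 (by omega))
    · exact H.ind _ _ b0 w0 (f8 (by omega))

theorem big16 {k : ℤ} {A : ℤ → Prop} (H : Hyp k A) (hk : 9 ≤ k)
    (a0 : A (0)) (b0 : A (2*k-1)) (a1 : A (2*k+1)) (b1 : A (4*k)) (a2 : A (6*k)) (b2 : A (8*k-1)) :
    ¬ N k A (6) ∧ ¬ N k A (7) ∧ ¬ N k A (k) ∧ ¬ N k A (k+4) := by
  refine ⟨?_, ?_, ?_, ?_⟩
  · intro e
    rcases e with w0|w0|w0|w0|w0
    · exact H.ind _ _ w0 b2 (f8 (by omega))
    · exact H.ind _ _ a0 w0 (f3 (by omega))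
    · exact H.ind _ _ b0 w0 (f3 (by omega))
    · exact H.ind _ _ b1 w0 (f3 (by omega))
    · exact H.ind _ _ a2 w0 (f3 (by omega))
  · intro e
    rcases e with w0|w0|w0|w0|w0
    · exact H.ind _ _ w0 b2 (f8 (by omega))
    · exact H.ind _ _ a0 w0 (f3 (by omega))
    · exact H.ind _ _ b0 w0 (f3 (by omega))
    · exact H.ind _ _ b1 w0 (f3 (by omega))
    · exact H.ind _ _ a2 w0 (f3 (by omega))
  · intro e
    rcases e with w0|w0|w0|w0|w0
    · exact H.ind _ _ w0 b2 (f8 (by omega))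
    · exact H.ind _ _ a0 w0 (f4 (by omega))
    · exact H.ind _ _ b0 w0 (f4 (by omega))
    · exact H.ind _ _ b1 w0 (f3 (by omega))
    · exact H.ind _ _ a2 w0 (f3 (by omega))
  · intro e
    rcases e with w0|w0|w0|w0|w0
    · exact H.ind _ _ w0 b1 (f3 (by omega))
    · exact H.ind _ _ w0 a2 (f3 (by omega))
    · exact H.ind _ _ w0 b2 (f3 (by omega))
    · exact H.ind _ _ a0 w0 (f8 (by omega))
    · exact H.ind _ _ b0 w0 (f8 (by omega))

theorem big17 {k : ℤ} {A : ℤ → Prop} (H : Hyp k A) (hk : 9 ≤ k)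
    (a0 : A (0)) (b0 : A (2*k-1)) (a1 : A (4*k-1)) (b1 : A (6*k-2)) (a2 : A (6*k)) (b2 : A (8*k-1)) :
    ¬ N k A (6) ∧ ¬ N k A (7) ∧ ¬ N k A (k+2) ∧ ¬ N k A (k+4) := by
  refine ⟨?_, ?_, ?_, ?_⟩
  · intro e
    rcases e with w0|w0|w0|w0|w0
    · exact H.ind _ _ w0 b2 (f8 (by omega))
    · exact H.ind _ _ a0 w0 (f3 (by omega))
    · exact H.ind _ _ b0 w0 (f3 (by omega))
    · exact H.ind _ _ a1 w0 (f3 (by omega))
    · exact H.ind _ _ b1 w0 (f3 (by omega))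
  · intro e
    rcases e with w0|w0|w0|w0|w0
    · exact H.ind _ _ w0 b2 (f8 (by omega))
    · exact H.ind _ _ a0 w0 (f3 (by omega))
    · exact H.ind _ _ b0 w0 (f3 (by omega))
    · exact H.ind _ _ a1 w0 (f3 (by omega))
    · exact H.ind _ _ b1 w0 (f3 (by omega))
  · intro e
    rcases e with w0|w0|w0|w0|w0
    · exact H.ind _ _ w0 a1 (f3 (by omega))
    · exact H.ind _ _ w0 b1 (f3 (by omega))
    · exact H.ind _ _ w0 b2 (f4 (by omega))
    · exact H.ind _ _ a0 w0 (f8 (by omega))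
    · exact H.ind _ _ b0 w0 (f8 (by omega))
  · intro e
    rcases e with w0|w0|w0|w0|w0
    · exact H.ind _ _ w0 a1 (f3 (by omega))
    · exact H.ind _ _ w0 b1 (f3 (by omega))
    · exact H.ind _ _ w0 b2 (f3 (by omega))
    · exact H.ind _ _ a0 w0 (f8 (by omega))
    · exact H.ind _ _ b0 w0 (f8 (by omega))

theorem big18 {k : ℤ} {A : ℤ → Prop} (H : Hyp k A) (hk : 9 ≤ k)
    (a0 : A (0)) (b0 : A (2*k-1)) (a1 : A (2*k+1)) (b1 : A (4*k)) (a2 : A (6*k+1)) (b2 : A (8*k)) :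
    ¬ N k A (7) ∧ ¬ N k A (k) ∧ ¬ N k A (k+3) ∧ ¬ N k A (k+5) := by
  refine ⟨?_, ?_, ?_, ?_⟩
  · intro e
    rcases e with w0|w0|w0|w0|w0
    · exact H.ind _ _ w0 b2 (f8 (by omega))
    · exact H.ind _ _ a0 w0 (f3 (by omega))
    · exact H.ind _ _ b0 w0 (f3 (by omega))
    · exact H.ind _ _ b1 w0 (f3 (by omega))
    · exact H.ind _ _ a2 w0 (f3 (by omega))
  · intro e
    rcases e with w0|w0|w0|w0|w0
    · exact H.ind _ _ w0 b2 (f8 (by omega))
    · exact H.ind _ _ a0 w0 (f4 (by omega))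
    · exact H.ind _ _ b0 w0 (f4 (by omega))
    · exact H.ind _ _ b1 w0 (f3 (by omega))
    · exact H.ind _ _ a2 w0 (f3 (by omega))
  · intro e
    rcases e with w0|w0|w0|w0|w0
    · exact H.ind _ _ w0 b1 (f3 (by omega))
    · exact H.ind _ _ w0 a2 (f4 (by omega))
    · exact H.ind _ _ w0 b2 (f4 (by omega))
    · exact H.ind _ _ a0 w0 (f8 (by omega))
    · exact H.ind _ _ b0 w0 (f8 (by omega))
  · intro e
    rcases e with w0|w0|w0|w0|w0
    · exact H.ind _ _ w0 b1 (f3 (by omega))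
    · exact H.ind _ _ w0 a2 (f3 (by omega))
    · exact H.ind _ _ w0 b2 (f3 (by omega))
    · exact H.ind _ _ a0 w0 (f8 (by omega))
    · exact H.ind _ _ b0 w0 (f8 (by omega))

theorem big19 {k : ℤ} {A : ℤ → Prop} (H : Hyp k A) (hk : 9 ≤ k)
    (a0 : A (0)) (b0 : A (2*k-1)) (a1 : A (4*k)) (b1 : A (6*k-1)) (a2 : A (6*k+1)) (b2 : A (8*k)) :
    ¬ N k A (7) ∧ ¬ N k A (k) ∧ ¬ N k A (k+3) ∧ ¬ N k A (k+5) := by
  refine ⟨?_, ?_, ?_, ?_⟩
  · intro e
    rcases e with w0|w0|w0|w0|w0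
    · exact H.ind _ _ w0 b2 (f8 (by omega))
    · exact H.ind _ _ a0 w0 (f3 (by omega))
    · exact H.ind _ _ b0 w0 (f3 (by omega))
    · exact H.ind _ _ a1 w0 (f3 (by omega))
    · exact H.ind _ _ b1 w0 (f3 (by omega))
  · intro e
    rcases e with w0|w0|w0|w0|w0
    · exact H.ind _ _ w0 b2 (f8 (by omega))
    · exact H.ind _ _ a0 w0 (f4 (by omega))
    · exact H.ind _ _ b0 w0 (f4 (by omega))
    · exact H.ind _ _ a1 w0 (f3 (by omega))
    · exact H.ind _ _ b1 w0 (f3 (by omega))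
  · intro e
    rcases e with w0|w0|w0|w0|w0
    · exact H.ind _ _ w0 a1 (f3 (by omega))
    · exact H.ind _ _ w0 b1 (f3 (by omega))
    · exact H.ind _ _ w0 b2 (f4 (by omega))
    · exact H.ind _ _ a0 w0 (f8 (by omega))
    · exact H.ind _ _ b0 w0 (f8 (by omega))
  · intro e
    rcases e with w0|w0|w0|w0|w0
    · exact H.ind _ _ w0 a1 (f3 (by omega))
    · exact H.ind _ _ w0 b1 (f3 (by omega))
    · exact H.ind _ _ w0 b2 (f3 (by omega))
    · exact H.ind _ _ a0 w0 (f8 (by omega))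
    · exact H.ind _ _ b0 w0 (f8 (by omega))

theorem big20 {k : ℤ} {A : ℤ → Prop} (H : Hyp k A) (hk : 9 ≤ k)
    (a0 : A (0)) (b0 : A (2*k-1)) (a1 : A (2*k)) (b1 : A (4*k-1)) (a2 : A (6*k-5)) (b2 : A (8*k-6)) :
    ¬ N k A (4) ∧ ¬ N k A (5) ∧ ¬ N k A (k-2) ∧ ¬ N k A (k+2) := by
  refine ⟨?_, ?_, ?_, ?_⟩
  · intro e
    rcases e with w0|w0|w0|w0|w0
    · exact H.ind _ _ w0 b2 (f8 (by omega))
    · exact H.ind _ _ a0 w0 (f3 (by omega))
    · exact H.ind _ _ b0 w0 (f3 (by omega))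
    · exact H.ind _ _ b1 w0 (f3 (by omega))
    · exact H.ind _ _ a2 w0 (f3 (by omega))
  · intro e
    rcases e with w0|w0|w0|w0|w0
    · exact H.ind _ _ w0 b2 (f8 (by omega))
    · exact H.ind _ _ a0 w0 (f3 (by omega))
    · exact H.ind _ _ b0 w0 (f3 (by omega))
    · exact H.ind _ _ b1 w0 (f3 (by omega))
    · exact H.ind _ _ a2 w0 (f3 (by omega))
  · intro e
    rcases e with w0|w0|w0|w0|w0
    · exact H.ind _ _ w0 b2 (f7 (by omega))
    · exact H.ind _ _ a0 w0 (f3 (by omega))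
    · exact H.ind _ _ b0 w0 (f3 (by omega))
    · exact H.ind _ _ b1 w0 (f3 (by omega))
    · exact H.ind _ _ a2 w0 (f4 (by omega))
  · intro e
    rcases e with w0|w0|w0|w0|w0
    · exact H.ind _ _ w0 b1 (f3 (by omega))
    · exact H.ind _ _ w0 a2 (f3 (by omega))
    · exact H.ind _ _ w0 b2 (f3 (by omega))
    · exact H.ind _ _ a0 w0 (f8 (by omega))
    · exact H.ind _ _ b0 w0 (f8 (by omega))

theorem big21 {k : ℤ} {A : ℤ → Prop} (H : Hyp k A) (hk : 9 ≤ k)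
    (a0 : A (0)) (b0 : A (2*k-1)) (a1 : A (4*k-5)) (b1 : A (6*k-6)) (a2 : A (6*k-5)) (b2 : A (8*k-6)) :
    ¬ N k A (3) ∧ ¬ N k A (4) ∧ ¬ N k A (k-1) ∧ ¬ N k A (k+1) := by
  refine ⟨?_, ?_, ?_, ?_⟩
  · intro e
    rcases e with w0|w0|w0|w0|w0
    · exact H.ind _ _ w0 b2 (f8 (by omega))
    · exact H.ind _ _ a0 w0 (f3 (by omega))
    · exact H.ind _ _ b0 w0 (f3 (by omega))
    · exact H.ind _ _ a1 w0 (f3 (by omega))
    · exact H.ind _ _ b1 w0 (f3 (by omega))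
  · intro e
    rcases e with w0|w0|w0|w0|w0
    · exact H.ind _ _ w0 b2 (f8 (by omega))
    · exact H.ind _ _ a0 w0 (f3 (by omega))
    · exact H.ind _ _ b0 w0 (f3 (by omega))
    · exact H.ind _ _ a1 w0 (f3 (by omega))
    · exact H.ind _ _ b1 w0 (f3 (by omega))
  · intro e
    rcases e with w0|w0|w0|w0|w0
    · exact H.ind _ _ w0 a1 (f3 (by omega))
    · exact H.ind _ _ w0 b1 (f3 (by omega))
    · exact H.ind _ _ w0 b2 (f3 (by omega))
    · exact H.ind _ _ a0 w0 (f7 (by omega))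
    · exact H.ind _ _ b0 w0 (f7 (by omega))
  · intro e
    rcases e with w0|w0|w0|w0|w0
    · exact H.ind _ _ w0 a1 (f3 (by omega))
    · exact H.ind _ _ w0 b1 (f3 (by omega))
    · exact H.ind _ _ w0 b2 (f3 (by omega))
    · exact H.ind _ _ a0 w0 (f8 (by omega))
    · exact H.ind _ _ b0 w0 (f8 (by omega))

theorem big22 {k : ℤ} {A : ℤ → Prop} (H : Hyp k A) (hk : 9 ≤ k)
    (a0 : A (0)) (b0 : A (2*k-1)) (a1 : A (2*k)) (b1 : A (4*k-1)) (a2 : A (6*k)) (b2 : A (8*k-1)) :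
    ¬ N k A (6) ∧ ¬ N k A (7) ∧ ¬ N k A (k+2) ∧ ¬ N k A (k+4) := by
  refine ⟨?_, ?_, ?_, ?_⟩
  · intro e
    rcases e with w0|w0|w0|w0|w0
    · exact H.ind _ _ w0 b2 (f8 (by omega))
    · exact H.ind _ _ a0 w0 (f3 (by omega))
    · exact H.ind _ _ b0 w0 (f3 (by omega))
    · exact H.ind _ _ b1 w0 (f3 (by omega))
    · exact H.ind _ _ a2 w0 (f3 (by omega))
  · intro e
    rcases e with w0|w0|w0|w0|w0
    · exact H.ind _ _ w0 b2 (f8 (by omega))
    · exact H.ind _ _ a0 w0 (f3 (by omega))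
    · exact H.ind _ _ b0 w0 (f3 (by omega))
    · exact H.ind _ _ b1 w0 (f3 (by omega))
    · exact H.ind _ _ a2 w0 (f3 (by omega))
  · intro e
    rcases e with w0|w0|w0|w0|w0
    · exact H.ind _ _ w0 b1 (f3 (by omega))
    · exact H.ind _ _ w0 a2 (f4 (by omega))
    · exact H.ind _ _ w0 b2 (f4 (by omega))
    · exact H.ind _ _ a0 w0 (f8 (by omega))
    · exact H.ind _ _ b0 w0 (f8 (by omega))
  · intro e
    rcases e with w0|w0|w0|w0|w0
    · exact H.ind _ _ w0 b1 (f3 (by omega))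
    · exact H.ind _ _ w0 a2 (f3 (by omega))
    · exact H.ind _ _ w0 b2 (f3 (by omega))
    · exact H.ind _ _ a0 w0 (f8 (by omega))
    · exact H.ind _ _ b0 w0 (f8 (by omega))

theorem big23 {k : ℤ} {A : ℤ → Prop} (H : Hyp k A) (hk : 9 ≤ k)
    (a0 : A (0)) (b0 : A (2*k-1)) (a1 : A (4*k)) (b1 : A (6*k-1)) (a2 : A (6*k)) (b2 : A (8*k-1)) :
    ¬ N k A (6) ∧ ¬ N k A (7) ∧ ¬ N k A (k) ∧ ¬ N k A (k+4) := by
  refine ⟨?_, ?_, ?_, ?_⟩
  · intro e
    rcases e with w0|w0|w0|w0|w0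
    · exact H.ind _ _ w0 b2 (f8 (by omega))
    · exact H.ind _ _ a0 w0 (f3 (by omega))
    · exact H.ind _ _ b0 w0 (f3 (by omega))
    · exact H.ind _ _ a1 w0 (f3 (by omega))
    · exact H.ind _ _ b1 w0 (f3 (by omega))
  · intro e
    rcases e with w0|w0|w0|w0|w0
    · exact H.ind _ _ w0 b2 (f8 (by omega))
    · exact H.ind _ _ a0 w0 (f3 (by omega))
    · exact H.ind _ _ b0 w0 (f3 (by omega))
    · exact H.ind _ _ a1 w0 (f3 (by omega))
    · exact H.ind _ _ b1 w0 (f3 (by omega))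
  · intro e
    rcases e with w0|w0|w0|w0|w0
    · exact H.ind _ _ w0 b2 (f8 (by omega))
    · exact H.ind _ _ a0 w0 (f4 (by omega))
    · exact H.ind _ _ b0 w0 (f4 (by omega))
    · exact H.ind _ _ a1 w0 (f3 (by omega))
    · exact H.ind _ _ b1 w0 (f3 (by omega))
  · intro e
    rcases e with w0|w0|w0|w0|w0
    · exact H.ind _ _ w0 a1 (f3 (by omega))
    · exact H.ind _ _ w0 b1 (f3 (by omega))
    · exact H.ind _ _ w0 b2 (f3 (by omega))
    · exact H.ind _ _ a0 w0 (f8 (by omega))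
    · exact H.ind _ _ b0 w0 (f8 (by omega))

theorem big24 {k : ℤ} {A : ℤ → Prop} (H : Hyp k A) (hk : 9 ≤ k)
    (a0 : A (0)) (b0 : A (2*k-1)) (a1 : A (2*k-4)) (b1 : A (4*k-5)) (a2 : A (6*k-5)) (b2 : A (8*k-6)) :
    ¬ N k A (3) ∧ ¬ N k A (4) ∧ ¬ N k A (k-1) ∧ ¬ N k A (k+1) := by
  refine ⟨?_, ?_, ?_, ?_⟩
  · intro e
    rcases e with w0|w0|w0|w0|w0
    · exact H.ind _ _ w0 b2 (f8 (by omega))
    · exact H.ind _ _ a0 w0 (f3 (by omega))
    · exact H.ind _ _ b0 w0 (f3 (by omega))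
    · exact H.ind _ _ b1 w0 (f3 (by omega))
    · exact H.ind _ _ a2 w0 (f3 (by omega))
  · intro e
    rcases e with w0|w0|w0|w0|w0
    · exact H.ind _ _ w0 b2 (f8 (by omega))
    · exact H.ind _ _ a0 w0 (f3 (by omega))
    · exact H.ind _ _ b0 w0 (f3 (by omega))
    · exact H.ind _ _ b1 w0 (f3 (by omega))
    · exact H.ind _ _ a2 w0 (f3 (by omega))
  · intro e
    rcases e with w0|w0|w0|w0|w0
    · exact H.ind _ _ w0 b1 (f3 (by omega))
    · exact H.ind _ _ w0 a2 (f3 (by omega))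
    · exact H.ind _ _ w0 b2 (f3 (by omega))
    · exact H.ind _ _ a0 w0 (f7 (by omega))
    · exact H.ind _ _ b0 w0 (f7 (by omega))
  · intro e
    rcases e with w0|w0|w0|w0|w0
    · exact H.ind _ _ w0 b1 (f3 (by omega))
    · exact H.ind _ _ w0 a2 (f3 (by omega))
    · exact H.ind _ _ w0 b2 (f3 (by omega))
    · exact H.ind _ _ a0 w0 (f8 (by omega))
    · exact H.ind _ _ b0 w0 (f8 (by omega))

theorem big25 {k : ℤ} {A : ℤ → Prop} (H : Hyp k A) (hk : 9 ≤ k)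
    (a0 : A (0)) (b0 : A (2*k-1)) (a1 : A (4*k-1)) (b1 : A (6*k-2)) (a2 : A (6*k-5)) (b2 : A (8*k-6)) :
    ¬ N k A (4) ∧ ¬ N k A (5) ∧ ¬ N k A (k-2) ∧ ¬ N k A (k+2) := by
  refine ⟨?_, ?_, ?_, ?_⟩
  · intro e
    rcases e with w0|w0|w0|w0|w0
    · exact H.ind _ _ w0 b2 (f8 (by omega))
    · exact H.ind _ _ a0 w0 (f3 (by omega))
    · exact H.ind _ _ b0 w0 (f3 (by omega))
    · exact H.ind _ _ a1 w0 (f3 (by omega))
    · exact H.ind _ _ b1 w0 (f3 (by omega))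
  · intro e
    rcases e with w0|w0|w0|w0|w0
    · exact H.ind _ _ w0 b2 (f8 (by omega))
    · exact H.ind _ _ a0 w0 (f3 (by omega))
    · exact H.ind _ _ b0 w0 (f3 (by omega))
    · exact H.ind _ _ a1 w0 (f3 (by omega))
    · exact H.ind _ _ b1 w0 (f3 (by omega))
  · intro e
    rcases e with w0|w0|w0|w0|w0
    · exact H.ind _ _ w0 b2 (f7 (by omega))
    · exact H.ind _ _ a0 w0 (f3 (by omega))
    · exact H.ind _ _ b0 w0 (f3 (by omega))
    · exact H.ind _ _ a1 w0 (f3 (by omega))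
    · exact H.ind _ _ b1 w0 (f3 (by omega))
  · intro e
    rcases e with w0|w0|w0|w0|w0
    · exact H.ind _ _ w0 a1 (f3 (by omega))
    · exact H.ind _ _ w0 b1 (f3 (by omega))
    · exact H.ind _ _ w0 b2 (f3 (by omega))
    · exact H.ind _ _ a0 w0 (f8 (by omega))
    · exact H.ind _ _ b0 w0 (f8 (by omega))

theorem big26 {k : ℤ} {A : ℤ → Prop} (H : Hyp k A) (hk : 9 ≤ k)
    (a0 : A (0)) (b0 : A (2*k-1)) (a1 : A (2*k-4)) (b1 : A (4*k-5)) (a2 : A (6*k-4)) (b2 : A (8*k-5)) :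
    ¬ N k A (3) ∧ ¬ N k A (4) ∧ ¬ N k A (k-3) ∧ ¬ N k A (k+1) := by
  refine ⟨?_, ?_, ?_, ?_⟩
  · intro e
    rcases e with w0|w0|w0|w0|w0
    · exact H.ind _ _ w0 b2 (f8 (by omega))
    · exact H.ind _ _ a0 w0 (f3 (by omega))
    · exact H.ind _ _ b0 w0 (f3 (by omega))
    · exact H.ind _ _ b1 w0 (f3 (by omega))
    · exact H.ind _ _ a2 w0 (f3 (by omega))
  · intro e
    rcases e with w0|w0|w0|w0|w0
    · exact H.ind _ _ w0 b2 (f8 (by omega))
    · exact H.ind _ _ a0 w0 (f3 (by omega))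
    · exact H.ind _ _ b0 w0 (f3 (by omega))
    · exact H.ind _ _ b1 w0 (f3 (by omega))
    · exact H.ind _ _ a2 w0 (f3 (by omega))
  · intro e
    rcases e with w0|w0|w0|w0|w0
    · exact H.ind _ _ w0 b2 (f8 (by omega))
    · exact H.ind _ _ a0 w0 (f3 (by omega))
    · exact H.ind _ _ b0 w0 (f3 (by omega))
    · exact H.ind _ _ b1 w0 (f4 (by omega))
    · exact H.ind _ _ a2 w0 (f3 (by omega))
  · intro e
    rcases e with w0|w0|w0|w0|w0
    · exact H.ind _ _ w0 b1 (f3 (by omega))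
    · exact H.ind _ _ w0 a2 (f3 (by omega))
    · exact H.ind _ _ w0 b2 (f3 (by omega))
    · exact H.ind _ _ a0 w0 (f8 (by omega))
    · exact H.ind _ _ b0 w0 (f8 (by omega))

theorem big27 {k : ℤ} {A : ℤ → Prop} (H : Hyp k A) (hk : 9 ≤ k)
    (a0 : A (0)) (b0 : A (2*k-1)) (a1 : A (4*k)) (b1 : A (6*k-1)) (a2 : A (6*k-4)) (b2 : A (8*k-5)) :
    ¬ N k A (5) ∧ ¬ N k A (6) ∧ ¬ N k A (k+1) ∧ ¬ N k A (k+3) := by
  refine ⟨?_, ?_, ?_, ?_⟩
  · intro e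
    rcases e with w0|w0|w0|w0|w0
    · exact H.ind _ _ w0 b2 (f8 (by omega))
    · exact H.ind _ _ a0 w0 (f3 (by omega))
    · exact H.ind _ _ b0 w0 (f3 (by omega))
    · exact H.ind _ _ a1 w0 (f3 (by omega))
    · exact H.ind _ _ b1 w0 (f3 (by omega))
  · intro e
    rcases e with w0|w0|w0|w0|w0
    · exact H.ind _ _ w0 b2 (f8 (by omega))
    · exact H.ind _ _ a0 w0 (f3 (by omega))
    · exact H.ind _ _ b0 w0 (f3 (by omega))
    · exact H.ind _ _ a1 w0 (f3 (by omega))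
    · exact H.ind _ _ b1 w0 (f3 (by omega))
  · intro e
    rcases e with w0|w0|w0|w0|w0
    · exact H.ind _ _ w0 a1 (f4 (by omega))
    · exact H.ind _ _ w0 b1 (f4 (by omega))
    · exact H.ind _ _ w0 b2 (f3 (by omega))
    · exact H.ind _ _ a0 w0 (f8 (by omega))
    · exact H.ind _ _ b0 w0 (f8 (by omega))
  · intro e
    rcases e with w0|w0|w0|w0|w0
    · exact H.ind _ _ w0 a1 (f3 (by omega))
    · exact H.ind _ _ w0 b1 (f3 (by omega))
    · exact H.ind _ _ w0 b2 (f3 (by omega))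
    · exact H.ind _ _ a0 w0 (f8 (by omega))
    · exact H.ind _ _ b0 w0 (f8 (by omega))

theorem big28 {k : ℤ} {A : ℤ → Prop} (H : Hyp k A) (hk : 9 ≤ k)
    (a0 : A (0)) (b0 : A (2*k-1)) (a1 : A (2*k-5)) (b1 : A (4*k-6)) (a2 : A (6*k-5)) (b2 : A (8*k-6)) :
    ¬ N k A (3) ∧ ¬ N k A (k-4) ∧ ¬ N k A (k-1) ∧ ¬ N k A (k+1) := by
  refine ⟨?_, ?_, ?_, ?_⟩
  · intro e
    rcases e with w0|w0|w0|w0|w0
    · exact H.ind _ _ w0 b2 (f8 (by omega))
    · exact H.ind _ _ a0 w0 (f3 (by omega))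
    · exact H.ind _ _ b0 w0 (f3 (by omega))
    · exact H.ind _ _ b1 w0 (f3 (by omega))
    · exact H.ind _ _ a2 w0 (f3 (by omega))
  · intro e
    rcases e with w0|w0|w0|w0|w0
    · exact H.ind _ _ w0 b2 (f8 (by omega))
    · exact H.ind _ _ a0 w0 (f3 (by omega))
    · exact H.ind _ _ b0 w0 (f3 (by omega))
    · exact H.ind _ _ b1 w0 (f4 (by omega))
    · exact H.ind _ _ a2 w0 (f3 (by omega))
  · intro e
    rcases e with w0|w0|w0|w0|w0
    · exact H.ind _ _ w0 b1 (f3 (by omega))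
    · exact H.ind _ _ w0 a2 (f3 (by omega))
    · exact H.ind _ _ w0 b2 (f3 (by omega))
    · exact H.ind _ _ a0 w0 (f7 (by omega))
    · exact H.ind _ _ b0 w0 (f7 (by omega))
  · intro e
    rcases e with w0|w0|w0|w0|w0
    · exact H.ind _ _ w0 b1 (f3 (by omega))
    · exact H.ind _ _ w0 a2 (f3 (by omega))
    · exact H.ind _ _ w0 b2 (f3 (by omega))
    · exact H.ind _ _ a0 w0 (f8 (by omega))
    · exact H.ind _ _ b0 w0 (f8 (by omega))

theorem big29 {k : ℤ} {A : ℤ → Prop} (H : Hyp k A) (hk : 9 ≤ k)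
    (a0 : A (0)) (b0 : A (2*k-1)) (a1 : A (4*k)) (b1 : A (6*k-1)) (a2 : A (6*k-5)) (b2 : A (8*k-6)) :
    ¬ N k A (5) ∧ ¬ N k A (k-2) ∧ ¬ N k A (k+1) ∧ ¬ N k A (k+3) := by
  refine ⟨?_, ?_, ?_, ?_⟩
  · intro e
    rcases e with w0|w0|w0|w0|w0
    · exact H.ind _ _ w0 b2 (f8 (by omega))
    · exact H.ind _ _ a0 w0 (f3 (by omega))
    · exact H.ind _ _ b0 w0 (f3 (by omega))
    · exact H.ind _ _ a1 w0 (f3 (by omega))
    · exact H.ind _ _ b1 w0 (f3 (by omega))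
  · intro e
    rcases e with w0|w0|w0|w0|w0
    · exact H.ind _ _ w0 b2 (f7 (by omega))
    · exact H.ind _ _ a0 w0 (f3 (by omega))
    · exact H.ind _ _ b0 w0 (f3 (by omega))
    · exact H.ind _ _ a1 w0 (f3 (by omega))
    · exact H.ind _ _ b1 w0 (f3 (by omega))
  · intro e
    rcases e with w0|w0|w0|w0|w0
    · exact H.ind _ _ w0 a1 (f4 (by omega))
    · exact H.ind _ _ w0 b1 (f4 (by omega))
    · exact H.ind _ _ w0 b2 (f3 (by omega))
    · exact H.ind _ _ a0 w0 (f8 (by omega))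
    · exact H.ind _ _ b0 w0 (f8 (by omega))
  · intro e
    rcases e with w0|w0|w0|w0|w0
    · exact H.ind _ _ w0 a1 (f3 (by omega))
    · exact H.ind _ _ w0 b1 (f3 (by omega))
    · exact H.ind _ _ w0 b2 (f3 (by omega))
    · exact H.ind _ _ a0 w0 (f8 (by omega))
    · exact H.ind _ _ b0 w0 (f8 (by omega))

end Pool.Agent.R792.Circ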