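import Pool.Agent.R792.Circ.Eight

namespace Pool.Agent.R792.Circ

open Finset

theorem sum_block (f : ℤ → ℕ) (m a b : ℤ) (ha : 0 ≤ a) (hm : 0 ≤ m) (hb : b = a + m) :
    ∑ x ∈ Ico (0:ℤ) b, f x = ∑ x ∈ Ico (0:ℤ) a, f x + ∑ r ∈ Ico (0:ℤ) m, f (r + a) := by
  have h1 : ∑ r ∈ Ico (0:ℤ) m, f (r + a) = ∑ x ∈ Ico a b, f x := by
    rw [Finset.sum_Ico_add' f 0 m a, zero_add, hb, add_comm m a]
  rw [h1, ← Finset.sum_union (Finset.Ico_disjoint_Ico_consecutive _ _ _),
    Finset.Ico_union_Ico_eq_Ico ha (by omega)]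

theorem sum_fib (k : ℤ) (hk : 8 ≤ k) (f : ℤ → ℕ) :
    ∑ x ∈ Ico (0:ℤ) (10*k-5), f x =
      ∑ r ∈ Ico (0:ℤ) (2*k-1), (f r + f (r + (2*k-1)) + f (r + 2*(2*k-1)) + f (r + 3*(2*k-1))
        + f (r + 4*(2*k-1))) := by
  rw [sum_block f (2*k-1) (4*(2*k-1)) (10*k-5) (by omega) (by omega) (by ring),
    sum_block f (2*k-1) (3*(2*k-1)) (4*(2*k-1)) (by omega) (by omega) (by ring),
    sum_block f (2*k-1) (2*(2*k-1)) (3*(2*k-1)) (by omega) (by omega) (by ring),
    sum_block f (2*k-1) (2*k-1) (2*(2*k-1)) (by omega) (by omega) (by ring)]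
  simp only [Finset.sum_add_distrib]

open Classical in
theorem fib_id {k : ℤ} {A : ℤ → Prop} (H : Hyp k A) (r : ℤ) :
    ((if A r then 1 else 0) + (if A (r + (2*k-1)) then 1 else 0)
      + (if A (r + 2*(2*k-1)) then 1 else 0) + (if A (r + 3*(2*k-1)) then 1 else 0)
      + (if A (r + 4*(2*k-1)) then 1 else 0)) + (if ¬ N k A r then 1 else 0) =
    ((if Pr k A r then 1 else 0) + (if Pr k A (r + (2*k-1)) then 1 else 0)
      + (if Pr k A (r + 2*(2*k-1)) then 1 else 0) + (if Pr k A (r + 3*(2*k-1)) then 1 else 0)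
      + (if Pr k A (r + 4*(2*k-1)) then 1 else 0)) + 1 := by
  have hk := H.hk
  have e5 : A (r + 4*(2*k-1) + (2*k-1)) ↔ A r := by
    rw [show r + 4*(2*k-1) + (2*k-1) = r + (10*k-5) by ring]
    exact H.per r
  have e1 : r + (2*k-1) + (2*k-1) = r + 2*(2*k-1) := by ring
  have e2 : r + 2*(2*k-1) + (2*k-1) = r + 3*(2*k-1) := by ring
  have e3 : r + 3*(2*k-1) + (2*k-1) = r + 4*(2*k-1) := by ring
  unfold Pr N
  rw [e1, e2, e3, e5]
  have c02 : A r → ¬ A (r + 2*(2*k-1)) := fun h h' => H.ind _ _ h h' (f5 (by ring))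
  have c13 : A (r + (2*k-1)) → ¬ A (r + 3*(2*k-1)) := fun h h' => H.ind _ _ h h' (f5 (by ring))
  have c24 : A (r + 2*(2*k-1)) → ¬ A (r + 4*(2*k-1)) := fun h h' => H.ind _ _ h h' (f5 (by ring))
  have c03 : A r → ¬ A (r + 3*(2*k-1)) := fun h h' => H.ind _ _ h h' (f6 (by ring))
  have c14 : A (r + (2*k-1)) → ¬ A (r + 4*(2*k-1)) := fun h h' => H.ind _ _ h h' (f6 (by ring))
  by_cases a0 : A r <;> by_cases a1 : A (r + (2*k-1)) <;> by_cases a2 : A (r + 2*(2*k-1)) <;>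
    by_cases a3 : A (r + 3*(2*k-1)) <;> by_cases a4 : A (r + 4*(2*k-1)) <;>
    first
    | exact absurd a2 (c02 a0)
    | exact absurd a3 (c03 a0)
    | exact absurd a3 (c13 a1)
    | exact absurd a4 (c14 a1)
    | exact absurd a4 (c24 a2)
    | simp [a0, a1, a2, a3, a4]

open Classical in
theorem count_id {k : ℤ} {A : ℤ → Prop} (H : Hyp k A) :
    ((Ico (0:ℤ) (10*k-5)).filter A).card + ((Ico (0:ℤ) (2*k-1)).filter (fun z => ¬ N k A z)).card =
    ((Ico (0:ℤ) (10*k-5)).filter (Pr k A)).card + (2*k-1).toNat := by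
  have hk := H.hk
  rw [Finset.card_filter, Finset.card_filter, Finset.card_filter, sum_fib k hk, sum_fib k hk,
    ← Finset.sum_add_distrib]
  have : (2*k-1).toNat = ∑ r ∈ Ico (0:ℤ) (2*k-1), 1 := by
    rw [Finset.sum_const, smul_eq_mul, mul_one, Int.card_Ico]; simp
  rw [this, ← Finset.sum_add_distrib]
  exact Finset.sum_congr rfl (fun r _ => fib_id H r)

theorem N_mod {k : ℤ} {A : ℤ → Prop} (H : Hyp k A) (z : ℤ) :
    N k A (z % (2*k-1)) ↔ N k A z := by
  have h := H.N_add_mul (z % (2*k-1)) (z / (2*k-1))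
  rw [← h]
  rw [show z % (2*k-1) + z / (2*k-1) * (2*k-1) = z by
    rw [mul_comm (z / (2*k-1)) (2*k-1)]; exact Int.emod_add_mul_ediv z (2*k-1)]

open Classical in
theorem mem_Z {k : ℤ} {A : ℤ → Prop} (H : Hyp k A) {z : ℤ} (h : ¬ N k A z) :
    z % (2*k-1) ∈ (Ico (0:ℤ) (2*k-1)).filter (fun z => ¬ N k A z) := by
  have hk := H.hk
  rw [Finset.mem_filter, Finset.mem_Ico]
  exact ⟨⟨Int.emod_nonneg _ (by omega), Int.emod_lt_of_pos _ (by omega)⟩, fun h' => h ((N_mod H z).1 h')⟩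

theorem mod_ne {m x y : ℤ} (h : ¬ m ∣ x - y) : x % m ≠ y % m := fun e =>
  h (Int.ModEq.dvd (show y ≡ x [ZMOD m] from e.symm))

theorem srt (T : Finset ℤ) (i j : ℕ) (hj : j < T.card) (hij : i < j) :
    T.orderEmbOfFin rfl ⟨i, hij.trans hj⟩ < T.orderEmbOfFin rfl ⟨j, hj⟩ :=
  (T.orderEmbOfFin rfl).strictMono (by exact hij)

open Classical in
theorem indep_bound {k : ℤ} {A : ℤ → Prop} (H : Hyp k A)
    (hS : (((Ico (0:ℤ) (10*k-5)).filter A).card : ℤ) = 2*k+1) : False := by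
  have hk := H.hk
  have hid := count_id H
  obtain ⟨PS, hPS⟩ : ∃ PS, PS = (Ico (0:ℤ) (10*k-5)).filter (Pr k A) := ⟨_, rfl⟩
  obtain ⟨ZR, hZR⟩ : ∃ ZR, ZR = (Ico (0:ℤ) (2*k-1)).filter (fun z => ¬ N k A z) := ⟨_, rfl⟩
  rw [← hPS, ← hZR] at hid
  have hc : PS.card = ZR.card + 2 := by omega
  have mem : ∀ x ∈ PS, 0 ≤ x ∧ x < 10*k-5 ∧ Pr k A x := by
    intro x hx
    rw [hPS, Finset.mem_filter, Finset.mem_Ico] at hx
    exact ⟨hx.1.1, hx.1.2, hx.2⟩
  have el : ∀ (i : ℕ) (hi : i < PS.card), 0 ≤ PS.orderEmbOfFin rfl ⟨i, hi⟩ ∧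
      PS.orderEmbOfFin rfl ⟨i, hi⟩ < 10*k-5 ∧ Pr k A (PS.orderEmbOfFin rfl ⟨i, hi⟩) :=
    fun i hi => mem _ (Finset.orderEmbOfFin_mem _ _ _)
  -- at least one empty fibre
  have z1 : 1 ≤ ZR.card := by
    have a0 := el 0 (by omega)
    have a1 := el 1 (by omega)
    have l1 := srt PS 0 1 (by omega) (by omega)
    obtain ⟨z, hz⟩ := one_of_two H a0.2.2 a1.2.2 l1 (by omega)
    rw [hZR]
    exact Finset.card_pos.2 ⟨_, mem_Z H hz⟩
  have z2 : 2 ≤ ZR.card := by
    have a0 := el 0 (by omega)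
    have a1 := el 1 (by omega)
    have a2 := el 2 (by omega)
    have l1 := srt PS 0 1 (by omega) (by omega)
    have l2 := srt PS 1 2 (by omega) (by omega)
    obtain ⟨u, v, hu, hv, huv⟩ := two_of_three H a0.2.2 a1.2.2 a2.2.2 l1 l2 (by omega)
    rw [hZR]
    exact Finset.one_lt_card.2 ⟨_, mem_Z H hu, _, mem_Z H hv, mod_ne huv⟩
  have z4 : 4 ≤ ZR.card := by
    have a0 := el 0 (by omega)
    have a1 := el 1 (by omega)
    have a2 := el 2 (by omega)
    have a3 := el 3 (by omega)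
    have l1 := srt PS 0 1 (by omega) (by omega)
    have l2 := srt PS 1 2 (by omega) (by omega)
    have l3 := srt PS 2 3 (by omega) (by omega)
    obtain ⟨c, w1, w2, w3, w4, b1, b2, b3, b4, b5, n1, n2, n3, n4⟩ :=
      four_of_four H a0.2.2 a1.2.2 a2.2.2 a3.2.2 l1 l2 l3 (by omega)
    have ne : ∀ x y : ℤ, x < y → y < x + (2*k-1) → x % (2*k-1) ≠ y % (2*k-1) := by
      intro x y h1 h2
      exact mod_ne (ndvd (by omega) (by omega) (by omega))
    have sub : ({w1 % (2*k-1), w2 % (2*k-1), w3 % (2*k-1), w4 % (2*k-1)} : Finset ℤ) ⊆ ZR := by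
      intro x hx
      simp only [Finset.mem_insert, Finset.mem_singleton] at hx
      rw [hZR]
      rcases hx with h|h|h|h <;> subst h
      exacts [mem_Z H n1, mem_Z H n2, mem_Z H n3, mem_Z H n4]
    have hcard := Finset.card_le_card sub
    rw [Finset.card_insert_of_notMem, Finset.card_insert_of_notMem,
      Finset.card_insert_of_notMem, Finset.card_singleton] at hcard
    · exact hcard
    · simp only [Finset.mem_singleton]
      exact ne _ _ (by omega) (by omega)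
    · simp only [Finset.mem_insert, Finset.mem_singleton, not_or]
      exact ⟨ne _ _ (by omega) (by omega), ne _ _ (by omega) (by omega)⟩
    · simp only [Finset.mem_insert, Finset.mem_singleton, not_or]
      exact ⟨ne _ _ (by omega) (by omega), ne _ _ (by omega) (by omega), ne _ _ (by omega) (by omega)⟩
  have a0 := el 0 (by omega)
  have a1 := el 1 (by omega)
  have a2 := el 2 (by omega)
  have a3 := el 3 (by omega)
  have a4 := el 4 (by omega)
  have a5 := el 5 (by omega)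
  have l1 := srt PS 0 1 (by omega) (by omega)
  have l2 := srt PS 1 2 (by omega) (by omega)
  have l3 := srt PS 2 3 (by omega) (by omega)
  have l4 := srt PS 3 4 (by omega) (by omega)
  have l5 := srt PS 4 5 (by omega) (by omega)
  exact six_of_six H a0.2.2 a1.2.2 a2.2.2 a3.2.2 a4.2.2 a5.2.2 l1 l2 l3 l4 l5 (by omega)

end Pool.Agent.R792.Circ
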