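import Mathlib
import Pool.Agent.R792.Circ.Base

namespace Pool.Agent.R792.Circ

open Finset

/-- Union of a list of integer intervals. -/
noncomputable def ivs : List (ℤ × ℤ) → Finset ℤ
  | [] => ∅
  | p :: l => Finset.Icc p.1 p.2 ∪ ivs l

theorem mem_ivs_nil (x : ℤ) : x ∈ ivs [] ↔ False := by simp [ivs]

theorem mem_ivs_cons (x : ℤ) (a b : ℤ) (l : List (ℤ × ℤ)) :
    x ∈ ivs ((a, b) :: l) ↔ (a ≤ x ∧ x ≤ b) ∨ x ∈ ivs l := by
  simp [ivs]

theorem card_ivs_nil : (ivs []).card = 0 := rfl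

theorem card_ivs_cons (a b : ℤ) (l : List (ℤ × ℤ)) (h : ∀ x ∈ ivs l, b < x) :
    (ivs ((a, b) :: l)).card = (b+1-a).toNat + (ivs l).card := by
  show (Finset.Icc a b ∪ ivs l).card = _
  rw [Finset.card_union_of_disjoint, Int.card_Icc]
  rw [Finset.disjoint_left]
  intro x hx hx'
  have := h x hx'
  rw [Finset.mem_Icc] at hx
  omega

/-- `S` has `2k+1` elements and spans only the edge `{0, d}`. -/
def IsCrit (k d : ℤ) (S : Finset ℤ) : Prop :=
  (S.card : ℤ) = 2*k+1 ∧ (∀ a ∈ S, 0 ≤ a ∧ a < 10*k-5) ∧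
    ∀ a ∈ S, ∀ b ∈ S, a < b → Fp k (b-a) → a = 0 ∧ b = d

theorem critA {k d : ℤ} (hk : 8 ≤ k) (hd : d = 2*k-3) :
    IsCrit k d (ivs [(0, 0), (3, 2*k-6), (2*k-3, 2*k-3), (2*k-1, 2*k-1), (6*k-7, 6*k-6), (6*k-4, 6*k-4), (6*k-2, 6*k-1), (10*k-7, 10*k-7)]) := by
  refine ⟨?_, ?_, ?_⟩
  · rw [card_ivs_cons, card_ivs_cons, card_ivs_cons, card_ivs_cons, card_ivs_cons, card_ivs_cons, card_ivs_cons, card_ivs_cons, card_ivs_nil]
    · omega
    all_goals
      intro x hx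
      simp only [mem_ivs_cons, mem_ivs_nil, or_false] at hx <;> omega
  · intro a ha
    simp only [mem_ivs_cons, mem_ivs_nil, or_false] at ha
    omega
  · intro a ha b hb hab hF
    simp only [mem_ivs_cons, mem_ivs_nil, or_false] at ha hb
    rcases ha with ha|ha|ha|ha|ha|ha|ha|ha <;> rcases hb with hb|hb|hb|hb|hb|hb|hb|hb <;>
      first
      | (exfalso; omega)
      | (rcases hF with h|h|h|h|h|h|h|h|h|h <;> omega)

theorem critB {k d : ℤ} (hk : 8 ≤ k) (hd : d = 2*k-2) :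
    IsCrit k d (ivs [(0, 0), (4, 2*k-5), (2*k-2, 2*k), (6*k-6, 6*k-5), (6*k-1, 6*k), (10*k-6, 10*k-6)]) := by
  refine ⟨?_, ?_, ?_⟩
  · rw [card_ivs_cons, card_ivs_cons, card_ivs_cons, card_ivs_cons, card_ivs_cons, card_ivs_cons, card_ivs_nil]
    · omega
    all_goals
      intro x hx
      simp only [mem_ivs_cons, mem_ivs_nil, or_false] at hx <;> omega
  · intro a ha
    simp only [mem_ivs_cons, mem_ivs_nil, or_false] at ha
    omega
  · intro a ha b hb hab hF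
    simp only [mem_ivs_cons, mem_ivs_nil, or_false] at ha hb
    rcases ha with ha|ha|ha|ha|ha|ha <;> rcases hb with hb|hb|hb|hb|hb|hb <;>
      first
      | (exfalso; omega)
      | (rcases hF with h|h|h|h|h|h|h|h|h|h <;> omega)

theorem critC {k d : ℤ} (hk : 8 ≤ k) (hd : d = 3*k-1) :
    IsCrit k d (ivs [(0, 0), (2*k-1, 2*k), (3*k-2, 4*k-5), (4*k-1, 4*k), (8*k-6, 8*k-5), (8*k-1, 9*k-6)]) := by
  refine ⟨?_, ?_, ?_⟩
  · rw [card_ivs_cons, card_ivs_cons, card_ivs_cons, card_ivs_cons, card_ivs_cons, card_ivs_cons, card_ivs_nil]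
    · omega
    all_goals
      intro x hx
      simp only [mem_ivs_cons, mem_ivs_nil, or_false] at hx <;> omega
  · intro a ha
    simp only [mem_ivs_cons, mem_ivs_nil, or_false] at ha
    omega
  · intro a ha b hb hab hF
    simp only [mem_ivs_cons, mem_ivs_nil, or_false] at ha hb
    rcases ha with ha|ha|ha|ha|ha|ha <;> rcases hb with hb|hb|hb|hb|hb|hb <;>
      first
      | (exfalso; omega)
      | (rcases hF with h|h|h|h|h|h|h|h|h|h <;> omega)

theorem critD {k d : ℤ} (hk : 8 ≤ k) (hd : d = 4*k-2) :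
    IsCrit k d (ivs [(0, 0), (2, k-2), (4*k-2, 4*k-1), (5*k-3, 6*k-6), (6*k-2, 6*k-2), (10*k-7, 10*k-6)]) := by
  refine ⟨?_, ?_, ?_⟩
  · rw [card_ivs_cons, card_ivs_cons, card_ivs_cons, card_ivs_cons, card_ivs_cons, card_ivs_cons, card_ivs_nil]
    · omega
    all_goals
      intro x hx
      simp only [mem_ivs_cons, mem_ivs_nil, or_false] at hx <;> omega
  · intro a ha
    simp only [mem_ivs_cons, mem_ivs_nil, or_false] at ha
    omega
  · intro a ha b hb hab hF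
    simp only [mem_ivs_cons, mem_ivs_nil, or_false] at ha hb
    rcases ha with ha|ha|ha|ha|ha|ha <;> rcases hb with hb|hb|hb|hb|hb|hb <;>
      first
      | (exfalso; omega)
      | (rcases hF with h|h|h|h|h|h|h|h|h|h <;> omega)

theorem critE3 {k d : ℤ} (hk : 8 ≤ k) (hd : d = 2*k+2) :
    IsCrit k d (ivs [(0, 0), (3, 3), (6, 2*k-4), (2*k-1, 2*k-1), (2*k+2, 2*k+2), (6*k-5, 6*k-4), (6*k-2, 6*k-1), (6*k+1, 6*k+2)]) := by
  refine ⟨?_, ?_, ?_⟩
  · rw [card_ivs_cons, card_ivs_cons, card_ivs_cons, card_ivs_cons, card_ivs_cons, card_ivs_cons, card_ivs_cons, card_ivs_cons, card_ivs_nil]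
    · omega
    all_goals
      intro x hx
      simp only [mem_ivs_cons, mem_ivs_nil, or_false] at hx <;> omega
  · intro a ha
    simp only [mem_ivs_cons, mem_ivs_nil, or_false] at ha
    omega
  · intro a ha b hb hab hF
    simp only [mem_ivs_cons, mem_ivs_nil, or_false] at ha hb
    rcases ha with ha|ha|ha|ha|ha|ha|ha|ha <;> rcases hb with hb|hb|hb|hb|hb|hb|hb|hb <;>
      first
      | (exfalso; omega)
      | (rcases hF with h|h|h|h|h|h|h|h|h|h <;> omega)

theorem critE4 {k d : ℤ} (hk : 8 ≤ k) (hd : d = 2*k+3) :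
    IsCrit k d (ivs [(0, 0), (4, 4), (7, 2*k-4), (2*k-1, 2*k), (2*k+3, 2*k+3), (6*k-5, 6*k-4), (6*k-1, 6*k), (6*k+2, 6*k+3)]) := by
  refine ⟨?_, ?_, ?_⟩
  · rw [card_ivs_cons, card_ivs_cons, card_ivs_cons, card_ivs_cons, card_ivs_cons, card_ivs_cons, card_ivs_cons, card_ivs_cons, card_ivs_nil]
    · omega
    all_goals
      intro x hx
      simp only [mem_ivs_cons, mem_ivs_nil, or_false] at hx <;> omega
  · intro a ha
    simp only [mem_ivs_cons, mem_ivs_nil, or_false] at ha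
    omega
  · intro a ha b hb hab hF
    simp only [mem_ivs_cons, mem_ivs_nil, or_false] at ha hb
    rcases ha with ha|ha|ha|ha|ha|ha|ha|ha <;> rcases hb with hb|hb|hb|hb|hb|hb|hb|hb <;>
      first
      | (exfalso; omega)
      | (rcases hF with h|h|h|h|h|h|h|h|h|h <;> omega)

theorem critE {k d e : ℤ} (hk : 8 ≤ k) (he : 5 ≤ e) (he' : e ≤ k-4) (hd : d = 2*k-1+e) :
    IsCrit k d (ivs [(0, 0), (e, e), (e+3, 2*k-4), (2*k-1, 2*k+1), (2*k-1+e, 2*k-1+e), (6*k-5, 6*k-4), (6*k, 6*k+e-4), (6*k+e-2, 6*k+e-1)]) := by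
  refine ⟨?_, ?_, ?_⟩
  · rw [card_ivs_cons, card_ivs_cons, card_ivs_cons, card_ivs_cons, card_ivs_cons, card_ivs_cons, card_ivs_cons, card_ivs_cons, card_ivs_nil]
    · omega
    all_goals
      intro x hx
      simp only [mem_ivs_cons, mem_ivs_nil, or_false] at hx <;> omega
  · intro a ha
    simp only [mem_ivs_cons, mem_ivs_nil, or_false] at ha
    omega
  · intro a ha b hb hab hF
    simp only [mem_ivs_cons, mem_ivs_nil, or_false] at ha hb
    rcases ha with ha|ha|ha|ha|ha|ha|ha|ha <;> rcases hb with hb|hb|hb|hb|hb|hb|hb|hb <;>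
      first
      | (exfalso; omega)
      | (rcases hF with h|h|h|h|h|h|h|h|h|h <;> omega)

theorem critG1 {k d : ℤ} (hk : 8 ≤ k) (hd : d = 3*k-4) :
    IsCrit k d (ivs [(0, 0), (3*k-4, 3*k-4), (3*k, 4*k-3), (4*k-1, 5*k-8), (5*k-5, 5*k-4), (8*k-4, 8*k-4), (9*k-9, 9*k-8), (9*k-5, 9*k-4)]) := by
  refine ⟨?_, ?_, ?_⟩
  · rw [card_ivs_cons, card_ivs_cons, card_ivs_cons, card_ivs_cons, card_ivs_cons, card_ivs_cons, card_ivs_cons, card_ivs_cons, card_ivs_nil]
    · omega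
    all_goals
      intro x hx
      simp only [mem_ivs_cons, mem_ivs_nil, or_false] at hx <;> omega
  · intro a ha
    simp only [mem_ivs_cons, mem_ivs_nil, or_false] at ha
    omega
  · intro a ha b hb hab hF
    simp only [mem_ivs_cons, mem_ivs_nil, or_false] at ha hb
    rcases ha with ha|ha|ha|ha|ha|ha|ha|ha <;> rcases hb with hb|hb|hb|hb|hb|hb|hb|hb <;>
      first
      | (exfalso; omega)
      | (rcases hF with h|h|h|h|h|h|h|h|h|h <;> omega)

theorem critG2 {k d : ℤ} (hk : 8 ≤ k) (hd : d = 3*k-3) :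
    IsCrit k d (ivs [(0, 0), (3*k-3, 3*k-3), (3*k, 4*k-3), (4*k-1, 5*k-7), (5*k-4, 5*k-4), (8*k-4, 8*k-4), (9*k-8, 9*k-7), (9*k-5, 9*k-4)]) := by
  refine ⟨?_, ?_, ?_⟩
  · rw [card_ivs_cons, card_ivs_cons, card_ivs_cons, card_ivs_cons, card_ivs_cons, card_ivs_cons, card_ivs_cons, card_ivs_cons, card_ivs_nil]
    · omega
    all_goals
      intro x hx
      simp only [mem_ivs_cons, mem_ivs_nil, or_false] at hx <;> omega
  · intro a ha
    simp only [mem_ivs_cons, mem_ivs_nil, or_false] at ha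
    omega
  · intro a ha b hb hab hF
    simp only [mem_ivs_cons, mem_ivs_nil, or_false] at ha hb
    rcases ha with ha|ha|ha|ha|ha|ha|ha|ha <;> rcases hb with hb|hb|hb|hb|hb|hb|hb|hb <;>
      first
      | (exfalso; omega)
      | (rcases hF with h|h|h|h|h|h|h|h|h|h <;> omega)

end Pool.Agent.R792.Circ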