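import Pool.Agent.R792.Circ.Two

namespace Pool.Agent.R792.Circ

/-- Adjacent differences for `k = 8` (`n = 75`), as a bit mask. -/
def F8 (z : ℕ) : Bool := Nat.testBit 7192283790368858112 (z % 75)

/-- Pair-start differences for `k = 8`. -/
def Z8 (z : ℕ) : Bool := Nat.testBit 434376432579512573568 z

/-- The fibre of `r` is blocked by the pairs at `0, a, b, c`. -/
def bl (a b c r : ℕ) : Bool :=
  (List.range 5).all fun j => ([0,15,a,a+15,b,b+15,c,c+15] : List ℕ).any fun x =>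
    F8 (r + 15*j + 150 - x)

def blk (a b c : ℕ) : Bool :=
  (List.range 15).any fun r1 => bl a b c r1 && (List.range 15).any fun r2 =>
    (Nat.blt r1 r2 && bl a b c r2) && (List.range 15).any fun r3 =>
    (Nat.blt r2 r3 && bl a b c r3) && (List.range 15).any fun r4 =>
    (Nat.blt r3 r4 && bl a b c r4)

def chk : Bool :=
  (List.range 75).all fun a => !(Z8 a) || (List.range 75).all fun b =>
    !(Nat.blt a b && (Z8 b && Z8 (b-a))) || (List.range 75).all fun c =>
    !(Nat.blt b c && (Z8 c && (Z8 (c-a) && Z8 (c-b)))) || blk a b c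

theorem chk_true : chk = true := by decide +kernel

theorem Fp_of_F8 : ∀ z : ℕ, z < 75 → F8 z = true → Fp 8 (z:ℤ) := by
  unfold Fp
  decide +kernel

theorem Z8_of_Zf : ∀ z : ℕ, z < 75 → Zf 8 (z:ℤ) → Z8 z = true := by
  unfold Zf
  decide +kernel

theorem Hyp.per_mul {k : ℤ} {A : ℤ → Prop} (H : Hyp k A) (z j : ℤ) :
    A (z + j*(10*k-5)) ↔ A z := by
  induction j using Int.induction_on with
  | zero => simp
  | succ i ih =>
    rw [show z + ((i:ℤ)+1)*(10*k-5) = z + (i:ℤ)*(10*k-5) + (10*k-5) by ring, H.per, ih]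
  | pred i ih =>
    rw [← ih, ← H.per]
    rw [show z + (-(i:ℤ)-1)*(10*k-5) + (10*k-5) = z + (-(i:ℤ))*(10*k-5) by ring]

theorem bl_blocked {A : ℤ → Prop} (H : Hyp 8 A) {a b c r : ℕ} (ha : a < 75) (hb : b < 75)
    (hc : c < 75) (h0 : Pr 8 A 0) (hA : Pr 8 A a) (hB : Pr 8 A b) (hC : Pr 8 A c)
    (h : bl a b c r = true) : ¬ N 8 A (r:ℤ) := by
  intro hN
  have hj : ∃ j : ℕ, j < 5 ∧ A ((r:ℤ) + 15*j) := by
    unfold N at hN
    rcases hN with h|h|h|h|h
    · exact ⟨0, by norm_num, tr h (by push_cast; ring)⟩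
    · exact ⟨1, by norm_num, tr h (by push_cast; ring)⟩
    · exact ⟨2, by norm_num, tr h (by push_cast; ring)⟩
    · exact ⟨3, by norm_num, tr h (by push_cast; ring)⟩
    · exact ⟨4, by norm_num, tr h (by push_cast; ring)⟩
  obtain ⟨j, hj5, hAj⟩ := hj
  unfold bl at h
  rw [List.all_eq_true] at h
  have h2 := h j (List.mem_range.2 hj5)
  rw [List.any_eq_true] at h2
  obtain ⟨x, hx, hF⟩ := h2
  have hAx : A (x:ℤ) ∧ x ≤ 90 := by
    simp only [List.mem_cons, List.not_mem_nil, or_false] at hx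
    rcases hx with hx|hx|hx|hx|hx|hx|hx|hx <;> subst hx
    · exact ⟨tr h0.1 (by norm_num), by norm_num⟩
    · exact ⟨tr h0.2 (by norm_num), by norm_num⟩
    · exact ⟨hA.1, by omega⟩
    · exact ⟨tr hA.2 (by push_cast; ring), by omega⟩
    · exact ⟨hB.1, by omega⟩
    · exact ⟨tr hB.2 (by push_cast; ring), by omega⟩
    · exact ⟨hC.1, by omega⟩
    · exact ⟨tr hC.2 (by push_cast; ring), by omega⟩
  obtain ⟨hx1, hx2⟩ := hAx
  obtain ⟨z, hz⟩ : ∃ z, z = r + 15*j + 150 - x := ⟨_, rfl⟩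
  rw [← hz] at hF
  have hd : F8 (z % 75) = true := by
    unfold F8 at hF ⊢
    rw [Nat.mod_mod]
    exact hF
  have hFp := Fp_of_F8 (z % 75) (Nat.mod_lt _ (by norm_num)) hd
  have hq : z = z % 75 + 75 * (z/75) := (Nat.mod_add_div z 75).symm
  have hA2 : A ((x:ℤ) + ((z % 75 : ℕ):ℤ)) := by
    have := (H.per_mul ((r:ℤ) + 15*j) (2 - ((z/75 : ℕ):ℤ))).2 hAj
    refine tr this ?_
    have e1 : (z:ℤ) = (r:ℤ) + 15*j + 150 - x := by omega
    have e2 : (z:ℤ) = ((z % 75 : ℕ):ℤ) + 75 * ((z/75 : ℕ):ℤ) := by exact_mod_cast hq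
    linarith
  exact H.ind _ _ hx1 hA2 (by rwa [add_sub_cancel_left])

theorem four_eight {A : ℤ → Prop} (H : Hyp 8 A) {a b c : ℤ} (h0 : Pr 8 A 0) (hA : Pr 8 A a)
    (hB : Pr 8 A b) (hC : Pr 8 A c) (h1 : 0 < a) (h2 : a < b) (h3 : b < c) (h4 : c < 75) :
    Four 8 A := by
  lift a to ℕ using by omega
  lift b to ℕ using by omega
  lift c to ℕ using by omega
  have za := Z8_of_Zf a (by omega) (by
    have := Zf_of H h0 hA (by omega) (by omega)
    rwa [sub_zero] at this)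
  have zb := Z8_of_Zf b (by omega) (by
    have := Zf_of H h0 hB (by omega) (by omega)
    rwa [sub_zero] at this)
  have zc := Z8_of_Zf c (by omega) (by
    have := Zf_of H h0 hC (by omega) (by omega)
    rwa [sub_zero] at this)
  have zab := Z8_of_Zf (b-a) (by omega) (by
    have := Zf_of H hA hB (by omega) (by omega)
    rwa [show (b:ℤ)-a = ((b-a : ℕ):ℤ) by omega] at this)
  have zac := Z8_of_Zf (c-a) (by omega) (by
    have := Zf_of H hA hC (by omega) (by omega)
    rwa [show (c:ℤ)-a = ((c-a : ℕ):ℤ) by omega] at this)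
  have zbc := Z8_of_Zf (c-b) (by omega) (by
    have := Zf_of H hB hC (by omega) (by omega)
    rwa [show (c:ℤ)-b = ((c-b : ℕ):ℤ) by omega] at this)
  have hc := chk_true
  unfold chk at hc
  rw [List.all_eq_true] at hc
  have hc1 := hc a (List.mem_range.2 (by omega))
  rw [za] at hc1
  simp only [Bool.not_true, Bool.false_or] at hc1
  rw [List.all_eq_true] at hc1
  have hc2 := hc1 b (List.mem_range.2 (by omega))
  have hlt1 : Nat.blt a b = true := by
    rw [Nat.blt_eq]; omega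
  rw [hlt1, zb, zab] at hc2
  simp only [Bool.and_self, Bool.not_true, Bool.false_or] at hc2
  rw [List.all_eq_true] at hc2
  have hc3 := hc2 c (List.mem_range.2 (by omega))
  have hlt2 : Nat.blt b c = true := by
    rw [Nat.blt_eq]; omega
  rw [hlt2, zc, zac, zbc] at hc3
  simp only [Bool.and_self, Bool.not_true, Bool.false_or] at hc3
  unfold blk at hc3
  simp only [List.any_eq_true, Bool.and_eq_true, List.mem_range] at hc3
  obtain ⟨r1, hr1, b1, r2, hr2, ⟨l2, b2⟩, r3, hr3, ⟨l3, b3⟩, r4, hr4, l4, b4⟩ := hc3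
  rw [Nat.blt_eq] at l2 l3 l4
  have bb : ∀ r : ℕ, bl a b c r = true → ¬ N 8 A (r:ℤ) := fun r h =>
    bl_blocked H (by omega) (by omega) (by omega) h0 hA hB hC h
  exact ⟨0, r1, r2, r3, r4, by omega, by omega, by omega, by omega, by omega,
    bb _ b1, bb _ b2, bb _ b3, bb _ b4⟩

theorem Four.shift {k x : ℤ} {A : ℤ → Prop} (h : Four k (fun z => A (x+z))) : Four k A := by
  obtain ⟨c, z1, z2, z3, z4, a1, a2, a3, a4, a5, h1, h2, h3, h4⟩ := h
  exact ⟨x+c, x+z1, x+z2, x+z3, x+z4, by omega, by omega, by omega, by omega, by omega,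
    fun h => h1 ((N_shift _ _).2 h), fun h => h2 ((N_shift _ _).2 h),
    fun h => h3 ((N_shift _ _).2 h), fun h => h4 ((N_shift _ _).2 h)⟩

/-- Four pairs force four empty fibres. -/
theorem four_of_four {k x1 x2 x3 x4 : ℤ} {A : ℤ → Prop} (H : Hyp k A) (p1 : Pr k A x1)
    (p2 : Pr k A x2) (p3 : Pr k A x3) (p4 : Pr k A x4) (h1 : x1 < x2) (h2 : x2 < x3)
    (h3 : x3 < x4) (h4 : x4 < x1 + (10*k-5)) : Four k A := by
  have hk := H.hk
  rcases (by omega : k = 8 ∨ 9 ≤ k) with hk8|hk9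
  · subst hk8
    have h0 : Pr 8 (fun z => A (x1+z)) 0 := by
      have := p1.sh (x := x1)
      rwa [sub_self] at this
    exact (four_eight (H.shift x1) h0 (p2.sh (x := x1)) (p3.sh (x := x1)) (p4.sh (x := x1))
      (by omega) (by omega) (by omega) (by omega)).shift
  have q1 : Pr k A (x1 + (10*k-5)) := (Pr_per H _).2 p1
  have q2 : Pr k A (x2 + (10*k-5)) := (Pr_per H _).2 p2
  have q3 : Pr k A (x3 + (10*k-5)) := (Pr_per H _).2 p3
  have z12 := Zf_of H p1 p2 h1 (by omega)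
  have z23 := Zf_of H p2 p3 h2 (by omega)
  have z34 := Zf_of H p3 p4 h3 (by omega)
  have z41 := Zf_of H p4 q1 h4 (by omega)
  have z13 := Zf_of H p1 p3 (by omega) (by omega)
  have z24 := Zf_of H p2 p4 (by omega) (by omega)
  have z31 := Zf_of H p3 q1 (by omega) (by omega)
  have z42 := Zf_of H p4 q2 (by omega) (by omega)
  have G := gap4 hk z12 z23 z34 z41
    (by rwa [show x2 - x1 + (x3 - x2) = x3 - x1 by ring])
    (by rwa [show x3 - x2 + (x4 - x3) = x4 - x2 by ring])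
    (by rwa [show x4 - x3 + (x1 + (10*k-5) - x4) = x1 + (10*k-5) - x3 by ring])
    (by rwa [show x1 + (10*k-5) - x4 + (x2 - x1) = x2 + (10*k-5) - x4 by ring])
    (by ring)
  have cv : ∀ {y y' : ℤ}, Pr k A y → y = y' → Pr k A y' := fun h e => e ▸ h
  rcases G with G|G|G|G|G|G|G|G
  · exact four_of_big H hk9 p1 (cv p2 (by ring)) (cv p3 (by ring)) G
  · exact four_of_big H hk9 p2 (cv p3 (by ring)) (cv p4 (by ring)) G
  · exact four_of_big H hk9 p3 (cv p4 (by ring)) (cv q1 (by ring)) G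
  · exact four_of_big H hk9 p4 (cv q1 (by ring)) (cv q2 (by ring)) G
  · exact four_of_big H hk9 p1 (cv p3 (by ring)) (cv p4 (by ring)) G
  · exact four_of_big H hk9 p2 (cv p4 (by ring)) (cv q1 (by ring)) G
  · exact four_of_big H hk9 p3 (cv q1 (by ring)) (cv q2 (by ring)) G
  · exact four_of_big H hk9 p4 (cv q2 (by ring)) (cv q3 (by ring)) G

/-- Six pairs are impossible. -/
theorem six_of_six {k x1 x2 x3 x4 x5 x6 : ℤ} {A : ℤ → Prop} (H : Hyp k A) (p1 : Pr k A x1)
    (p2 : Pr k A x2) (p3 : Pr k A x3) (p4 : Pr k A x4) (p5 : Pr k A x5) (p6 : Pr k A x6)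
    (h1 : x1 < x2) (h2 : x2 < x3)
    (h3 : x3 < x4) (h4 : x4 < x5) (h5 : x5 < x6) (h6 : x6 < x1 + (10*k-5)) : False := by
  have hk := H.hk
  have q1 : Pr k A (x1 + (10*k-5)) := (Pr_per H _).2 p1
  have q2 : Pr k A (x2 + (10*k-5)) := (Pr_per H _).2 p2
  have q3 : Pr k A (x3 + (10*k-5)) := (Pr_per H _).2 p3
  have cv : ∀ {y y' : ℤ}, Zf k y → y = y' → Zf k y' := fun h e => e ▸ h
  refine six_false (g1 := x2-x1) (g2 := x3-x2) (g3 := x4-x3) (g4 := x5-x4) (g5 := x6-x5)
    (g6 := x1 + (10*k-5) - x6) hk ?_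
  exact
  { sum := by ring
    s1 := Zf_of H p1 p2 h1 (by omega)
    s2 := Zf_of H p2 p3 h2 (by omega)
    s3 := Zf_of H p3 p4 h3 (by omega)
    s4 := Zf_of H p4 p5 h4 (by omega)
    s5 := Zf_of H p5 p6 h5 (by omega)
    s6 := Zf_of H p6 q1 h6 (by omega)
    p1 := cv (Zf_of H p1 p3 (by omega) (by omega)) (by ring)
    p2 := cv (Zf_of H p2 p4 (by omega) (by omega)) (by ring)
    p3 := cv (Zf_of H p3 p5 (by omega) (by omega)) (by ring)
    p4 := cv (Zf_of H p4 p6 (by omega) (by omega)) (by ring)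
    p5 := cv (Zf_of H p5 q1 (by omega) (by omega)) (by ring)
    p6 := cv (Zf_of H p6 q2 (by omega) (by omega)) (by ring)
    t1 := cv (Zf_of H p1 p4 (by omega) (by omega)) (by ring)
    t2 := cv (Zf_of H p2 p5 (by omega) (by omega)) (by ring)
    t3 := cv (Zf_of H p3 p6 (by omega) (by omega)) (by ring)
    t4 := cv (Zf_of H p4 q1 (by omega) (by omega)) (by ring)
    t5 := cv (Zf_of H p5 q2 (by omega) (by omega)) (by ring)
    t6 := cv (Zf_of H p6 q3 (by omega) (by omega)) (by ring) }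

end Pool.Agent.R792.Circ
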