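import Pool.Agent.R792.Circ.Zf

namespace Pool.Agent.R792.Circ

theorem tr {A : ℤ → Prop} {a b : ℤ} (h : A a) (e : a = b) : A b := e ▸ h

/-- Four pairwise different fibres miss `A`. -/
def Four (k : ℤ) (A : ℤ → Prop) : Prop :=
  ∃ c z1 z2 z3 z4 : ℤ, c ≤ z1 ∧ z1 < z2 ∧ z2 < z3 ∧ z3 < z4 ∧ z4 < c + (2*k-1) ∧
    ¬ N k A z1 ∧ ¬ N k A z2 ∧ ¬ N k A z3 ∧ ¬ N k A z4

def BigP (k a b : ℤ) : Prop :=
  (a = k-1 ∧ b = k+1) ∨
  (a = k+1 ∧ b = k-1) ∨
  (a = k-1 ∧ b = k+2) ∨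
  (a = k+2 ∧ b = k-1) ∨
  (a = k-1 ∧ b = 3*k) ∨
  (a = 3*k ∧ b = k-1) ∨
  (a = k-1 ∧ b = 3*k+1) ∨
  (a = 3*k+1 ∧ b = k-1) ∨
  (a = k+1 ∧ b = 3*k-2) ∨
  (a = 3*k-2 ∧ b = k+1) ∨
  (a = k+2 ∧ b = 3*k-2) ∨
  (a = 3*k-2 ∧ b = k+2) ∨
  (a = 2*k+1 ∧ b = 4*k-6) ∨
  (a = 4*k-6 ∧ b = 2*k+1) ∨
  (a = 2*k+1 ∧ b = 4*k-5) ∨
  (a = 4*k-5 ∧ b = 2*k+1) ∨
  (a = 2*k+1 ∧ b = 4*k-1) ∨
  (a = 4*k-1 ∧ b = 2*k+1) ∨
  (a = 2*k+1 ∧ b = 4*k) ∨
  (a = 4*k ∧ b = 2*k+1) ∨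
  (a = 2*k ∧ b = 4*k-5) ∨
  (a = 4*k-5 ∧ b = 2*k) ∨
  (a = 2*k ∧ b = 4*k) ∨
  (a = 4*k ∧ b = 2*k) ∨
  (a = 2*k-4 ∧ b = 4*k-1) ∨
  (a = 4*k-1 ∧ b = 2*k-4) ∨
  (a = 2*k-4 ∧ b = 4*k) ∨
  (a = 4*k ∧ b = 2*k-4) ∨
  (a = 2*k-5 ∧ b = 4*k) ∨
  (a = 4*k ∧ b = 2*k-5)

theorem bi0 {k a b : ℤ} (h : a = k-1 ∧ b = k+1) : BigP k a b := Or.inl h
theorem bi1 {k a b : ℤ} (h : a = k+1 ∧ b = k-1) : BigP k a b := Or.inr (Or.inl h)
theorem bi2 {k a b : ℤ} (h : a = k-1 ∧ b = k+2) : BigP k a b := Or.inr (Or.inr (Or.inl h))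
theorem bi3 {k a b : ℤ} (h : a = k+2 ∧ b = k-1) : BigP k a b := Or.inr (Or.inr (Or.inr (Or.inl h)))
theorem bi4 {k a b : ℤ} (h : a = k-1 ∧ b = 3*k) : BigP k a b := Or.inr (Or.inr (Or.inr (Or.inr (Or.inl h))))
theorem bi5 {k a b : ℤ} (h : a = 3*k ∧ b = k-1) : BigP k a b := Or.inr (Or.inr (Or.inr (Or.inr (Or.inr (Or.inl h)))))
theorem bi6 {k a b : ℤ} (h : a = k-1 ∧ b = 3*k+1) : BigP k a b := Or.inr (Or.inr (Or.inr (Or.inr (Or.inr (Or.inr (Or.inl h))))))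
theorem bi7 {k a b : ℤ} (h : a = 3*k+1 ∧ b = k-1) : BigP k a b := Or.inr (Or.inr (Or.inr (Or.inr (Or.inr (Or.inr (Or.inr (Or.inl h)))))))
theorem bi8 {k a b : ℤ} (h : a = k+1 ∧ b = 3*k-2) : BigP k a b := Or.inr (Or.inr (Or.inr (Or.inr (Or.inr (Or.inr (Or.inr (Or.inr (Or.inl h))))))))
theorem bi9 {k a b : ℤ} (h : a = 3*k-2 ∧ b = k+1) : BigP k a b := Or.inr (Or.inr (Or.inr (Or.inr (Or.inr (Or.inr (Or.inr (Or.inr (Or.inr (Or.inl h)))))))))
theorem bi10 {k a b : ℤ} (h : a = k+2 ∧ b = 3*k-2) : BigP k a b := Or.inr (Or.inr (Or.inr (Or.inr (Or.inr (Or.inr (Or.inr (Or.inr (Or.inr (Or.inr (Or.inl h))))))))))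
theorem bi11 {k a b : ℤ} (h : a = 3*k-2 ∧ b = k+2) : BigP k a b := Or.inr (Or.inr (Or.inr (Or.inr (Or.inr (Or.inr (Or.inr (Or.inr (Or.inr (Or.inr (Or.inr (Or.inl h)))))))))))
theorem bi12 {k a b : ℤ} (h : a = 2*k+1 ∧ b = 4*k-6) : BigP k a b := Or.inr (Or.inr (Or.inr (Or.inr (Or.inr (Or.inr (Or.inr (Or.inr (Or.inr (Or.inr (Or.inr (Or.inr (Or.inl h))))))))))))
theorem bi13 {k a b : ℤ} (h : a = 4*k-6 ∧ b = 2*k+1) : BigP k a b := Or.inr (Or.inr (Or.inr (Or.inr (Or.inr (Or.inr (Or.inr (Or.inr (Or.inr (Or.inr (Or.inr (Or.inr (Or.inr (Or.inl h)))))))))))))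
theorem bi14 {k a b : ℤ} (h : a = 2*k+1 ∧ b = 4*k-5) : BigP k a b := Or.inr (Or.inr (Or.inr (Or.inr (Or.inr (Or.inr (Or.inr (Or.inr (Or.inr (Or.inr (Or.inr (Or.inr (Or.inr (Or.inr (Or.inl h))))))))))))))
theorem bi15 {k a b : ℤ} (h : a = 4*k-5 ∧ b = 2*k+1) : BigP k a b := Or.inr (Or.inr (Or.inr (Or.inr (Or.inr (Or.inr (Or.inr (Or.inr (Or.inr (Or.inr (Or.inr (Or.inr (Or.inr (Or.inr (Or.inr (Or.inl h)))))))))))))))
theorem bi16 {k a b : ℤ} (h : a = 2*k+1 ∧ b = 4*k-1) : BigP k a b := Or.inr (Or.inr (Or.inr (Or.inr (Or.inr (Or.inr (Or.inr (Or.inr (Or.inr (Or.inr (Or.inr (Or.inr (Or.inr (Or.inr (Or.inr (Or.inr (Or.inl h))))))))))))))))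
theorem bi17 {k a b : ℤ} (h : a = 4*k-1 ∧ b = 2*k+1) : BigP k a b := Or.inr (Or.inr (Or.inr (Or.inr (Or.inr (Or.inr (Or.inr (Or.inr (Or.inr (Or.inr (Or.inr (Or.inr (Or.inr (Or.inr (Or.inr (Or.inr (Or.inr (Or.inl h)))))))))))))))))
theorem bi18 {k a b : ℤ} (h : a = 2*k+1 ∧ b = 4*k) : BigP k a b := Or.inr (Or.inr (Or.inr (Or.inr (Or.inr (Or.inr (Or.inr (Or.inr (Or.inr (Or.inr (Or.inr (Or.inr (Or.inr (Or.inr (Or.inr (Or.inr (Or.inr (Or.inr (Or.inl h))))))))))))))))))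
theorem bi19 {k a b : ℤ} (h : a = 4*k ∧ b = 2*k+1) : BigP k a b := Or.inr (Or.inr (Or.inr (Or.inr (Or.inr (Or.inr (Or.inr (Or.inr (Or.inr (Or.inr (Or.inr (Or.inr (Or.inr (Or.inr (Or.inr (Or.inr (Or.inr (Or.inr (Or.inr (Or.inl h)))))))))))))))))))
theorem bi20 {k a b : ℤ} (h : a = 2*k ∧ b = 4*k-5) : BigP k a b := Or.inr (Or.inr (Or.inr (Or.inr (Or.inr (Or.inr (Or.inr (Or.inr (Or.inr (Or.inr (Or.inr (Or.inr (Or.inr (Or.inr (Or.inr (Or.inr (Or.inr (Or.inr (Or.inr (Or.inr (Or.inl h))))))))))))))))))))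
theorem bi21 {k a b : ℤ} (h : a = 4*k-5 ∧ b = 2*k) : BigP k a b := Or.inr (Or.inr (Or.inr (Or.inr (Or.inr (Or.inr (Or.inr (Or.inr (Or.inr (Or.inr (Or.inr (Or.inr (Or.inr (Or.inr (Or.inr (Or.inr (Or.inr (Or.inr (Or.inr (Or.inr (Or.inr (Or.inl h)))))))))))))))))))))
theorem bi22 {k a b : ℤ} (h : a = 2*k ∧ b = 4*k) : BigP k a b := Or.inr (Or.inr (Or.inr (Or.inr (Or.inr (Or.inr (Or.inr (Or.inr (Or.inr (Or.inr (Or.inr (Or.inr (Or.inr (Or.inr (Or.inr (Or.inr (Or.inr (Or.inr (Or.inr (Or.inr (Or.inr (Or.inr (Or.inl h))))))))))))))))))))))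
theorem bi23 {k a b : ℤ} (h : a = 4*k ∧ b = 2*k) : BigP k a b := Or.inr (Or.inr (Or.inr (Or.inr (Or.inr (Or.inr (Or.inr (Or.inr (Or.inr (Or.inr (Or.inr (Or.inr (Or.inr (Or.inr (Or.inr (Or.inr (Or.inr (Or.inr (Or.inr (Or.inr (Or.inr (Or.inr (Or.inr (Or.inl h)))))))))))))))))))))))
theorem bi24 {k a b : ℤ} (h : a = 2*k-4 ∧ b = 4*k-1) : BigP k a b := Or.inr (Or.inr (Or.inr (Or.inr (Or.inr (Or.inr (Or.inr (Or.inr (Or.inr (Or.inr (Or.inr (Or.inr (Or.inr (Or.inr (Or.inr (Or.inr (Or.inr (Or.inr (Or.inr (Or.inr (Or.inr (Or.inr (Or.inr (Or.inr (Or.inl h))))))))))))))))))))))))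
theorem bi25 {k a b : ℤ} (h : a = 4*k-1 ∧ b = 2*k-4) : BigP k a b := Or.inr (Or.inr (Or.inr (Or.inr (Or.inr (Or.inr (Or.inr (Or.inr (Or.inr (Or.inr (Or.inr (Or.inr (Or.inr (Or.inr (Or.inr (Or.inr (Or.inr (Or.inr (Or.inr (Or.inr (Or.inr (Or.inr (Or.inr (Or.inr (Or.inr (Or.inl h)))))))))))))))))))))))))
theorem bi26 {k a b : ℤ} (h : a = 2*k-4 ∧ b = 4*k) : BigP k a b := Or.inr (Or.inr (Or.inr (Or.inr (Or.inr (Or.inr (Or.inr (Or.inr (Or.inr (Or.inr (Or.inr (Or.inr (Or.inr (Or.inr (Or.inr (Or.inr (Or.inr (Or.inr (Or.inr (Or.inr (Or.inr (Or.inr (Or.inr (Or.inr (Or.inr (Or.inr (Or.inl h))))))))))))))))))))))))))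
theorem bi27 {k a b : ℤ} (h : a = 4*k ∧ b = 2*k-4) : BigP k a b := Or.inr (Or.inr (Or.inr (Or.inr (Or.inr (Or.inr (Or.inr (Or.inr (Or.inr (Or.inr (Or.inr (Or.inr (Or.inr (Or.inr (Or.inr (Or.inr (Or.inr (Or.inr (Or.inr (Or.inr (Or.inr (Or.inr (Or.inr (Or.inr (Or.inr (Or.inr (Or.inr (Or.inl h)))))))))))))))))))))))))))
theorem bi28 {k a b : ℤ} (h : a = 2*k-5 ∧ b = 4*k) : BigP k a b := Or.inr (Or.inr (Or.inr (Or.inr (Or.inr (Or.inr (Or.inr (Or.inr (Or.inr (Or.inr (Or.inr (Or.inr (Or.inr (Or.inr (Or.inr (Or.inr (Or.inr (Or.inr (Or.inr (Or.inr (Or.inr (Or.inr (Or.inr (Or.inr (Or.inr (Or.inr (Or.inr (Or.inr (Or.inl h))))))))))))))))))))))))))))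
theorem bi29 {k a b : ℤ} (h : a = 4*k ∧ b = 2*k-5) : BigP k a b := Or.inr (Or.inr (Or.inr (Or.inr (Or.inr (Or.inr (Or.inr (Or.inr (Or.inr (Or.inr (Or.inr (Or.inr (Or.inr (Or.inr (Or.inr (Or.inr (Or.inr (Or.inr (Or.inr (Or.inr (Or.inr (Or.inr (Or.inr (Or.inr (Or.inr (Or.inr (Or.inr (Or.inr (Or.inr (h)))))))))))))))))))))))))))))

theorem four_of_big {k : ℤ} {A : ℤ → Prop} (H : Hyp k A) (hk : 9 ≤ k) {x a b : ℤ}
    (h0 : Pr k A x) (h1 : Pr k A (x+a)) (h2 : Pr k A (x+a+b)) (hB : BigP k a b) : Four k A := by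
  obtain ⟨p0, q0⟩ := h0
  obtain ⟨p1, q1⟩ := h1
  obtain ⟨p2, q2⟩ := h2
  have H' := H.shift x
  unfold BigP at hB
  rcases hB with h|h|h|h|h|h|h|h|h|h|h|h|h|h|h|h|h|h|h|h|h|h|h|h|h|h|h|h|h|h
  · obtain ⟨ha, hb⟩ := h
    obtain ⟨n1, n2, n3, n4⟩ := big0 H' hk (tr p0 (by omega)) (tr q0 (by omega)) (tr p1 (by omega)) (tr q1 (by omega)) (tr p2 (by omega)) (tr q2 (by omega))
    exact ⟨x, x + (4), x + (5), x + (k+2), x + (k+3), by omega, by omega, by omega, by omega, by omega, fun h => n1 ((N_shift _ _).2 h), fun h => n2 ((N_shift _ _).2 h), fun h => n3 ((N_shift _ _).2 h), fun h => n4 ((N_shift _ _).2 h)⟩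
  · obtain ⟨ha, hb⟩ := h
    obtain ⟨n1, n2, n3, n4⟩ := big1 H' hk (tr p0 (by omega)) (tr q0 (by omega)) (tr p1 (by omega)) (tr q1 (by omega)) (tr p2 (by omega)) (tr q2 (by omega))
    exact ⟨x, x + (2), x + (4), x + (5), x + (6), by omega, by omega, by omega, by omega, by omega, fun h => n1 ((N_shift _ _).2 h), fun h => n2 ((N_shift _ _).2 h), fun h => n3 ((N_shift _ _).2 h), fun h => n4 ((N_shift _ _).2 h)⟩
  · obtain ⟨ha, hb⟩ := h
    obtain ⟨n1, n2, n3, n4⟩ := big2 H' hk (tr p0 (by omega)) (tr q0 (by omega)) (tr p1 (by omega)) (tr q1 (by omega)) (tr p2 (by omega)) (tr q2 (by omega))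
    exact ⟨x, x + (5), x + (k), x + (k+3), x + (k+4), by omega, by omega, by omega, by omega, by omega, fun h => n1 ((N_shift _ _).2 h), fun h => n2 ((N_shift _ _).2 h), fun h => n3 ((N_shift _ _).2 h), fun h => n4 ((N_shift _ _).2 h)⟩
  · obtain ⟨ha, hb⟩ := h
    obtain ⟨n1, n2, n3, n4⟩ := big3 H' hk (tr p0 (by omega)) (tr q0 (by omega)) (tr p1 (by omega)) (tr q1 (by omega)) (tr p2 (by omega)) (tr q2 (by omega))
    exact ⟨x, x + (5), x + (6), x + (7), x + (k+1), by omega, by omega, by omega, by omega, by omega, fun h => n1 ((N_shift _ _).2 h), fun h => n2 ((N_shift _ _).2 h), fun h => n3 ((N_shift _ _).2 h), fun h => n4 ((N_shift _ _).2 h)⟩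
  · obtain ⟨ha, hb⟩ := h
    obtain ⟨n1, n2, n3, n4⟩ := big4 H' hk (tr p0 (by omega)) (tr q0 (by omega)) (tr p1 (by omega)) (tr q1 (by omega)) (tr p2 (by omega)) (tr q2 (by omega))
    exact ⟨x, x + (4), x + (5), x + (k+2), x + (k+3), by omega, by omega, by omega, by omega, by omega, fun h => n1 ((N_shift _ _).2 h), fun h => n2 ((N_shift _ _).2 h), fun h => n3 ((N_shift _ _).2 h), fun h => n4 ((N_shift _ _).2 h)⟩
  · obtain ⟨ha, hb⟩ := h
    obtain ⟨n1, n2, n3, n4⟩ := big5 H' hk (tr p0 (by omega)) (tr q0 (by omega)) (tr p1 (by omega)) (tr q1 (by omega)) (tr p2 (by omega)) (tr q2 (by omega))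
    exact ⟨x, x + (2), x + (4), x + (5), x + (6), by omega, by omega, by omega, by omega, by omega, fun h => n1 ((N_shift _ _).2 h), fun h => n2 ((N_shift _ _).2 h), fun h => n3 ((N_shift _ _).2 h), fun h => n4 ((N_shift _ _).2 h)⟩
  · obtain ⟨ha, hb⟩ := h
    obtain ⟨n1, n2, n3, n4⟩ := big6 H' hk (tr p0 (by omega)) (tr q0 (by omega)) (tr p1 (by omega)) (tr q1 (by omega)) (tr p2 (by omega)) (tr q2 (by omega))
    exact ⟨x, x + (5), x + (k), x + (k+3), x + (k+4), by omega, by omega, by omega, by omega, by omega, fun h => n1 ((N_shift _ _).2 h), fun h => n2 ((N_shift _ _).2 h), fun h => n3 ((N_shift _ _).2 h), fun h => n4 ((N_shift _ _).2 h)⟩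
  · obtain ⟨ha, hb⟩ := h
    obtain ⟨n1, n2, n3, n4⟩ := big7 H' hk (tr p0 (by omega)) (tr q0 (by omega)) (tr p1 (by omega)) (tr q1 (by omega)) (tr p2 (by omega)) (tr q2 (by omega))
    exact ⟨x, x + (5), x + (6), x + (7), x + (k+1), by omega, by omega, by omega, by omega, by omega, fun h => n1 ((N_shift _ _).2 h), fun h => n2 ((N_shift _ _).2 h), fun h => n3 ((N_shift _ _).2 h), fun h => n4 ((N_shift _ _).2 h)⟩
  · obtain ⟨ha, hb⟩ := h
    obtain ⟨n1, n2, n3, n4⟩ := big8 H' hk (tr p0 (by omega)) (tr q0 (by omega)) (tr p1 (by omega)) (tr q1 (by omega)) (tr p2 (by omega)) (tr q2 (by omega))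
    exact ⟨x, x + (2), x + (4), x + (5), x + (6), by omega, by omega, by omega, by omega, by omega, fun h => n1 ((N_shift _ _).2 h), fun h => n2 ((N_shift _ _).2 h), fun h => n3 ((N_shift _ _).2 h), fun h => n4 ((N_shift _ _).2 h)⟩
  · obtain ⟨ha, hb⟩ := h
    obtain ⟨n1, n2, n3, n4⟩ := big9 H' hk (tr p0 (by omega)) (tr q0 (by omega)) (tr p1 (by omega)) (tr q1 (by omega)) (tr p2 (by omega)) (tr q2 (by omega))
    exact ⟨x, x + (4), x + (5), x + (k+2), x + (k+3), by omega, by omega, by omega, by omega, by omega, fun h => n1 ((N_shift _ _).2 h), fun h => n2 ((N_shift _ _).2 h), fun h => n3 ((N_shift _ _).2 h), fun h => n4 ((N_shift _ _).2 h)⟩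
  · obtain ⟨ha, hb⟩ := h
    obtain ⟨n1, n2, n3, n4⟩ := big10 H' hk (tr p0 (by omega)) (tr q0 (by omega)) (tr p1 (by omega)) (tr q1 (by omega)) (tr p2 (by omega)) (tr q2 (by omega))
    exact ⟨x, x + (5), x + (6), x + (7), x + (k+1), by omega, by omega, by omega, by omega, by omega, fun h => n1 ((N_shift _ _).2 h), fun h => n2 ((N_shift _ _).2 h), fun h => n3 ((N_shift _ _).2 h), fun h => n4 ((N_shift _ _).2 h)⟩
  · obtain ⟨ha, hb⟩ := h
    obtain ⟨n1, n2, n3, n4⟩ := big11 H' hk (tr p0 (by omega)) (tr q0 (by omega)) (tr p1 (by omega)) (tr q1 (by omega)) (tr p2 (by omega)) (tr q2 (by omega))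
    exact ⟨x, x + (5), x + (k), x + (k+3), x + (k+4), by omega, by omega, by omega, by omega, by omega, fun h => n1 ((N_shift _ _).2 h), fun h => n2 ((N_shift _ _).2 h), fun h => n3 ((N_shift _ _).2 h), fun h => n4 ((N_shift _ _).2 h)⟩
  · obtain ⟨ha, hb⟩ := h
    obtain ⟨n1, n2, n3, n4⟩ := big12 H' hk (tr p0 (by omega)) (tr q0 (by omega)) (tr p1 (by omega)) (tr q1 (by omega)) (tr p2 (by omega)) (tr q2 (by omega))
    exact ⟨x, x + (5), x + (k-2), x + (k+1), x + (k+3), by omega, by omega, by omega, by omega, by omega, fun h => n1 ((N_shift _ _).2 h), fun h => n2 ((N_shift _ _).2 h), fun h => n3 ((N_shift _ _).2 h), fun h => n4 ((N_shift _ _).2 h)⟩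
  · obtain ⟨ha, hb⟩ := h
    obtain ⟨n1, n2, n3, n4⟩ := big13 H' hk (tr p0 (by omega)) (tr q0 (by omega)) (tr p1 (by omega)) (tr q1 (by omega)) (tr p2 (by omega)) (tr q2 (by omega))
    exact ⟨x, x + (3), x + (k-4), x + (k-1), x + (k+1), by omega, by omega, by omega, by omega, by omega, fun h => n1 ((N_shift _ _).2 h), fun h => n2 ((N_shift _ _).2 h), fun h => n3 ((N_shift _ _).2 h), fun h => n4 ((N_shift _ _).2 h)⟩
  · obtain ⟨ha, hb⟩ := h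
    obtain ⟨n1, n2, n3, n4⟩ := big14 H' hk (tr p0 (by omega)) (tr q0 (by omega)) (tr p1 (by omega)) (tr q1 (by omega)) (tr p2 (by omega)) (tr q2 (by omega))
    exact ⟨x, x + (5), x + (6), x + (k+1), x + (k+3), by omega, by omega, by omega, by omega, by omega, fun h => n1 ((N_shift _ _).2 h), fun h => n2 ((N_shift _ _).2 h), fun h => n3 ((N_shift _ _).2 h), fun h => n4 ((N_shift _ _).2 h)⟩
  · obtain ⟨ha, hb⟩ := h
    obtain ⟨n1, n2, n3, n4⟩ := big15 H' hk (tr p0 (by omega)) (tr q0 (by omega)) (tr p1 (by omega)) (tr q1 (by omega)) (tr p2 (by omega)) (tr q2 (by omega))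
    exact ⟨x, x + (3), x + (4), x + (k-3), x + (k+1), by omega, by omega, by omega, by omega, by omega, fun h => n1 ((N_shift _ _).2 h), fun h => n2 ((N_shift _ _).2 h), fun h => n3 ((N_shift _ _).2 h), fun h => n4 ((N_shift _ _).2 h)⟩
  · obtain ⟨ha, hb⟩ := h
    obtain ⟨n1, n2, n3, n4⟩ := big16 H' hk (tr p0 (by omega)) (tr q0 (by omega)) (tr p1 (by omega)) (tr q1 (by omega)) (tr p2 (by omega)) (tr q2 (by omega))
    exact ⟨x, x + (6), x + (7), x + (k), x + (k+4), by omega, by omega, by omega, by omega, by omega, fun h => n1 ((N_shift _ _).2 h), fun h => n2 ((N_shift _ _).2 h), fun h => n3 ((N_shift _ _).2 h), fun h => n4 ((N_shift _ _).2 h)⟩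
  · obtain ⟨ha, hb⟩ := h
    obtain ⟨n1, n2, n3, n4⟩ := big17 H' hk (tr p0 (by omega)) (tr q0 (by omega)) (tr p1 (by omega)) (tr q1 (by omega)) (tr p2 (by omega)) (tr q2 (by omega))
    exact ⟨x, x + (6), x + (7), x + (k+2), x + (k+4), by omega, by omega, by omega, by omega, by omega, fun h => n1 ((N_shift _ _).2 h), fun h => n2 ((N_shift _ _).2 h), fun h => n3 ((N_shift _ _).2 h), fun h => n4 ((N_shift _ _).2 h)⟩
  · obtain ⟨ha, hb⟩ := h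
    obtain ⟨n1, n2, n3, n4⟩ := big18 H' hk (tr p0 (by omega)) (tr q0 (by omega)) (tr p1 (by omega)) (tr q1 (by omega)) (tr p2 (by omega)) (tr q2 (by omega))
    exact ⟨x, x + (7), x + (k), x + (k+3), x + (k+5), by omega, by omega, by omega, by omega, by omega, fun h => n1 ((N_shift _ _).2 h), fun h => n2 ((N_shift _ _).2 h), fun h => n3 ((N_shift _ _).2 h), fun h => n4 ((N_shift _ _).2 h)⟩
  · obtain ⟨ha, hb⟩ := h
    obtain ⟨n1, n2, n3, n4⟩ := big19 H' hk (tr p0 (by omega)) (tr q0 (by omega)) (tr p1 (by omega)) (tr q1 (by omega)) (tr p2 (by omega)) (tr q2 (by omega))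
    exact ⟨x, x + (7), x + (k), x + (k+3), x + (k+5), by omega, by omega, by omega, by omega, by omega, fun h => n1 ((N_shift _ _).2 h), fun h => n2 ((N_shift _ _).2 h), fun h => n3 ((N_shift _ _).2 h), fun h => n4 ((N_shift _ _).2 h)⟩
  · obtain ⟨ha, hb⟩ := h
    obtain ⟨n1, n2, n3, n4⟩ := big20 H' hk (tr p0 (by omega)) (tr q0 (by omega)) (tr p1 (by omega)) (tr q1 (by omega)) (tr p2 (by omega)) (tr q2 (by omega))
    exact ⟨x, x + (4), x + (5), x + (k-2), x + (k+2), by omega, by omega, by omega, by omega, by omega, fun h => n1 ((N_shift _ _).2 h), fun h => n2 ((N_shift _ _).2 h), fun h => n3 ((N_shift _ _).2 h), fun h => n4 ((N_shift _ _).2 h)⟩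
  · obtain ⟨ha, hb⟩ := h
    obtain ⟨n1, n2, n3, n4⟩ := big21 H' hk (tr p0 (by omega)) (tr q0 (by omega)) (tr p1 (by omega)) (tr q1 (by omega)) (tr p2 (by omega)) (tr q2 (by omega))
    exact ⟨x, x + (3), x + (4), x + (k-1), x + (k+1), by omega, by omega, by omega, by omega, by omega, fun h => n1 ((N_shift _ _).2 h), fun h => n2 ((N_shift _ _).2 h), fun h => n3 ((N_shift _ _).2 h), fun h => n4 ((N_shift _ _).2 h)⟩
  · obtain ⟨ha, hb⟩ := h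
    obtain ⟨n1, n2, n3, n4⟩ := big22 H' hk (tr p0 (by omega)) (tr q0 (by omega)) (tr p1 (by omega)) (tr q1 (by omega)) (tr p2 (by omega)) (tr q2 (by omega))
    exact ⟨x, x + (6), x + (7), x + (k+2), x + (k+4), by omega, by omega, by omega, by omega, by omega, fun h => n1 ((N_shift _ _).2 h), fun h => n2 ((N_shift _ _).2 h), fun h => n3 ((N_shift _ _).2 h), fun h => n4 ((N_shift _ _).2 h)⟩
  · obtain ⟨ha, hb⟩ := h
    obtain ⟨n1, n2, n3, n4⟩ := big23 H' hk (tr p0 (by omega)) (tr q0 (by omega)) (tr p1 (by omega)) (tr q1 (by omega)) (tr p2 (by omega)) (tr q2 (by omega))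
    exact ⟨x, x + (6), x + (7), x + (k), x + (k+4), by omega, by omega, by omega, by omega, by omega, fun h => n1 ((N_shift _ _).2 h), fun h => n2 ((N_shift _ _).2 h), fun h => n3 ((N_shift _ _).2 h), fun h => n4 ((N_shift _ _).2 h)⟩
  · obtain ⟨ha, hb⟩ := h
    obtain ⟨n1, n2, n3, n4⟩ := big24 H' hk (tr p0 (by omega)) (tr q0 (by omega)) (tr p1 (by omega)) (tr q1 (by omega)) (tr p2 (by omega)) (tr q2 (by omega))
    exact ⟨x, x + (3), x + (4), x + (k-1), x + (k+1), by omega, by omega, by omega, by omega, by omega, fun h => n1 ((N_shift _ _).2 h), fun h => n2 ((N_shift _ _).2 h), fun h => n3 ((N_shift _ _).2 h), fun h => n4 ((N_shift _ _).2 h)⟩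
  · obtain ⟨ha, hb⟩ := h
    obtain ⟨n1, n2, n3, n4⟩ := big25 H' hk (tr p0 (by omega)) (tr q0 (by omega)) (tr p1 (by omega)) (tr q1 (by omega)) (tr p2 (by omega)) (tr q2 (by omega))
    exact ⟨x, x + (4), x + (5), x + (k-2), x + (k+2), by omega, by omega, by omega, by omega, by omega, fun h => n1 ((N_shift _ _).2 h), fun h => n2 ((N_shift _ _).2 h), fun h => n3 ((N_shift _ _).2 h), fun h => n4 ((N_shift _ _).2 h)⟩
  · obtain ⟨ha, hb⟩ := h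
    obtain ⟨n1, n2, n3, n4⟩ := big26 H' hk (tr p0 (by omega)) (tr q0 (by omega)) (tr p1 (by omega)) (tr q1 (by omega)) (tr p2 (by omega)) (tr q2 (by omega))
    exact ⟨x, x + (3), x + (4), x + (k-3), x + (k+1), by omega, by omega, by omega, by omega, by omega, fun h => n1 ((N_shift _ _).2 h), fun h => n2 ((N_shift _ _).2 h), fun h => n3 ((N_shift _ _).2 h), fun h => n4 ((N_shift _ _).2 h)⟩
  · obtain ⟨ha, hb⟩ := h
    obtain ⟨n1, n2, n3, n4⟩ := big27 H' hk (tr p0 (by omega)) (tr q0 (by omega)) (tr p1 (by omega)) (tr q1 (by omega)) (tr p2 (by omega)) (tr q2 (by omega))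
    exact ⟨x, x + (5), x + (6), x + (k+1), x + (k+3), by omega, by omega, by omega, by omega, by omega, fun h => n1 ((N_shift _ _).2 h), fun h => n2 ((N_shift _ _).2 h), fun h => n3 ((N_shift _ _).2 h), fun h => n4 ((N_shift _ _).2 h)⟩
  · obtain ⟨ha, hb⟩ := h
    obtain ⟨n1, n2, n3, n4⟩ := big28 H' hk (tr p0 (by omega)) (tr q0 (by omega)) (tr p1 (by omega)) (tr q1 (by omega)) (tr p2 (by omega)) (tr q2 (by omega))
    exact ⟨x, x + (3), x + (k-4), x + (k-1), x + (k+1), by omega, by omega, by omega, by omega, by omega, fun h => n1 ((N_shift _ _).2 h), fun h => n2 ((N_shift _ _).2 h), fun h => n3 ((N_shift _ _).2 h), fun h => n4 ((N_shift _ _).2 h)⟩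
  · obtain ⟨ha, hb⟩ := h
    obtain ⟨n1, n2, n3, n4⟩ := big29 H' hk (tr p0 (by omega)) (tr q0 (by omega)) (tr p1 (by omega)) (tr q1 (by omega)) (tr p2 (by omega)) (tr q2 (by omega))
    exact ⟨x, x + (5), x + (k-2), x + (k+1), x + (k+3), by omega, by omega, by omega, by omega, by omega, fun h => n1 ((N_shift _ _).2 h), fun h => n2 ((N_shift _ _).2 h), fun h => n3 ((N_shift _ _).2 h), fun h => n4 ((N_shift _ _).2 h)⟩

end Pool.Agent.R792.Circ
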