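import Pool.Agent.R792.Circ.Four

namespace Pool.Agent.R792.Circ

theorem zi0 {k z : ℤ} (h : z = k-1) : Zf k z := Or.inl h
theorem zi1 {k z : ℤ} (h : k+1 ≤ z ∧ z ≤ 2*k-4) : Zf k z := Or.inr (Or.inl h)
theorem zi2 {k z : ℤ} (h : z = 2*k) : Zf k z := Or.inr (Or.inr (Or.inl h))
theorem zi3 {k z : ℤ} (h : z = 2*k+1) : Zf k z := Or.inr (Or.inr (Or.inr (Or.inl h)))
theorem zi4 {k z : ℤ} (h : z = 3*k-2) : Zf k z := Or.inr (Or.inr (Or.inr (Or.inr (Or.inl h))))
theorem zi5 {k z : ℤ} (h : 3*k ≤ z ∧ z ≤ 4*k-5) : Zf k z := Or.inr (Or.inr (Or.inr (Or.inr (Or.inr (Or.inl h)))))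
theorem zi6 {k z : ℤ} (h : z = 4*k-1) : Zf k z := Or.inr (Or.inr (Or.inr (Or.inr (Or.inr (Or.inr (Or.inl h))))))
theorem zi7 {k z : ℤ} (h : z = 4*k) : Zf k z := Or.inr (Or.inr (Or.inr (Or.inr (Or.inr (Or.inr (Or.inr (Or.inl h)))))))
theorem zi8 {k z : ℤ} (h : z = 6*k-5) : Zf k z := Or.inr (Or.inr (Or.inr (Or.inr (Or.inr (Or.inr (Or.inr (Or.inr (Or.inl h))))))))
theorem zi9 {k z : ℤ} (h : z = 6*k-4) : Zf k z := Or.inr (Or.inr (Or.inr (Or.inr (Or.inr (Or.inr (Or.inr (Or.inr (Or.inr (Or.inl h)))))))))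
theorem zi10 {k z : ℤ} (h : 6*k ≤ z ∧ z ≤ 7*k-5) : Zf k z := Or.inr (Or.inr (Or.inr (Or.inr (Or.inr (Or.inr (Or.inr (Or.inr (Or.inr (Or.inr (Or.inl h))))))))))
theorem zi11 {k z : ℤ} (h : z = 7*k-3) : Zf k z := Or.inr (Or.inr (Or.inr (Or.inr (Or.inr (Or.inr (Or.inr (Or.inr (Or.inr (Or.inr (Or.inr (Or.inl h)))))))))))
theorem zi12 {k z : ℤ} (h : z = 8*k-6) : Zf k z := Or.inr (Or.inr (Or.inr (Or.inr (Or.inr (Or.inr (Or.inr (Or.inr (Or.inr (Or.inr (Or.inr (Or.inr (Or.inl h))))))))))))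
theorem zi13 {k z : ℤ} (h : z = 8*k-5) : Zf k z := Or.inr (Or.inr (Or.inr (Or.inr (Or.inr (Or.inr (Or.inr (Or.inr (Or.inr (Or.inr (Or.inr (Or.inr (Or.inr (Or.inl h)))))))))))))
theorem zi14 {k z : ℤ} (h : 8*k-1 ≤ z ∧ z ≤ 9*k-6) : Zf k z := Or.inr (Or.inr (Or.inr (Or.inr (Or.inr (Or.inr (Or.inr (Or.inr (Or.inr (Or.inr (Or.inr (Or.inr (Or.inr (Or.inr (Or.inl h))))))))))))))
theorem zi15 {k z : ℤ} (h : z = 9*k-4) : Zf k z := Or.inr (Or.inr (Or.inr (Or.inr (Or.inr (Or.inr (Or.inr (Or.inr (Or.inr (Or.inr (Or.inr (Or.inr (Or.inr (Or.inr (Or.inr (h)))))))))))))))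

theorem ZS {k a : ℤ} (hk : 8 ≤ k) (h : Zf k a) (h' : a ≤ 2*k+1) :
    a = k-1 ∨ (k+1 ≤ a ∧ a ≤ 2*k-4) ∨ a = 2*k ∨ a = 2*k+1 := by
  rcases h with h|h|h|h|h|h|h|h|h|h|h|h|h|h|h|h <;> omega

theorem ZM {k a : ℤ} (hk : 8 ≤ k) (h : Zf k a) (h1 : 2*k+2 ≤ a) (h' : a ≤ 5*k) :
    a = 3*k-2 ∨ (3*k ≤ a ∧ a ≤ 4*k-5) ∨ a = 4*k-1 ∨ a = 4*k := by
  rcases h with h|h|h|h|h|h|h|h|h|h|h|h|h|h|h|h <;> omega

theorem Zsymm {k a : ℤ} (h : Zf k a) : Zf k (10*k-5-a) := by
  rcases h with h|h|h|h|h|h|h|h|h|h|h|h|h|h|h|h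
  exacts [zi15 (by omega), zi14 (by omega), zi13 (by omega), zi12 (by omega), zi11 (by omega), zi10 (by omega), zi9 (by omega), zi8 (by omega), zi7 (by omega), zi6 (by omega), zi5 (by omega), zi4 (by omega), zi3 (by omega), zi2 (by omega), zi1 (by omega), zi0 (by omega)]

theorem Zpos {k a : ℤ} (hk : 8 ≤ k) (h : Zf k a) : k-1 ≤ a ∧ a ≤ 9*k-4 := by
  rcases h with h|h|h|h|h|h|h|h|h|h|h|h|h|h|h|h <;> omega

theorem Ztri {k a : ℤ} (hk : 8 ≤ k) (h : Zf k a) :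
    a ≤ 2*k+1 ∨ (3*k-2 ≤ a ∧ a ≤ 4*k) ∨ 6*k-5 ≤ a := by
  rcases h with h|h|h|h|h|h|h|h|h|h|h|h|h|h|h|h <;> omega

theorem gapSM {k a b : ℤ} (hk : 8 ≤ k) (ha : Zf k a) (hb : Zf k b) (hab : Zf k (a+b))
    (h1 : a ≤ 2*k+1) (h2 : 3*k-2 ≤ b) (h3 : b ≤ 4*k) : BigP k a b := by
  have hA := ZS hk ha h1
  have hB := ZM hk hb (by omega) (by omega)
  have pa := (Zpos hk ha).1
  have hC : a+b = 4*k-1 ∨ a+b = 4*k ∨ a+b = 6*k-5 ∨ a+b = 6*k-4 ∨ a+b = 6*k ∨ a+b = 6*k+1 := by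
    clear ha hb hA hB
    rcases hab with h|h|h|h|h|h|h|h|h|h|h|h|h|h|h|h <;> omega
  clear ha hb hab
  rcases hA with hA|hA|hA|hA
  · rcases hC with hC|hC|hC|hC|hC|hC
    · exact bi4 ⟨by omega, by omega⟩
    · exact bi6 ⟨by omega, by omega⟩
    · exfalso; omega
    · exfalso; omega
    · exfalso; omega
    · exfalso; omega
  · rcases hC with hC|hC|hC|hC|hC|hC
    · exact bi8 ⟨by omega, by omega⟩
    · have : a = k+1 ∨ a = k+2 := by omega
      rcases this with h|h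
      · exfalso; omega
      · exact bi10 ⟨by omega, by omega⟩
    · have : a = 2*k-5 ∨ a = 2*k-4 := by omega
      rcases this with h|h
      · exact bi28 ⟨by omega, by omega⟩
      · exact bi24 ⟨by omega, by omega⟩
    · exact bi26 ⟨by omega, by omega⟩
    · exfalso; omega
    · exfalso; omega
  · rcases hC with hC|hC|hC|hC|hC|hC
    · exfalso; omega
    · exfalso; omega
    · exact bi20 ⟨by omega, by omega⟩
    · exfalso; omega
    · exact bi22 ⟨by omega, by omega⟩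
    · exfalso; omega
  · rcases hC with hC|hC|hC|hC|hC|hC
    · exfalso; omega
    · exfalso; omega
    · exact bi12 ⟨by omega, by omega⟩
    · exact bi14 ⟨by omega, by omega⟩
    · exact bi16 ⟨by omega, by omega⟩
    · exact bi18 ⟨by omega, by omega⟩

theorem gapB1 {k a b : ℤ} (hk : 8 ≤ k) (ha : Zf k a) (hb : Zf k b) (hab : Zf k (a+b))
    (h : a + b ≤ 2*k+1) : BigP k a b := by
  have pa := (Zpos hk ha).1
  have pb := (Zpos hk hb).1
  have hD := ZS hk hab h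
  have hA := ZS hk ha (by omega)
  have hB := ZS hk hb (by omega)
  clear ha hb hab
  rcases hA with hA|hA|hA|hA
  · rcases hD with hD|hD|hD|hD
    · exfalso; omega
    · exfalso; omega
    · exact bi0 ⟨by omega, by omega⟩
    · exact bi2 ⟨by omega, by omega⟩
  · rcases hD with hD|hD|hD|hD
    · exfalso; omega
    · exfalso; omega
    · exact bi1 ⟨by omega, by omega⟩
    · have : a = k+1 ∨ a = k+2 := by omega
      rcases this with h|h
      · exfalso; omega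
      · exact bi3 ⟨by omega, by omega⟩
  · exfalso; omega
  · exfalso; omega

theorem BigP.symm {k a b : ℤ} (h : BigP k a b) : BigP k b a := by
  unfold BigP at h
  rcases h with h|h|h|h|h|h|h|h|h|h|h|h|h|h|h|h|h|h|h|h|h|h|h|h|h|h|h|h|h|h
  exacts [bi1 h.symm, bi0 h.symm, bi3 h.symm, bi2 h.symm, bi5 h.symm, bi4 h.symm, bi7 h.symm, bi6 h.symm, bi9 h.symm, bi8 h.symm, bi11 h.symm, bi10 h.symm, bi13 h.symm, bi12 h.symm, bi15 h.symm, bi14 h.symm, bi17 h.symm, bi16 h.symm, bi19 h.symm, bi18 h.symm, bi21 h.symm, bi20 h.symm, bi23 h.symm, bi22 h.symm, bi25 h.symm, bi24 h.symm, bi27 h.symm, bi26 h.symm, bi29 h.symm, bi28 h.symm]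

theorem gapL {k a b c : ℤ} (hk : 8 ≤ k) (ha : Zf k a) (hb : Zf k b) (hc : Zf k c)
    (hab : Zf k (a+b)) (hbc : Zf k (b+c)) (h1 : a ≤ 2*k+1) (h2 : b ≤ 2*k+1) (h3 : c ≤ 2*k+1)
    (hs : a + b + c ≤ 4*k) : BigP k a b ∨ BigP k b c ∨ BigP k (a+b) c := by
  by_cases hp : a + b ≤ 2*k+1
  · exact Or.inl (gapB1 hk ha hb hab hp)
  by_cases hq : b + c ≤ 2*k+1
  · exact Or.inr (Or.inl (gapB1 hk hb hc hbc hq))
  right; right
  have hA := ZS hk ha h1
  have hB := ZS hk hb h2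
  have hC := ZS hk hc h3
  have hkc := (Zpos hk hc).1
  have hka := (Zpos hk ha).1
  have hD := ZM hk hab (by omega) (by omega)
  have hE := ZM hk hbc (by omega) (by omega)
  clear ha hb hc hab hbc
  have hD' : 3*k-2 ≤ a+b := by omega
  have hE' : 3*k-2 ≤ b+c := by omega
  rcases hB with hB|hB|hB|hB
  · exfalso; omega
  · exact bi11 ⟨by omega, by omega⟩
  · exfalso
    have : a ≠ k-1 := by
      intro h; clear hA hC hE; omega
    have : c ≠ k-1 := by
      intro h; clear hA hC hD; omega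
    clear hD hE
    omega
  · have : a = k-1 := by
      clear hD hE; omega
    have : c = k-1 := by
      clear hD hE; omega
    exact bi5 ⟨by omega, by omega⟩

theorem gap4 {k g1 g2 g3 g4 : ℤ} (hk : 8 ≤ k) (h1 : Zf k g1) (h2 : Zf k g2) (h3 : Zf k g3)
    (h4 : Zf k g4) (h12 : Zf k (g1+g2)) (h23 : Zf k (g2+g3)) (h34 : Zf k (g3+g4))
    (h41 : Zf k (g4+g1)) (hs : g1+g2+g3+g4 = 10*k-5) :
    BigP k g1 g2 ∨ BigP k g2 g3 ∨ BigP k g3 g4 ∨ BigP k g4 g1 ∨
    BigP k (g1+g2) g3 ∨ BigP k (g2+g3) g4 ∨ BigP k (g3+g4) g1 ∨ BigP k (g4+g1) g2 := by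
  have p1 := (Zpos hk h1).1
  have p2 := (Zpos hk h2).1
  have p3 := (Zpos hk h3).1
  have p4 := (Zpos hk h4).1
  have h21 : Zf k (g2+g1) := by rwa [add_comm] 
  have h32 : Zf k (g3+g2) := by rwa [add_comm] 
  have h43 : Zf k (g4+g3) := by rwa [add_comm] 
  have h14 : Zf k (g1+g4) := by rwa [add_comm] 
  have T1 := Ztri hk h1
  have T2 := Ztri hk h2
  have T3 := Ztri hk h3
  have T4 := Ztri hk h4
  rcases T1 with a1|a1|a1
  · rcases T2 with a2|a2|a2
    · rcases T3 with a3|a3|a3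
      · rcases T4 with a4|a4|a4
        · exfalso; omega
        · exact Or.inr (Or.inr (Or.inr (Or.inl (gapSM hk h1 h4 h14 a1 a4.1 a4.2).symm)))
        · have := gapL hk h1 h2 h3 h12 h23 a1 a2 a3 (by
            have := Zsymm h4
            have e : 10*k-5-g4 = g1+g2+g3 := by omega
            rw [e] at this; rcases Ztri hk this with q|q|q <;> omega)
          tauto
      · exact Or.inr (Or.inl (gapSM hk h2 h3 h23 a2 a3.1 a3.2))
      · rcases T4 with a4|a4|a4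
        · have := gapL hk h4 h1 h2 h41 h12 a4 a1 a2 (by
            have := Zsymm h3
            have e : 10*k-5-g3 = g4+g1+g2 := by omega
            rw [e] at this; rcases Ztri hk this with q|q|q <;> omega)
          tauto
        · exact Or.inr (Or.inr (Or.inr (Or.inl (gapSM hk h1 h4 h14 a1 a4.1 a4.2).symm)))
        · exfalso; omega
    · exact Or.inl (gapSM hk h1 h2 h12 a1 a2.1 a2.2)
    · rcases T3 with a3|a3|a3
      · rcases T4 with a4|a4|a4
        · have := gapL hk h3 h4 h1 h34 h41 a3 a4 a1 (by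
            have := Zsymm h2
            have e : 10*k-5-g2 = g3+g4+g1 := by omega
            rw [e] at this; rcases Ztri hk this with q|q|q <;> omega)
          tauto
        · exact Or.inr (Or.inr (Or.inl (gapSM hk h3 h4 h34 a3 a4.1 a4.2)))
        · exfalso; omega
      · exfalso; omega
      · exfalso; omega
  · rcases T2 with a2|a2|a2
    · exact Or.inl (gapSM hk h2 h1 h21 a2 a1.1 a1.2).symm
    · rcases T3 with a3|a3|a3
      · exact Or.inr (Or.inl (gapSM hk h3 h2 h32 a3 a2.1 a2.2).symm)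
      · rcases T4 with a4|a4|a4
        · exact Or.inr (Or.inr (Or.inr (Or.inl (gapSM hk h4 h1 h41 a4 a1.1 a1.2))))
        · exfalso; omega
        · exfalso; omega
      · exfalso; omega
    · rcases T3 with a3|a3|a3
      · rcases T4 with a4|a4|a4
        · exact Or.inr (Or.inr (Or.inr (Or.inl (gapSM hk h4 h1 h41 a4 a1.1 a1.2))))
        · exfalso; omega
        · exfalso; omega
      · exfalso; omega
      · exfalso; omega
  · rcases T2 with a2|a2|a2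
    · rcases T3 with a3|a3|a3
      · rcases T4 with a4|a4|a4
        · have := gapL hk h2 h3 h4 h23 h34 a2 a3 a4 (by
            have := Zsymm h1
            have e : 10*k-5-g1 = g2+g3+g4 := by omega
            rw [e] at this; rcases Ztri hk this with q|q|q <;> omega)
          tauto
        · exact Or.inr (Or.inr (Or.inl (gapSM hk h3 h4 h34 a3 a4.1 a4.2)))
        · exfalso; omega
      · exact Or.inr (Or.inl (gapSM hk h2 h3 h23 a2 a3.1 a3.2))
      · exfalso; omega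
    · exfalso
      rcases T3 with a3|a3|a3 <;> rcases T4 with a4|a4|a4 <;> omega
    · exfalso; omega

end Pool.Agent.R792.Circ
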