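import Pool.Agent.R792.Circ.Gap

namespace Pool.Agent.R792.Circ

/-- No triangles. -/
theorem no_tri {k a b : ℤ} (hk : 8 ≤ k) (ha : Fp k a) (hb : Fp k b) (hab : Fp k (a+b)) : False := by
  rcases ha with h|h|h|h|h|h|h|h|h|h <;> rcases hb with h'|h'|h'|h'|h'|h'|h'|h'|h'|h' <;>
    first
    | (rcases hab with g|g|g|g|g|g|g|g|g|g <;> omega)

theorem Fp_symm {k z : ℤ} (h : Fp k z) : Fp k (10*k-5-z) := by
  rcases h with h|h|h|h|h|h|h|h|h|h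
  exacts [f10 (by omega), f9 (by omega), f8 (by omega), f7 (by omega), f6 (by omega),
    f5 (by omega), f4 (by omega), f3 (by omega), f2 (by omega), f1 (by omega)]

theorem Fp_pos {k z : ℤ} (hk : 8 ≤ k) (h : Fp k z) : 0 < z ∧ z < 10*k-5 := by
  rcases h with h|h|h|h|h|h|h|h|h|h <;> omega

/-- A common neighbour of `0` and `z`, as an integer `w` in `(0, n)`. -/
def Com (k z : ℤ) : Prop :=
  ∃ w : ℤ, Fp k w ∧ ((w < z ∧ Fp k (z-w)) ∨ (z < w ∧ Fp k (w-z)))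

theorem com_low {k z : ℤ} (hk : 8 ≤ k) (h0 : 0 < z) (h1 : z ≤ 5*k-3) (hF : ¬ Fp k z) :
    Com k z := by
  by_cases c0 : z ≤ k-5
  · exact ⟨2*k+2+z, f3 (by omega), Or.inr ⟨by omega, f3 (by omega)⟩⟩
  by_cases c1 : z ≤ k-4
  · exact ⟨3*k-1, f4 (by omega), Or.inr ⟨by omega, f3 (by omega)⟩⟩
  by_cases c2 : z ≤ k-3
  · exact ⟨3*k-1, f4 (by omega), Or.inr ⟨by omega, f3 (by omega)⟩⟩
  by_cases c3 : z ≤ k-2
  · exact ⟨3*k-4, f3 (by omega), Or.inr ⟨by omega, f2 (by omega)⟩⟩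
  by_cases c4 : z ≤ k-1
  · exact ⟨3*k-3, f3 (by omega), Or.inr ⟨by omega, f2 (by omega)⟩⟩
  by_cases c5 : z ≤ k
  · exact ⟨3*k-3, f3 (by omega), Or.inr ⟨by omega, f1 (by omega)⟩⟩
  by_cases c6 : z ≤ 2*k-4
  · exact ⟨4*k-2, f5 (by omega), Or.inr ⟨by omega, f3 (by omega)⟩⟩
  by_cases c7 : z ≤ 2*k-3
  · exact absurd (f1 (by omega)) hF
  by_cases c8 : z ≤ 2*k-2
  · exact absurd (f2 (by omega)) hF
  by_cases c9 : z ≤ 2*k-1
  · exact ⟨6*k-3, f6 (by omega), Or.inr ⟨by omega, f5 (by omega)⟩⟩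
  by_cases c10 : z ≤ 2*k
  · exact ⟨4*k-2, f5 (by omega), Or.inr ⟨by omega, f2 (by omega)⟩⟩
  by_cases c11 : z ≤ 2*k+1
  · exact ⟨4*k-2, f5 (by omega), Or.inr ⟨by omega, f1 (by omega)⟩⟩
  by_cases c12 : z ≤ 3*k-3
  · exact absurd (f3 (by omega)) hF
  by_cases c13 : z ≤ 3*k-2
  · exact ⟨7*k-4, f7 (by omega), Or.inr ⟨by omega, f5 (by omega)⟩⟩
  by_cases c14 : z ≤ 3*k-1
  · exact absurd (f4 (by omega)) hF
  by_cases c15 : z ≤ 4*k-5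
  · exact ⟨6*k-3, f6 (by omega), Or.inr ⟨by omega, f3 (by omega)⟩⟩
  by_cases c16 : z ≤ 4*k-4
  · exact ⟨2*k-2, f2 (by omega), Or.inl ⟨by omega, f2 (by omega)⟩⟩
  by_cases c17 : z ≤ 4*k-3
  · exact ⟨7*k-4, f7 (by omega), Or.inr ⟨by omega, f4 (by omega)⟩⟩
  by_cases c18 : z ≤ 4*k-2
  · exact absurd (f5 (by omega)) hF
  by_cases c19 : z ≤ 5*k-6
  · exact ⟨2*k-3, f1 (by omega), Or.inl ⟨by omega, f3 (by omega)⟩⟩
  by_cases c20 : z ≤ 5*k-5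
  · exact ⟨2*k-2, f2 (by omega), Or.inl ⟨by omega, f3 (by omega)⟩⟩
  by_cases c21 : z ≤ 5*k-4
  · exact ⟨2*k-3, f1 (by omega), Or.inl ⟨by omega, f4 (by omega)⟩⟩
  exact ⟨2*k-2, f2 (by omega), Or.inl ⟨by omega, f4 (by omega)⟩⟩

theorem com_all {k z : ℤ} (hk : 8 ≤ k) (h0 : 0 < z) (h1 : z < 10*k-5) (hF : ¬ Fp k z) :
    Com k z := by
  rcases (by omega : z ≤ 5*k-3 ∨ 10*k-5-z ≤ 5*k-3) with h|h
  · exact com_low hk h0 h hF
  · obtain ⟨w, hw, hc⟩ := com_low (z := 10*k-5-z) hk (by omega) h (fun h' => hF (by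
      have := Fp_symm h'
      rwa [show 10*k-5-(10*k-5-z) = z by ring] at this))
    refine ⟨10*k-5-w, Fp_symm hw, ?_⟩
    rcases hc with ⟨c1, c2⟩|⟨c1, c2⟩
    · right
      exact ⟨by omega, by rwa [show 10*k-5-w-z = 10*k-5-z-w by ring]⟩
    · left
      exact ⟨by omega, by rwa [show z-(10*k-5-w) = w-(10*k-5-z) by ring]⟩

end Pool.Agent.R792.Circ
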