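import Pool.Agent.R792.Circ.Count
import Pool.Agent.R792.Circ.Crit
import Pool.Agent.R792.Circ.Local

namespace Pool.Agent.R792.Circ

/-- The circulant graph `C_n(D)` on `ℤ/nℤ`. -/
def circ (n : ℕ) (D : Set ℕ) : SimpleGraph (ZMod n) where
  Adj i j := i ≠ j ∧ ∃ d ∈ D, i - j = (d : ZMod n) ∨ j - i = (d : ZMod n)
  symm := ⟨fun i j h => by
    obtain ⟨h1, d, hd, h2⟩ := h
    exact ⟨h1.symm, d, hd, h2.symm⟩⟩
  loopless := ⟨fun i h => h.1 rfl⟩

/-- The connection set `D_t`. -/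
def Dset (t : ℕ) : Set ℕ :=
  Set.Icc (t-4) (t-3) ∪ Set.Icc (t+1) ((3*t-9)/2) ∪ {(3*t-5)/2} ∪ {2*t-4}

/-- `G` is `R(p,q)`-good. -/
def RGood {V : Type*} (p q : ℕ) (G : SimpleGraph V) : Prop :=
  G.CliqueFree p ∧ G.IndepSetFree q

/-- `G` is doubly saturated `R(p,q)`-good. -/
def DoublySaturated {V : Type*} (p q : ℕ) (G : SimpleGraph V) : Prop :=
  RGood p q G ∧
  (∀ u v, u ≠ v → ¬ G.Adj u v → ¬ RGood p q (G ⊔ SimpleGraph.edge u v)) ∧
  (∀ u v, G.Adj u v → ¬ RGood p q (G.deleteEdges {s(u, v)})) ∧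
  G ≠ ⊤ ∧ Gᶜ ≠ ⊤

theorem mem_D {K d : ℕ} (hK : 8 ≤ K) : d ∈ Dset (2*K+1) ↔
    (d = 2*K-3 ∨ d = 2*K-2 ∨ (2*K+2 ≤ d ∧ d ≤ 3*K-3) ∨ d = 3*K-1 ∨ d = 4*K-2) := by
  simp only [Dset, Set.mem_union, Set.mem_Icc, Set.mem_singleton_iff]
  omega

theorem cast_iff {n : ℕ} (a b : ℤ) : ((a : ℤ) : ZMod n) = ((b : ℤ) : ZMod n) ↔ (n:ℤ) ∣ b - a :=
  ZMod.intCast_eq_intCast_iff_dvd_sub a b n

theorem dvd_small {n x : ℤ} (h : n ∣ x) (h1 : -n < x) (h2 : x < n) : x = 0 :=
  Int.eq_zero_of_abs_lt_dvd h (abs_lt.2 ⟨h1, h2⟩)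

theorem adj_iff {K n : ℕ} (hK : 8 ≤ K) (hn : n = 10*K-5) (a : ZMod n) (z : ℤ) (h0 : 0 < z)
    (h1 : z < n) : (circ n (Dset (2*K+1))).Adj a (a + (z : ZMod n)) ↔ Fp (K:ℤ) z := by
  have hn' : (n:ℤ) = 10*(K:ℤ)-5 := by omega
  constructor
  · rintro ⟨_, d, hd, h⟩
    rw [mem_D hK] at hd
    rcases h with h|h
    · have e : ((-z : ℤ) : ZMod n) = ((d:ℤ) : ZMod n) := by
        rw [Int.cast_neg, Int.cast_natCast, ← h]; ring
      rw [cast_iff] at e
      have e2 : (n:ℤ) ∣ (d:ℤ) - -z - n := dvd_sub_self_right.2 e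
      have e3 := dvd_small e2 (by omega) (by omega)
      have e4 : z = 10*(K:ℤ)-5-d := by omega
      rcases hd with hd|hd|hd|hd|hd
      · exact f10 (by omega)
      · exact f9 (by omega)
      · exact f8 (by omega)
      · exact f7 (by omega)
      · exact f6 (by omega)
    · have e : ((z : ℤ) : ZMod n) = ((d:ℤ) : ZMod n) := by
        rw [Int.cast_natCast, ← h]; ring
      rw [cast_iff] at e
      have e3 := dvd_small e (by omega) (by omega)
      rcases hd with hd|hd|hd|hd|hd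
      · exact f1 (by omega)
      · exact f2 (by omega)
      · exact f3 (by omega)
      · exact f4 (by omega)
      · exact f5 (by omega)
  · intro hF
    refine ⟨?_, ?_⟩
    · intro h
      have e : ((0 : ℤ) : ZMod n) = ((z:ℤ) : ZMod n) := by
        rw [Int.cast_zero]
        have := congrArg (fun y => y - a) h
        simpa using this
      rw [cast_iff] at e
      have := dvd_small e (by omega) (by omega)
      omega
    · have hi : ∀ d : ℕ, z = d → d ∈ Dset (2*K+1) → ∃ d ∈ Dset (2*K+1),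
          a - (a + (z : ZMod n)) = (d : ZMod n) ∨ a + (z : ZMod n) - a = (d : ZMod n) := by
        intro d hz hd
        refine ⟨d, hd, Or.inr ?_⟩
        rw [hz, Int.cast_natCast]; ring
      have lo : ∀ d : ℕ, z = (n:ℤ) - d → d ∈ Dset (2*K+1) → ∃ d ∈ Dset (2*K+1),
          a - (a + (z : ZMod n)) = (d : ZMod n) ∨ a + (z : ZMod n) - a = (d : ZMod n) := by
        intro d hz hd
        refine ⟨d, hd, Or.inl ?_⟩
        rw [hz, Int.cast_sub, Int.cast_natCast, Int.cast_natCast, ZMod.natCast_self]; ring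
      rcases hF with h|h|h|h|h|h|h|h|h|h
      · exact hi (2*K-3) (by omega) (by rw [mem_D hK]; omega)
      · exact hi (2*K-2) (by omega) (by rw [mem_D hK]; omega)
      · exact hi z.toNat (by omega) (by rw [mem_D hK]; omega)
      · exact hi (3*K-1) (by omega) (by rw [mem_D hK]; omega)
      · exact hi (4*K-2) (by omega) (by rw [mem_D hK]; omega)
      · exact lo (4*K-2) (by omega) (by rw [mem_D hK]; omega)
      · exact lo (3*K-1) (by omega) (by rw [mem_D hK]; omega)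
      · exact lo (n - z.toNat) (by omega) (by rw [mem_D hK]; omega)
      · exact lo (2*K-2) (by omega) (by rw [mem_D hK]; omega)
      · exact lo (2*K-3) (by omega) (by rw [mem_D hK]; omega)

theorem rep {n : ℕ} [NeZero n] (a b : ZMod n) (h : a ≠ b) :
    ∃ x : ℤ, 0 < x ∧ x < n ∧ b = a + (x : ZMod n) := by
  refine ⟨((b-a).val : ℤ), ?_, ?_, ?_⟩
  · have : (b-a).val ≠ 0 := by
      rw [Ne, ZMod.val_eq_zero, sub_eq_zero]
      exact fun e => h e.symm
    omega
  · exact_mod_cast ZMod.val_lt (b-a)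
  · rw [Int.cast_natCast, ZMod.natCast_zmod_val]; ring

theorem cliqueFree_main {K n : ℕ} (hK : 8 ≤ K) (hn : n = 10*K-5) :
    (circ n (Dset (2*K+1))).CliqueFree 3 := by
  classical
  have : NeZero n := ⟨by omega⟩
  intro S hS
  rw [SimpleGraph.is3Clique_iff] at hS
  obtain ⟨a, b, c, hab, hac, hbc, _⟩ := hS
  obtain ⟨x, x0, x1, hx⟩ := rep a b hab.ne
  obtain ⟨y, y0, y1, hy⟩ := rep a c hac.ne
  have Fx := (adj_iff hK hn a x x0 x1).1 (hx ▸ hab)
  have Fy := (adj_iff hK hn a y y0 y1).1 (hy ▸ hac)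
  rcases lt_trichotomy x y with h|h|h
  · have e : c = b + ((y - x : ℤ) : ZMod n) := by
      rw [hx, hy, Int.cast_sub]; ring
    have F := (adj_iff hK hn b (y-x) (by omega) (by omega)).1 (e ▸ hbc)
    exact no_tri (by omega) Fx F (by rwa [show x + (y-x) = y by ring])
  · exact hbc.ne (by rw [hx, hy, h])
  · have e : b = c + ((x - y : ℤ) : ZMod n) := by
      rw [hx, hy, Int.cast_sub]; ring
    have F := (adj_iff hK hn c (x-y) (by omega) (by omega)).1 (e ▸ hbc.symm)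
    exact no_tri (by omega) Fy F (by rwa [show y + (x-y) = x by ring])

theorem indepFree_main {K n : ℕ} (hK : 8 ≤ K) (hn : n = 10*K-5) :
    (circ n (Dset (2*K+1))).IndepSetFree (2*K+1) := by
  classical
  have : NeZero n := ⟨by omega⟩
  have hn' : (n:ℤ) = 10*(K:ℤ)-5 := by omega
  intro S hS
  have hi := hS.isIndepSet
  have hc := hS.card_eq
  let A : ℤ → Prop := fun z => (z : ZMod n) ∈ S
  have H : Hyp (K:ℤ) A :=
  { hk := by omega
    per := fun z => by
      show ((z + (10*(K:ℤ)-5) : ℤ) : ZMod n) ∈ S ↔ (z : ZMod n) ∈ S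
      rw [← hn', Int.cast_add, Int.cast_natCast, ZMod.natCast_self, add_zero]
    ind := fun u v hu hv hF => by
      have hp := Fp_pos (by omega) hF
      have hadj := (adj_iff hK hn ((u:ℤ) : ZMod n) (v-u) hp.1 (by omega)).2 hF
      rw [Int.cast_sub, add_sub_cancel] at hadj
      exact hi hu hv hadj.ne hadj }
  have h3 : ∀ T : Finset ℤ, (∀ z, z ∈ T ↔ (0 ≤ z ∧ z < 10*(K:ℤ)-5) ∧ A z) →
      T.card = S.card := by
    intro T hT
    refine Finset.card_nbij' (fun z => (z : ZMod n)) (fun a => (a.val : ℤ)) ?_ ?_ ?_ ?_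
    · intro z hz
      rw [Finset.mem_coe, hT] at hz
      exact hz.2
    · intro a ha
      rw [Finset.mem_coe, hT]
      refine ⟨⟨by positivity, ?_⟩, ?_⟩
      · show (a.val : ℤ) < _
        rw [← hn']
        exact_mod_cast ZMod.val_lt a
      · show (((a.val : ℤ)) : ZMod n) ∈ S
        rw [Int.cast_natCast, ZMod.natCast_zmod_val]
        exact ha
    · intro z hz
      rw [Finset.mem_coe, hT] at hz
      show (((z : ZMod n)).val : ℤ) = z
      rw [ZMod.val_intCast, hn']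
      exact Int.emod_eq_of_lt hz.1.1 hz.1.2
    · intro a ha
      show (((a.val : ℤ)) : ZMod n) = a
      rw [Int.cast_natCast, ZMod.natCast_zmod_val]
  refine indep_bound H ?_
  rw [h3 _ (fun z => (@Finset.mem_filter _ _ (_) _ _).trans (and_congr_left' Finset.mem_Ico)), hc]
  push_cast
  ring

theorem add_main {K n : ℕ} (hK : 8 ≤ K) (hn : n = 10*K-5) (u v : ZMod n) (huv : u ≠ v)
    (hna : ¬ (circ n (Dset (2*K+1))).Adj u v) :
    ¬ ((circ n (Dset (2*K+1))) ⊔ SimpleGraph.edge u v).CliqueFree 3 := by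
  classical
  have : NeZero n := ⟨by omega⟩
  have hn' : (n:ℤ) = 10*(K:ℤ)-5 := by omega
  obtain ⟨z, z0, z1, hz⟩ := rep u v huv
  have hF : ¬ Fp (K:ℤ) z := fun h => hna (by
    have := (adj_iff hK hn u z z0 z1).2 h
    rwa [← hz] at this)
  obtain ⟨w, hw, hc⟩ := com_all (by omega) z0 (by omega) hF
  have hwp := Fp_pos (by omega) hw
  have a1 : (circ n (Dset (2*K+1))).Adj u (u + (w : ZMod n)) :=
    (adj_iff hK hn u w hwp.1 (by omega)).2 hw
  have a2 : (circ n (Dset (2*K+1))).Adj v (u + (w : ZMod n)) := by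
    rcases hc with ⟨c1, c2⟩|⟨c1, c2⟩
    · have := (adj_iff hK hn (u + (w : ZMod n)) (z-w) (by omega) (by omega)).2 c2
      rw [show u + (w : ZMod n) + ((z-w : ℤ) : ZMod n) = v by rw [hz, Int.cast_sub]; ring] at this
      exact this.symm
    · have := (adj_iff hK hn v (w-z) (by omega) (by omega)).2 c2
      rwa [show v + ((w-z : ℤ) : ZMod n) = u + (w : ZMod n) by rw [hz, Int.cast_sub]; ring] at this
  intro hcf
  refine hcf {u, v, u + (w : ZMod n)} ?_
  rw [SimpleGraph.is3Clique_triple_iff]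
  refine ⟨Or.inr ?_, Or.inl a1, Or.inl a2⟩
  rw [SimpleGraph.edge_adj]
  exact ⟨Or.inl ⟨rfl, rfl⟩, huv⟩

theorem crit_exists {k d : ℤ} (hk : 8 ≤ k)
    (hd : d = 2*k-3 ∨ d = 2*k-2 ∨ (2*k+2 ≤ d ∧ d ≤ 3*k-3) ∨ d = 3*k-1 ∨ d = 4*k-2) :
    ∃ S, IsCrit k d S := by
  rcases hd with h|h|h|h|h
  · exact ⟨_, critA hk h⟩
  · exact ⟨_, critB hk h⟩
  · rcases (by omega : d = 2*k+2 ∨ d = 2*k+3 ∨ (2*k+4 ≤ d ∧ d ≤ 3*k-5) ∨ d = 3*k-4 ∨ d = 3*k-3)
      with h'|h'|h'|h'|h'
    · exact ⟨_, critE3 hk h'⟩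
    · exact ⟨_, critE4 hk h'⟩
    · exact ⟨_, critE (e := d-2*k+1) hk (by omega) (by omega) (by omega)⟩
    · exact ⟨_, critG1 hk h'⟩
    · exact ⟨_, critG2 hk h'⟩
  · exact ⟨_, critC hk h⟩
  · exact ⟨_, critD hk h⟩

theorem del_aux {K n : ℕ} (hK : 8 ≤ K) (hn : n = 10*K-5) (u : ZMod n) (d : ℤ) (S : Finset ℤ)
    (hS : IsCrit (K:ℤ) d S) :
    ¬ ((circ n (Dset (2*K+1))).deleteEdges {s(u, u + (d : ZMod n))}).IndepSetFree (2*K+1) := by
  classical
  have : NeZero n := ⟨by omega⟩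
  have hn' : (n:ℤ) = 10*(K:ℤ)-5 := by omega
  obtain ⟨hc, hb, hp⟩ := hS
  have key : ∀ a ∈ S, ∀ b ∈ S, a < b →
      ¬ ((circ n (Dset (2*K+1))).deleteEdges {s(u, u + (d : ZMod n))}).Adj
        (u + (a : ZMod n)) (u + (b : ZMod n)) := by
    intro a ha b hb' hab hadj
    rw [SimpleGraph.deleteEdges_adj] at hadj
    obtain ⟨h1, h2⟩ := hadj
    have ba := hb a ha
    have bb := hb b hb'
    have hF := (adj_iff hK hn (u + (a : ZMod n)) (b-a) (by omega) (by omega)).1 (by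
      rwa [show u + (a : ZMod n) + ((b-a : ℤ) : ZMod n) = u + (b : ZMod n) by
        rw [Int.cast_sub]; ring])
    obtain ⟨e1, e2⟩ := hp a ha b hb' hab hF
    apply h2
    rw [e1, e2, Int.cast_zero, add_zero]
    exact Set.mem_singleton _
  intro hfree
  refine hfree (S.image (fun a : ℤ => u + (a : ZMod n))) ⟨?_, ?_⟩
  · intro x hx y hy hxy
    rw [Finset.mem_coe, Finset.mem_image] at hx hy
    obtain ⟨a, ha, rfl⟩ := hx
    obtain ⟨b, hb', rfl⟩ := hy
    rcases lt_trichotomy a b with h|h|h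
    · exact key a ha b hb' h
    · exact absurd (by rw [h]) hxy
    · exact fun hadj => key b hb' a ha h hadj.symm
  · rw [Finset.card_image_of_injOn]
    · omega
    · intro a ha b hb' hab
      have ba := hb a ha
      have bb := hb b hb'
      have e : ((a : ℤ) : ZMod n) = ((b:ℤ) : ZMod n) := add_left_cancel hab
      rw [cast_iff] at e
      have := dvd_small e (by omega) (by omega)
      omega

theorem del_main {K n : ℕ} (hK : 8 ≤ K) (hn : n = 10*K-5) (u v : ZMod n)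
    (hadj : (circ n (Dset (2*K+1))).Adj u v) :
    ¬ ((circ n (Dset (2*K+1))).deleteEdges {s(u, v)}).IndepSetFree (2*K+1) := by
  have : NeZero n := ⟨by omega⟩
  have hn' : (n:ℤ) = 10*(K:ℤ)-5 := by omega
  obtain ⟨z, z0, z1, hz⟩ := rep u v hadj.ne
  have hF := (adj_iff hK hn u z z0 z1).1 (by rwa [← hz])
  have hlow : (z = 2*(K:ℤ)-3 ∨ z = 2*K-2 ∨ (2*K+2 ≤ z ∧ z ≤ 3*K-3) ∨ z = 3*K-1 ∨ z = 4*K-2) ∨
      (n - z = 2*(K:ℤ)-3 ∨ n - z = 2*K-2 ∨ (2*K+2 ≤ n - z ∧ n - z ≤ 3*K-3) ∨ n - z = 3*K-1 ∨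
        n - z = 4*K-2) := by
    rcases hF with h|h|h|h|h|h|h|h|h|h
    · left; omega
    · left; omega
    · left; omega
    · left; omega
    · left; omega
    · right; omega
    · right; omega
    · right; omega
    · right; omega
    · right; omega
  rcases hlow with h|h
  · obtain ⟨S, hS⟩ := crit_exists (by omega) h
    have := del_aux hK hn u z S hS
    rwa [← hz] at this
  · obtain ⟨S, hS⟩ := crit_exists (by omega) h
    have := del_aux hK hn v _ S hS
    have e : v + (((n:ℤ) - z : ℤ) : ZMod n) = u := by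
      rw [hz, Int.cast_sub, Int.cast_natCast, ZMod.natCast_self]; ring
    rw [e, Sym2.eq_swap] at this
    exact this

theorem main_n {K n : ℕ} (hK : 8 ≤ K) (hn : n = 10*K-5) :
    DoublySaturated 3 (2*K+1) (circ n (Dset (2*K+1))) := by
  have : NeZero n := ⟨by omega⟩
  have hn' : (n:ℤ) = 10*(K:ℤ)-5 := by omega
  refine ⟨⟨cliqueFree_main hK hn, indepFree_main hK hn⟩, ?_, ?_, ?_, ?_⟩
  · intro u v huv hna h
    exact add_main hK hn u v huv hna h.1
  · intro u v hadj h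
    exact del_main hK hn u v hadj h.2
  · intro h
    have h1 := adj_iff hK hn 0 1 (by omega) (by omega)
    have hne : (0 : ZMod n) ≠ 0 + ((1:ℤ) : ZMod n) := by
      intro e
      have e : ((0 : ℤ) : ZMod n) = ((1:ℤ) : ZMod n) := by
        rw [Int.cast_zero]; rw [zero_add] at e; exact e
      rw [cast_iff] at e
      have := dvd_small e (by omega) (by omega)
      omega
    rw [h] at h1
    have h2 := h1.1 hne
    rcases h2 with h|h|h|h|h|h|h|h|h|h <;> omega
  · intro h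
    have h1 := (adj_iff hK hn 0 (2*(K:ℤ)-2) (by omega) (by omega)).2 (f2 rfl)
    have h2 : (circ n (Dset (2*K+1)))ᶜ.Adj 0 (0 + ((2*(K:ℤ)-2 : ℤ) : ZMod n)) := by
      rw [h]; exact h1.ne
    rw [SimpleGraph.compl_adj] at h2
    exact h2.2 h1

theorem main (t : ℕ) (ht : 17 ≤ t) (hodd : Odd t) :
    DoublySaturated 3 t (circ (5*t-10) (Dset t)) := by
  obtain ⟨K, rfl⟩ := hodd
  exact main_n (by omega) (by omega)

end Pool.Agent.R792.Circ
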