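import Pool.Agent.R792.Circ.Base

namespace Pool.Agent.R792.Circ

theorem refE1 {k : ℤ} {A : ℤ → Prop} (H : Hyp k A)  (a0 : A (0)) (b0 : A (2*k-1)) (a1 : A (2*k)) (b1 : A (4*k-1))
    (e0 : N k A (k-2)) (e1 : N k A (k)) (e2 : N k A (k+2)) : False := by
  have hk := H.hk
  rcases e1 with w0|w0|w0|w0|w0
  · exact H.ind _ _ w0 b1 (f4 (by omega))
  · exact H.ind _ _ a0 w0 (f4 (by omega))
  · exact H.ind _ _ b0 w0 (f4 (by omega))
  · rcases e0 with w1|w1|w1|w1|w1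
    · rcases e2 with w2|w2|w2|w2|w2
      · exact H.ind _ _ w2 b1 (f3 (by omega))
      · exact H.ind _ _ w1 w2 (f3 (by omega))
      · exact H.ind _ _ w2 w0 (f1 (by omega))
      · exact H.ind _ _ a0 w2 (f8 (by omega))
      · exact H.ind _ _ b0 w2 (f8 (by omega))
    · exact H.ind _ _ a0 w1 (f3 (by omega))
    · exact H.ind _ _ b0 w1 (f3 (by omega))
    · exact H.ind _ _ b1 w1 (f3 (by omega))
    · exact H.ind _ _ w0 w1 (f1 (by omega))
  · exact H.ind _ _ a1 w0 (f7 (by omega))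

theorem refE2 {k : ℤ} {A : ℤ → Prop} (H : Hyp k A)  (a0 : A (0)) (b0 : A (2*k-1)) (a1 : A (2*k+1)) (b1 : A (4*k))
    (e0 : N k A (1)) (e1 : N k A (5)) (e2 : N k A (k)) (e3 : N k A (k+1)) : False := by
  have hk := H.hk
  rcases e0 with w0|w0|w0|w0|w0
  · exact H.ind _ _ w0 b0 (f2 (by omega))
  · rcases e2 with w1|w1|w1|w1|w1
    · rcases e1 with w2|w2|w2|w2|w2
      · rcases e3 with w3|w3|w3|w3|w3
        · exact H.ind _ _ w3 b1 (f4 (by omega))
        · exact H.ind _ _ w2 w3 (f3 (by omega))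
        · exact H.ind _ _ w0 w3 (f4 (by omega))
        · exact H.ind _ _ a0 w3 (f8 (by omega))
        · exact H.ind _ _ b0 w3 (f8 (by omega))
      · exact H.ind _ _ a0 w2 (f3 (by omega))
      · exact H.ind _ _ b0 w2 (f3 (by omega))
      · exact H.ind _ _ b1 w2 (f3 (by omega))
      · exact H.ind _ _ w1 w2 (f8 (by omega))
    · exact H.ind _ _ a0 w1 (f4 (by omega))
    · exact H.ind _ _ b0 w1 (f4 (by omega))
    · exact H.ind _ _ b1 w1 (f3 (by omega))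
    · exact H.ind _ _ w0 w1 (f7 (by omega))
  · exact H.ind _ _ a1 w0 (f2 (by omega))
  · exact H.ind _ _ b1 w0 (f2 (by omega))
  · exact H.ind _ _ a0 w0 (f9 (by omega))

theorem refE3 {k : ℤ} {A : ℤ → Prop} (H : Hyp k A)  (a0 : A (0)) (b0 : A (2*k-1)) (a1 : A (4*k-1)) (b1 : A (6*k-2))
    (e0 : N k A (2)) (e1 : N k A (k)) (e2 : N k A (k+2)) : False := by
  have hk := H.hk
  rcases e0 with w0|w0|w0|w0|w0
  · exact H.ind _ _ w0 b0 (f1 (by omega))
  · exact H.ind _ _ w0 a1 (f2 (by omega))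
  · exact H.ind _ _ w0 b1 (f2 (by omega))
  · rcases e1 with w1|w1|w1|w1|w1
    · exact H.ind _ _ w1 a1 (f4 (by omega))
    · exact H.ind _ _ a0 w1 (f4 (by omega))
    · exact H.ind _ _ b0 w1 (f4 (by omega))
    · rcases e2 with w2|w2|w2|w2|w2
      · exact H.ind _ _ w2 a1 (f3 (by omega))
      · exact H.ind _ _ w2 b1 (f3 (by omega))
      · exact H.ind _ _ w2 w1 (f1 (by omega))
      · exact H.ind _ _ a0 w2 (f8 (by omega))
      · exact H.ind _ _ b0 w2 (f8 (by omega))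
    · exact H.ind _ _ w0 w1 (f3 (by omega))
  · exact H.ind _ _ a0 w0 (f10 (by omega))

theorem refE4 {k : ℤ} {A : ℤ → Prop} (H : Hyp k A)  (a0 : A (0)) (b0 : A (2*k-1)) (a1 : A (4*k)) (b1 : A (6*k-1))
    (e0 : N k A (1)) (e1 : N k A (k)) (e2 : N k A (k+1)) : False := by
  have hk := H.hk
  rcases e1 with w0|w0|w0|w0|w0
  · rcases e0 with w1|w1|w1|w1|w1
    · exact H.ind _ _ w1 b0 (f2 (by omega))
    · rcases e2 with w2|w2|w2|w2|w2
      · exact H.ind _ _ w2 a1 (f4 (by omega))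
      · exact H.ind _ _ w2 b1 (f4 (by omega))
      · exact H.ind _ _ w1 w2 (f4 (by omega))
      · exact H.ind _ _ a0 w2 (f8 (by omega))
      · exact H.ind _ _ b0 w2 (f8 (by omega))
    · exact H.ind _ _ w0 w1 (f4 (by omega))
    · exact H.ind _ _ a1 w1 (f2 (by omega))
    · exact H.ind _ _ a0 w1 (f9 (by omega))
  · exact H.ind _ _ a0 w0 (f4 (by omega))
  · exact H.ind _ _ b0 w0 (f4 (by omega))
  · exact H.ind _ _ a1 w0 (f3 (by omega))
  · exact H.ind _ _ b1 w0 (f3 (by omega))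

theorem refK1 {k : ℤ} {A : ℤ → Prop} (H : Hyp k A)  (a0 : A (0)) (b0 : A (2*k-1)) (a1 : A (k-1)) (b1 : A (3*k-2))
    (e0 : N k A (2*k-2)) (e1 : N k A (2*k-3)) (e2 : N k A (2*k-5)) : False := by
  have hk := H.hk
  rcases e0 with w0|w0|w0|w0|w0
  · exact H.ind _ _ a0 w0 (f2 (by omega))
  · exact H.ind _ _ b0 w0 (f2 (by omega))
  · rcases e1 with w1|w1|w1|w1|w1
    · exact H.ind _ _ a0 w1 (f1 (by omega))
    · exact H.ind _ _ b0 w1 (f1 (by omega))
    · exact H.ind _ _ b1 w1 (f3 (by omega))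
    · exact H.ind _ _ w0 w1 (f2 (by omega))
    · rcases e2 with w2|w2|w2|w2|w2
      · exact H.ind _ _ w2 w1 (f10 (by omega))
      · exact H.ind _ _ a1 w2 (f3 (by omega))
      · exact H.ind _ _ b1 w2 (f3 (by omega))
      · exact H.ind _ _ a0 w2 (f8 (by omega))
      · exact H.ind _ _ b0 w2 (f8 (by omega))
  · exact H.ind _ _ a1 w0 (f7 (by omega))
  · exact H.ind _ _ b1 w0 (f7 (by omega))

theorem refK2 {k : ℤ} {A : ℤ → Prop} (H : Hyp k A)  (a0 : A (0)) (b0 : A (2*k-1)) (a1 : A (3*k-2)) (b1 : A (5*k-3))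
    (e0 : N k A (2*k-2)) (e1 : N k A (2*k-3)) (e2 : N k A (2*k-5)) : False := by
  have hk := H.hk
  rcases e1 with w0|w0|w0|w0|w0
  · exact H.ind _ _ a0 w0 (f1 (by omega))
  · exact H.ind _ _ b0 w0 (f1 (by omega))
  · exact H.ind _ _ a1 w0 (f3 (by omega))
  · exact H.ind _ _ b1 w0 (f3 (by omega))
  · rcases e0 with w1|w1|w1|w1|w1
    · exact H.ind _ _ a0 w1 (f2 (by omega))
    · exact H.ind _ _ b0 w1 (f2 (by omega))
    · rcases e2 with w2|w2|w2|w2|w2
      · exact H.ind _ _ w2 w0 (f10 (by omega))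
      · exact H.ind _ _ w2 w1 (f3 (by omega))
      · exact H.ind _ _ a1 w2 (f3 (by omega))
      · exact H.ind _ _ a0 w2 (f8 (by omega))
      · exact H.ind _ _ b0 w2 (f8 (by omega))
    · exact H.ind _ _ w1 w0 (f2 (by omega))
    · exact H.ind _ _ a1 w1 (f7 (by omega))

theorem refS1 {k : ℤ} {A : ℤ → Prop} (H : Hyp k A)  (a0 : A (0)) (b0 : A (2*k-1)) (a1 : A (k+1)) (b1 : A (3*k))
    (e0 : N k A (2)) (e1 : N k A (3)) (e2 : N k A (k+2)) : False := by
  have hk := H.hk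
  rcases e0 with w0|w0|w0|w0|w0
  · exact H.ind _ _ w0 b0 (f1 (by omega))
  · rcases e1 with w1|w1|w1|w1|w1
    · exact H.ind _ _ w1 b1 (f3 (by omega))
    · exact H.ind _ _ a0 w1 (f3 (by omega))
    · exact H.ind _ _ b0 w1 (f3 (by omega))
    · rcases e2 with w2|w2|w2|w2|w2
      · exact H.ind _ _ w2 b1 (f2 (by omega))
      · exact H.ind _ _ w2 w1 (f4 (by omega))
      · exact H.ind _ _ w0 w2 (f4 (by omega))
      · exact H.ind _ _ a0 w2 (f8 (by omega))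
      · exact H.ind _ _ b0 w2 (f8 (by omega))
    · exact H.ind _ _ a1 w1 (f8 (by omega))
  · exact H.ind _ _ a1 w0 (f4 (by omega))
  · exact H.ind _ _ b1 w0 (f4 (by omega))
  · exact H.ind _ _ a0 w0 (f10 (by omega))

theorem refM1 {k : ℤ} {A : ℤ → Prop} (H : Hyp k A)  (a0 : A (0)) (b0 : A (2*k-1)) (a1 : A (3*k)) (b1 : A (5*k-1))
    (e0 : N k A (2)) (e1 : N k A (k+2)) (e2 : N k A (k+4)) : False := by
  have hk := H.hk
  rcases e1 with w0|w0|w0|w0|w0
  · exact H.ind _ _ w0 a1 (f2 (by omega))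
  · exact H.ind _ _ w0 b1 (f2 (by omega))
  · rcases e0 with w1|w1|w1|w1|w1
    · exact H.ind _ _ w1 b0 (f1 (by omega))
    · exact H.ind _ _ w1 w0 (f4 (by omega))
    · rcases e2 with w2|w2|w2|w2|w2
      · exact H.ind _ _ w2 w1 (f3 (by omega))
      · exact H.ind _ _ w2 w0 (f1 (by omega))
      · exact H.ind _ _ a1 w2 (f3 (by omega))
      · exact H.ind _ _ a0 w2 (f8 (by omega))
      · exact H.ind _ _ b0 w2 (f8 (by omega))
    · exact H.ind _ _ a1 w1 (f4 (by omega))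
    · exact H.ind _ _ a0 w1 (f10 (by omega))
  · exact H.ind _ _ a0 w0 (f8 (by omega))
  · exact H.ind _ _ b0 w0 (f8 (by omega))

theorem refS2 {k : ℤ} {A : ℤ → Prop} (H : Hyp k A)  (a0 : A (0)) (b0 : A (2*k-1)) (a1 : A (k+2)) (b1 : A (3*k+1))
    (e0 : N k A (1)) (e1 : N k A (3)) (e2 : N k A (4)) : False := by
  have hk := H.hk
  rcases e0 with w0|w0|w0|w0|w0
  · exact H.ind _ _ w0 b0 (f2 (by omega))
  · rcases e1 with w1|w1|w1|w1|w1
    · exact H.ind _ _ w1 w0 (f1 (by omega))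
    · exact H.ind _ _ a0 w1 (f3 (by omega))
    · exact H.ind _ _ b0 w1 (f3 (by omega))
    · exact H.ind _ _ b1 w1 (f4 (by omega))
    · rcases e2 with w2|w2|w2|w2|w2
      · exact H.ind _ _ w2 b1 (f3 (by omega))
      · exact H.ind _ _ a0 w2 (f3 (by omega))
      · exact H.ind _ _ b0 w2 (f3 (by omega))
      · exact H.ind _ _ w2 w1 (f2 (by omega))
      · exact H.ind _ _ a1 w2 (f8 (by omega))
  · exact H.ind _ _ a1 w0 (f3 (by omega))
  · exact H.ind _ _ b1 w0 (f3 (by omega))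
  · exact H.ind _ _ a0 w0 (f9 (by omega))

theorem refM2 {k : ℤ} {A : ℤ → Prop} (H : Hyp k A)  (a0 : A (0)) (b0 : A (2*k-1)) (a1 : A (3*k+1)) (b1 : A (5*k))
    (e0 : N k A (1)) (e1 : N k A (3)) (e2 : N k A (4)) : False := by
  have hk := H.hk
  rcases e1 with w0|w0|w0|w0|w0
  · rcases e0 with w1|w1|w1|w1|w1
    · exact H.ind _ _ w1 b0 (f2 (by omega))
    · exact H.ind _ _ w0 w1 (f1 (by omega))
    · rcases e2 with w2|w2|w2|w2|w2
      · exact H.ind _ _ w2 a1 (f3 (by omega))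
      · exact H.ind _ _ a0 w2 (f3 (by omega))
      · exact H.ind _ _ b0 w2 (f3 (by omega))
      · exact H.ind _ _ w1 w2 (f3 (by omega))
      · exact H.ind _ _ w0 w2 (f9 (by omega))
    · exact H.ind _ _ a1 w1 (f3 (by omega))
    · exact H.ind _ _ a0 w1 (f9 (by omega))
  · exact H.ind _ _ a0 w0 (f3 (by omega))
  · exact H.ind _ _ b0 w0 (f3 (by omega))
  · exact H.ind _ _ a1 w0 (f4 (by omega))
  · exact H.ind _ _ b1 w0 (f4 (by omega))

theorem refS3 {k : ℤ} {A : ℤ → Prop} (H : Hyp k A)  (a0 : A (0)) (b0 : A (2*k-1)) (a1 : A (k+3)) (b1 : A (3*k+2))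
    (e0 : N k A (2)) (e1 : N k A (4)) (e2 : N k A (5)) : False := by
  have hk := H.hk
  rcases e0 with w0|w0|w0|w0|w0
  · exact H.ind _ _ w0 b0 (f1 (by omega))
  · rcases e1 with w1|w1|w1|w1|w1
    · exact H.ind _ _ w1 w0 (f1 (by omega))
    · exact H.ind _ _ a0 w1 (f3 (by omega))
    · exact H.ind _ _ b0 w1 (f3 (by omega))
    · exact H.ind _ _ b1 w1 (f4 (by omega))
    · rcases e2 with w2|w2|w2|w2|w2
      · exact H.ind _ _ w2 b1 (f3 (by omega))
      · exact H.ind _ _ a0 w2 (f3 (by omega))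
      · exact H.ind _ _ b0 w2 (f3 (by omega))
      · exact H.ind _ _ w2 w1 (f2 (by omega))
      · exact H.ind _ _ a1 w2 (f8 (by omega))
  · exact H.ind _ _ a1 w0 (f3 (by omega))
  · exact H.ind _ _ b1 w0 (f3 (by omega))
  · exact H.ind _ _ a0 w0 (f10 (by omega))

theorem refM3 {k : ℤ} {A : ℤ → Prop} (H : Hyp k A)  (a0 : A (0)) (b0 : A (2*k-1)) (a1 : A (3*k+2)) (b1 : A (5*k+1))
    (e0 : N k A (2)) (e1 : N k A (4)) (e2 : N k A (5)) : False := by
  have hk := H.hk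
  rcases e1 with w0|w0|w0|w0|w0
  · rcases e0 with w1|w1|w1|w1|w1
    · exact H.ind _ _ w1 b0 (f1 (by omega))
    · exact H.ind _ _ w0 w1 (f1 (by omega))
    · rcases e2 with w2|w2|w2|w2|w2
      · exact H.ind _ _ w2 a1 (f3 (by omega))
      · exact H.ind _ _ a0 w2 (f3 (by omega))
      · exact H.ind _ _ b0 w2 (f3 (by omega))
      · exact H.ind _ _ w1 w2 (f3 (by omega))
      · exact H.ind _ _ w0 w2 (f9 (by omega))
    · exact H.ind _ _ a1 w1 (f3 (by omega))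
    · exact H.ind _ _ a0 w1 (f10 (by omega))
  · exact H.ind _ _ a0 w0 (f3 (by omega))
  · exact H.ind _ _ b0 w0 (f3 (by omega))
  · exact H.ind _ _ a1 w0 (f4 (by omega))
  · exact H.ind _ _ b1 w0 (f4 (by omega))

theorem refS4 {k : ℤ} {A : ℤ → Prop} (H : Hyp k A)  (a0 : A (0)) (b0 : A (2*k-1)) (a1 : A (k+4)) (b1 : A (3*k+3))
    (e0 : N k A (1)) (e1 : N k A (3)) (e2 : N k A (4)) : False := by
  have hk := H.hk
  rcases e0 with w0|w0|w0|w0|w0
  · exact H.ind _ _ w0 b0 (f2 (by omega))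
  · rcases e1 with w1|w1|w1|w1|w1
    · exact H.ind _ _ w1 w0 (f1 (by omega))
    · exact H.ind _ _ a0 w1 (f3 (by omega))
    · exact H.ind _ _ b0 w1 (f3 (by omega))
    · exact H.ind _ _ b1 w1 (f3 (by omega))
    · rcases e2 with w2|w2|w2|w2|w2
      · exact H.ind _ _ w2 b1 (f4 (by omega))
      · exact H.ind _ _ a0 w2 (f3 (by omega))
      · exact H.ind _ _ b0 w2 (f3 (by omega))
      · exact H.ind _ _ w2 w1 (f2 (by omega))
      · exact H.ind _ _ a1 w2 (f7 (by omega))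
  · exact H.ind _ _ a1 w0 (f3 (by omega))
  · exact H.ind _ _ b1 w0 (f3 (by omega))
  · exact H.ind _ _ a0 w0 (f9 (by omega))

theorem refM4 {k : ℤ} {A : ℤ → Prop} (H : Hyp k A)  (a0 : A (0)) (b0 : A (2*k-1)) (a1 : A (3*k+3)) (b1 : A (5*k+2))
    (e0 : N k A (1)) (e1 : N k A (3)) (e2 : N k A (4)) : False := by
  have hk := H.hk
  rcases e1 with w0|w0|w0|w0|w0
  · rcases e0 with w1|w1|w1|w1|w1
    · exact H.ind _ _ w1 b0 (f2 (by omega))
    · exact H.ind _ _ w0 w1 (f1 (by omega))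
    · rcases e2 with w2|w2|w2|w2|w2
      · exact H.ind _ _ w2 a1 (f4 (by omega))
      · exact H.ind _ _ a0 w2 (f3 (by omega))
      · exact H.ind _ _ b0 w2 (f3 (by omega))
      · exact H.ind _ _ w1 w2 (f3 (by omega))
      · exact H.ind _ _ w0 w2 (f9 (by omega))
    · exact H.ind _ _ a1 w1 (f3 (by omega))
    · exact H.ind _ _ a0 w1 (f9 (by omega))
  · exact H.ind _ _ a0 w0 (f3 (by omega))
  · exact H.ind _ _ b0 w0 (f3 (by omega))
  · exact H.ind _ _ a1 w0 (f3 (by omega))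
  · exact H.ind _ _ b1 w0 (f3 (by omega))

theorem refS5 {k : ℤ} {A : ℤ → Prop} (H : Hyp k A) (hk' : 9 ≤ k) (a0 : A (0)) (b0 : A (2*k-1)) (a1 : A (k+5)) (b1 : A (3*k+4))
    (e0 : N k A (1)) (e1 : N k A (3)) (e2 : N k A (5)) : False := by
  have hk := H.hk
  rcases e0 with w0|w0|w0|w0|w0
  · exact H.ind _ _ w0 b0 (f2 (by omega))
  · rcases e1 with w1|w1|w1|w1|w1
    · exact H.ind _ _ w1 w0 (f1 (by omega))
    · exact H.ind _ _ a0 w1 (f3 (by omega))
    · exact H.ind _ _ b0 w1 (f3 (by omega))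
    · exact H.ind _ _ b1 w1 (f3 (by omega))
    · rcases e2 with w2|w2|w2|w2|w2
      · exact H.ind _ _ w2 b1 (f4 (by omega))
      · exact H.ind _ _ a0 w2 (f3 (by omega))
      · exact H.ind _ _ b0 w2 (f3 (by omega))
      · exact H.ind _ _ w2 w1 (f1 (by omega))
      · exact H.ind _ _ a1 w2 (f7 (by omega))
  · exact H.ind _ _ a1 w0 (f3 (by omega))
  · exact H.ind _ _ b1 w0 (f3 (by omega))
  · exact H.ind _ _ a0 w0 (f9 (by omega))

theorem refM5 {k : ℤ} {A : ℤ → Prop} (H : Hyp k A) (hk' : 9 ≤ k) (a0 : A (0)) (b0 : A (2*k-1)) (a1 : A (3*k+4)) (b1 : A (5*k+3))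
    (e0 : N k A (1)) (e1 : N k A (3)) (e2 : N k A (5)) : False := by
  have hk := H.hk
  rcases e1 with w0|w0|w0|w0|w0
  · rcases e0 with w1|w1|w1|w1|w1
    · exact H.ind _ _ w1 b0 (f2 (by omega))
    · exact H.ind _ _ w0 w1 (f1 (by omega))
    · rcases e2 with w2|w2|w2|w2|w2
      · exact H.ind _ _ w2 a1 (f4 (by omega))
      · exact H.ind _ _ a0 w2 (f3 (by omega))
      · exact H.ind _ _ b0 w2 (f3 (by omega))
      · exact H.ind _ _ w1 w2 (f3 (by omega))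
      · exact H.ind _ _ w0 w2 (f10 (by omega))
    · exact H.ind _ _ a1 w1 (f3 (by omega))
    · exact H.ind _ _ a0 w1 (f9 (by omega))
  · exact H.ind _ _ a0 w0 (f3 (by omega))
  · exact H.ind _ _ b0 w0 (f3 (by omega))
  · exact H.ind _ _ a1 w0 (f3 (by omega))
  · exact H.ind _ _ b1 w0 (f3 (by omega))

theorem refS6 {k : ℤ} {A : ℤ → Prop} (H : Hyp k A) (hk' : 10 ≤ k) (a0 : A (0)) (b0 : A (2*k-1)) (a1 : A (k+6)) (b1 : A (3*k+5))
    (e0 : N k A (2)) (e1 : N k A (4)) (e2 : N k A (6)) : False := by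
  have hk := H.hk
  rcases e0 with w0|w0|w0|w0|w0
  · exact H.ind _ _ w0 b0 (f1 (by omega))
  · rcases e1 with w1|w1|w1|w1|w1
    · exact H.ind _ _ w1 w0 (f1 (by omega))
    · exact H.ind _ _ a0 w1 (f3 (by omega))
    · exact H.ind _ _ b0 w1 (f3 (by omega))
    · exact H.ind _ _ b1 w1 (f3 (by omega))
    · rcases e2 with w2|w2|w2|w2|w2
      · exact H.ind _ _ w2 b1 (f4 (by omega))
      · exact H.ind _ _ a0 w2 (f3 (by omega))
      · exact H.ind _ _ b0 w2 (f3 (by omega))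
      · exact H.ind _ _ w2 w1 (f1 (by omega))
      · exact H.ind _ _ a1 w2 (f7 (by omega))
  · exact H.ind _ _ a1 w0 (f3 (by omega))
  · exact H.ind _ _ b1 w0 (f3 (by omega))
  · exact H.ind _ _ a0 w0 (f10 (by omega))

theorem refM6 {k : ℤ} {A : ℤ → Prop} (H : Hyp k A) (hk' : 10 ≤ k) (a0 : A (0)) (b0 : A (2*k-1)) (a1 : A (3*k+5)) (b1 : A (5*k+4))
    (e0 : N k A (2)) (e1 : N k A (4)) (e2 : N k A (6)) : False := by
  have hk := H.hk
  rcases e1 with w0|w0|w0|w0|w0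
  · rcases e0 with w1|w1|w1|w1|w1
    · exact H.ind _ _ w1 b0 (f1 (by omega))
    · exact H.ind _ _ w0 w1 (f1 (by omega))
    · rcases e2 with w2|w2|w2|w2|w2
      · exact H.ind _ _ w2 a1 (f4 (by omega))
      · exact H.ind _ _ a0 w2 (f3 (by omega))
      · exact H.ind _ _ b0 w2 (f3 (by omega))
      · exact H.ind _ _ w1 w2 (f3 (by omega))
      · exact H.ind _ _ w0 w2 (f10 (by omega))
    · exact H.ind _ _ a1 w1 (f3 (by omega))
    · exact H.ind _ _ a0 w1 (f10 (by omega))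
  · exact H.ind _ _ a0 w0 (f3 (by omega))
  · exact H.ind _ _ b0 w0 (f3 (by omega))
  · exact H.ind _ _ a1 w0 (f3 (by omega))
  · exact H.ind _ _ b1 w0 (f3 (by omega))

theorem refS7 {k : ℤ} {A : ℤ → Prop} (H : Hyp k A) (hk' : 11 ≤ k) (a0 : A (0)) (b0 : A (2*k-1)) (a1 : A (k+7)) (b1 : A (3*k+6))
    (e0 : N k A (1)) (e1 : N k A (3)) (e2 : N k A (6)) (e3 : N k A (7)) : False := by
  have hk := H.hk
  rcases e0 with w0|w0|w0|w0|w0
  · exact H.ind _ _ w0 b0 (f2 (by omega))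
  · rcases e1 with w1|w1|w1|w1|w1
    · exact H.ind _ _ w1 w0 (f1 (by omega))
    · exact H.ind _ _ a0 w1 (f3 (by omega))
    · exact H.ind _ _ b0 w1 (f3 (by omega))
    · exact H.ind _ _ b1 w1 (f3 (by omega))
    · rcases e2 with w2|w2|w2|w2|w2
      · exact H.ind _ _ w2 w1 (f8 (by omega))
      · exact H.ind _ _ a0 w2 (f3 (by omega))
      · exact H.ind _ _ b0 w2 (f3 (by omega))
      · exact H.ind _ _ b1 w2 (f3 (by omega))
      · rcases e3 with w3|w3|w3|w3|w3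
        · exact H.ind _ _ w3 b1 (f4 (by omega))
        · exact H.ind _ _ a0 w3 (f3 (by omega))
        · exact H.ind _ _ b0 w3 (f3 (by omega))
        · exact H.ind _ _ w3 w2 (f2 (by omega))
        · exact H.ind _ _ a1 w3 (f7 (by omega))
  · exact H.ind _ _ a1 w0 (f3 (by omega))
  · exact H.ind _ _ b1 w0 (f3 (by omega))
  · exact H.ind _ _ a0 w0 (f9 (by omega))

theorem refM7 {k : ℤ} {A : ℤ → Prop} (H : Hyp k A) (hk' : 11 ≤ k) (a0 : A (0)) (b0 : A (2*k-1)) (a1 : A (3*k+6)) (b1 : A (5*k+5))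
    (e0 : N k A (1)) (e1 : N k A (3)) (e2 : N k A (5)) (e3 : N k A (7)) : False := by
  have hk := H.hk
  rcases e1 with w0|w0|w0|w0|w0
  · rcases e0 with w1|w1|w1|w1|w1
    · exact H.ind _ _ w1 b0 (f2 (by omega))
    · exact H.ind _ _ w0 w1 (f1 (by omega))
    · rcases e2 with w2|w2|w2|w2|w2
      · rcases e3 with w3|w3|w3|w3|w3
        · exact H.ind _ _ w3 a1 (f4 (by omega))
        · exact H.ind _ _ a0 w3 (f3 (by omega))
        · exact H.ind _ _ b0 w3 (f3 (by omega))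
        · exact H.ind _ _ w1 w3 (f3 (by omega))
        · exact H.ind _ _ w2 w3 (f10 (by omega))
      · exact H.ind _ _ a0 w2 (f3 (by omega))
      · exact H.ind _ _ b0 w2 (f3 (by omega))
      · exact H.ind _ _ a1 w2 (f3 (by omega))
      · exact H.ind _ _ b1 w2 (f3 (by omega))
    · exact H.ind _ _ a1 w1 (f3 (by omega))
    · exact H.ind _ _ a0 w1 (f9 (by omega))
  · exact H.ind _ _ a0 w0 (f3 (by omega))
  · exact H.ind _ _ b0 w0 (f3 (by omega))
  · exact H.ind _ _ a1 w0 (f3 (by omega))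
  · exact H.ind _ _ b1 w0 (f3 (by omega))

theorem refS8 {k y : ℤ} {A : ℤ → Prop} (H : Hyp k A) (hy1 : k+8 ≤ y) (hy2 : y ≤ 2*k-4) (a0 : A (0)) (b0 : A (2*k-1)) (a1 : A (y)) (b1 : A (2*k+y-1))
    (e0 : N k A (1)) (e1 : N k A (3)) (e2 : N k A (-k+y-2)) (e3 : N k A (-k+y)) : False := by
  have hk := H.hk
  rcases e0 with w0|w0|w0|w0|w0
  · exact H.ind _ _ w0 b0 (f2 (by omega))
  · rcases e1 with w1|w1|w1|w1|w1
    · exact H.ind _ _ w1 w0 (f1 (by omega))
    · exact H.ind _ _ a0 w1 (f3 (by omega))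
    · exact H.ind _ _ b0 w1 (f3 (by omega))
    · exact H.ind _ _ b1 w1 (f3 (by omega))
    · rcases e2 with w2|w2|w2|w2|w2
      · exact H.ind _ _ w2 w1 (f8 (by omega))
      · exact H.ind _ _ a0 w2 (f3 (by omega))
      · exact H.ind _ _ b0 w2 (f3 (by omega))
      · exact H.ind _ _ b1 w2 (f3 (by omega))
      · rcases e3 with w3|w3|w3|w3|w3
        · exact H.ind _ _ w3 b1 (f4 (by omega))
        · exact H.ind _ _ a0 w3 (f3 (by omega))
        · exact H.ind _ _ b0 w3 (f3 (by omega))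
        · exact H.ind _ _ w3 w2 (f1 (by omega))
        · exact H.ind _ _ a1 w3 (f7 (by omega))
  · exact H.ind _ _ a1 w0 (f3 (by omega))
  · exact H.ind _ _ b1 w0 (f3 (by omega))
  · exact H.ind _ _ a0 w0 (f9 (by omega))

theorem refM8 {k y : ℤ} {A : ℤ → Prop} (H : Hyp k A) (hy1 : 3*k+7 ≤ y) (hy2 : y ≤ 4*k-5) (a0 : A (0)) (b0 : A (2*k-1)) (a1 : A (y)) (b1 : A (2*k+y-1))
    (e0 : N k A (1)) (e1 : N k A (3)) (e2 : N k A (-3*k+y-1)) (e3 : N k A (-3*k+y+1)) : False := by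
  have hk := H.hk
  rcases e1 with w0|w0|w0|w0|w0
  · rcases e0 with w1|w1|w1|w1|w1
    · exact H.ind _ _ w1 b0 (f2 (by omega))
    · exact H.ind _ _ w0 w1 (f1 (by omega))
    · rcases e2 with w2|w2|w2|w2|w2
      · rcases e3 with w3|w3|w3|w3|w3
        · exact H.ind _ _ w3 a1 (f4 (by omega))
        · exact H.ind _ _ a0 w3 (f3 (by omega))
        · exact H.ind _ _ b0 w3 (f3 (by omega))
        · exact H.ind _ _ w1 w3 (f3 (by omega))
        · exact H.ind _ _ w2 w3 (f10 (by omega))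
      · exact H.ind _ _ a0 w2 (f3 (by omega))
      · exact H.ind _ _ b0 w2 (f3 (by omega))
      · exact H.ind _ _ a1 w2 (f3 (by omega))
      · exact H.ind _ _ b1 w2 (f3 (by omega))
    · exact H.ind _ _ a1 w1 (f3 (by omega))
    · exact H.ind _ _ a0 w1 (f9 (by omega))
  · exact H.ind _ _ a0 w0 (f3 (by omega))
  · exact H.ind _ _ b0 w0 (f3 (by omega))
  · exact H.ind _ _ a1 w0 (f3 (by omega))
  · exact H.ind _ _ b1 w0 (f3 (by omega))

theorem refT1 {k : ℤ} {A : ℤ → Prop} (H : Hyp k A)  (a0 : A (0)) (b0 : A (2*k-1)) (a1 : A (2*k)) (b1 : A (4*k-1)) (a2 : A (4*k)) (b2 : A (6*k-1))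
    (e0 : N k A (k)) : False := by
  have hk := H.hk
  rcases e0 with w0|w0|w0|w0|w0
  · exact H.ind _ _ w0 b1 (f4 (by omega))
  · exact H.ind _ _ a0 w0 (f4 (by omega))
  · exact H.ind _ _ b0 w0 (f4 (by omega))
  · exact H.ind _ _ a2 w0 (f3 (by omega))
  · exact H.ind _ _ a1 w0 (f7 (by omega))

theorem refT2 {k : ℤ} {A : ℤ → Prop} (H : Hyp k A)  (a0 : A (0)) (b0 : A (2*k-1)) (a1 : A (2*k)) (b1 : A (4*k-1)) (a2 : A (4*k)) (b2 : A (6*k-1))
    (e0 : N k A (k+1)) : False := by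
  have hk := H.hk
  rcases e0 with w0|w0|w0|w0|w0
  · exact H.ind _ _ w0 a2 (f4 (by omega))
  · exact H.ind _ _ w0 b2 (f4 (by omega))
  · exact H.ind _ _ a1 w0 (f4 (by omega))
  · exact H.ind _ _ a0 w0 (f8 (by omega))
  · exact H.ind _ _ b0 w0 (f8 (by omega))

end Pool.Agent.R792.Circ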