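import Pool.Agent.R792.Circ.Base

namespace Pool.Agent.R792.Circ

theorem ref8a {k : ℤ} {A : ℤ → Prop} (H : Hyp k A) (hk8 : k = 8) (a0 : A (0)) (b0 : A (2*k-1)) (a1 : A (7)) (b1 : A (2*k+6))
    (e0 : N k A (8)) (e1 : N k A (9)) (e2 : N k A (10)) : False := by
  have hk := H.hk
  rcases e0 with w0|w0|w0|w0|w0
  · exact H.ind _ _ w0 b1 (f2 (by omega))
  · exact H.ind _ _ a0 w0 (f4 (by omega))
  · exact H.ind _ _ b0 w0 (f4 (by omega))
  · rcases e1 with w1|w1|w1|w1|w1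
    · exact H.ind _ _ w1 b1 (f1 (by omega))
    · rcases e2 with w2|w2|w2|w2|w2
      · exact H.ind _ _ w2 w1 (f2 (by omega))
      · exact H.ind _ _ a1 w2 (f3 (by omega))
      · exact H.ind _ _ b1 w2 (f3 (by omega))
      · exact H.ind _ _ a0 w2 (f8 (by omega))
      · exact H.ind _ _ b0 w2 (f8 (by omega))
    · exact H.ind _ _ w1 w0 (f2 (by omega))
    · exact H.ind _ _ a0 w1 (f8 (by omega))
    · exact H.ind _ _ b0 w1 (f8 (by omega))
  · exact H.ind _ _ a1 w0 (f9 (by omega))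

theorem ref8b {k : ℤ} {A : ℤ → Prop} (H : Hyp k A) (hk8 : k = 8) (a0 : A (0)) (b0 : A (2*k-1)) (a1 : A (7)) (b1 : A (2*k+6))
    (e0 : N k A (11)) (e1 : N k A (13)) (e2 : N k A (14)) : False := by
  have hk := H.hk
  rcases e0 with w0|w0|w0|w0|w0
  · rcases e1 with w1|w1|w1|w1|w1
    · exact H.ind _ _ a0 w1 (f1 (by omega))
    · exact H.ind _ _ b0 w1 (f1 (by omega))
    · exact H.ind _ _ b1 w1 (f3 (by omega))
    · rcases e2 with w2|w2|w2|w2|w2
      · exact H.ind _ _ a0 w2 (f2 (by omega))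
      · exact H.ind _ _ b0 w2 (f2 (by omega))
      · exact H.ind _ _ w2 w1 (f2 (by omega))
      · exact H.ind _ _ a1 w2 (f7 (by omega))
      · exact H.ind _ _ b1 w2 (f7 (by omega))
    · exact H.ind _ _ w0 w1 (f10 (by omega))
  · exact H.ind _ _ a1 w0 (f3 (by omega))
  · exact H.ind _ _ b1 w0 (f3 (by omega))
  · exact H.ind _ _ a0 w0 (f8 (by omega))
  · exact H.ind _ _ b0 w0 (f8 (by omega))

theorem ref8c {k : ℤ} {A : ℤ → Prop} (H : Hyp k A) (hk8 : k = 8) (a0 : A (0)) (b0 : A (2*k-1)) (a1 : A (22)) (b1 : A (2*k+21))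
    (e0 : N k A (8)) (e1 : N k A (9)) (e2 : N k A (11)) : False := by
  have hk := H.hk
  rcases e1 with w0|w0|w0|w0|w0
  · exact H.ind _ _ w0 a1 (f1 (by omega))
  · exact H.ind _ _ w0 b1 (f1 (by omega))
  · rcases e0 with w1|w1|w1|w1|w1
    · exact H.ind _ _ w1 a1 (f2 (by omega))
    · exact H.ind _ _ a0 w1 (f4 (by omega))
    · exact H.ind _ _ b0 w1 (f4 (by omega))
    · exact H.ind _ _ w0 w1 (f2 (by omega))
    · rcases e2 with w2|w2|w2|w2|w2
      · exact H.ind _ _ w2 w1 (f8 (by omega))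
      · exact H.ind _ _ w2 w0 (f1 (by omega))
      · exact H.ind _ _ a1 w2 (f3 (by omega))
      · exact H.ind _ _ a0 w2 (f8 (by omega))
      · exact H.ind _ _ b0 w2 (f8 (by omega))
  · exact H.ind _ _ a0 w0 (f8 (by omega))
  · exact H.ind _ _ b0 w0 (f8 (by omega))

theorem ref8d {k : ℤ} {A : ℤ → Prop} (H : Hyp k A) (hk8 : k = 8) (a0 : A (0)) (b0 : A (2*k-1)) (a1 : A (22)) (b1 : A (2*k+21))
    (e0 : N k A (1)) (e1 : N k A (12)) (e2 : N k A (13)) (e3 : N k A (14)) : False := by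
  have hk := H.hk
  rcases e2 with w0|w0|w0|w0|w0
  · exact H.ind _ _ a0 w0 (f1 (by omega))
  · exact H.ind _ _ b0 w0 (f1 (by omega))
  · exact H.ind _ _ a1 w0 (f3 (by omega))
  · exact H.ind _ _ b1 w0 (f3 (by omega))
  · rcases e1 with w1|w1|w1|w1|w1
    · exact H.ind _ _ w1 w0 (f9 (by omega))
    · rcases e0 with w2|w2|w2|w2|w2
      · exact H.ind _ _ w2 b0 (f2 (by omega))
      · exact H.ind _ _ w2 b1 (f3 (by omega))
      · rcases e3 with w3|w3|w3|w3|w3
        · exact H.ind _ _ a0 w3 (f2 (by omega))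
        · exact H.ind _ _ b0 w3 (f2 (by omega))
        · exact H.ind _ _ w2 w3 (f1 (by omega))
        · exact H.ind _ _ w3 w0 (f2 (by omega))
        · exact H.ind _ _ a1 w3 (f7 (by omega))
      · exact H.ind _ _ w1 w2 (f3 (by omega))
      · exact H.ind _ _ a0 w2 (f9 (by omega))
    · exact H.ind _ _ a1 w1 (f3 (by omega))
    · exact H.ind _ _ a0 w1 (f8 (by omega))
    · exact H.ind _ _ b0 w1 (f8 (by omega))

theorem ref8e {k : ℤ} {A : ℤ → Prop} (H : Hyp k A) (hk8 : k = 8) (a0 : A (0)) (b0 : A (2*k-1)) (a1 : A (24)) (b1 : A (2*k+23))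
    (e0 : N k A (2)) (e1 : N k A (10)) (e2 : N k A (12)) : False := by
  have hk := H.hk
  rcases e1 with w0|w0|w0|w0|w0
  · exact H.ind _ _ w0 a1 (f2 (by omega))
  · exact H.ind _ _ w0 b1 (f2 (by omega))
  · rcases e0 with w1|w1|w1|w1|w1
    · exact H.ind _ _ w1 b0 (f1 (by omega))
    · exact H.ind _ _ w1 w0 (f4 (by omega))
    · rcases e2 with w2|w2|w2|w2|w2
      · exact H.ind _ _ w2 w1 (f3 (by omega))
      · exact H.ind _ _ w2 w0 (f1 (by omega))
      · exact H.ind _ _ a1 w2 (f3 (by omega))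
      · exact H.ind _ _ a0 w2 (f8 (by omega))
      · exact H.ind _ _ b0 w2 (f8 (by omega))
    · exact H.ind _ _ a1 w1 (f4 (by omega))
    · exact H.ind _ _ a0 w1 (f10 (by omega))
  · exact H.ind _ _ a0 w0 (f8 (by omega))
  · exact H.ind _ _ b0 w0 (f8 (by omega))

theorem ref8f {k : ℤ} {A : ℤ → Prop} (H : Hyp k A) (hk8 : k = 8) (a0 : A (0)) (b0 : A (2*k-1)) (a1 : A (24)) (b1 : A (2*k+23))
    (e0 : N k A (3)) (e1 : N k A (6)) (e2 : N k A (7)) (e3 : N k A (14)) : False := by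
  have hk := H.hk
  rcases e3 with w0|w0|w0|w0|w0
  · exact H.ind _ _ a0 w0 (f2 (by omega))
  · exact H.ind _ _ b0 w0 (f2 (by omega))
  · exact H.ind _ _ a1 w0 (f3 (by omega))
  · exact H.ind _ _ b1 w0 (f3 (by omega))
  · rcases e1 with w1|w1|w1|w1|w1
    · exact H.ind _ _ w1 a1 (f3 (by omega))
    · exact H.ind _ _ a0 w1 (f3 (by omega))
    · exact H.ind _ _ b0 w1 (f3 (by omega))
    · exact H.ind _ _ w1 w0 (f4 (by omega))
    · rcases e0 with w2|w2|w2|w2|w2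
      · exact H.ind _ _ w2 a1 (f3 (by omega))
      · exact H.ind _ _ a0 w2 (f3 (by omega))
      · exact H.ind _ _ b0 w2 (f3 (by omega))
      · exact H.ind _ _ w2 w1 (f3 (by omega))
      · rcases e2 with w3|w3|w3|w3|w3
        · exact H.ind _ _ w3 w2 (f8 (by omega))
        · exact H.ind _ _ w3 w0 (f7 (by omega))
        · exact H.ind _ _ a1 w3 (f1 (by omega))
        · exact H.ind _ _ a0 w3 (f7 (by omega))
        · exact H.ind _ _ b0 w3 (f7 (by omega))

end Pool.Agent.R792.Circ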