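import Pool.Agent.R792.Circ.Gap

namespace Pool.Agent.R792.Circ

structure Gaps6 (k g1 g2 g3 g4 g5 g6 : ℤ) : Prop where
  sum : g1+g2+g3+g4+g5+g6 = 10*k-5
  s1 : Zf k g1
  s2 : Zf k g2
  s3 : Zf k g3
  s4 : Zf k g4
  s5 : Zf k g5
  s6 : Zf k g6
  p1 : Zf k (g1+g2)
  p2 : Zf k (g2+g3)
  p3 : Zf k (g3+g4)
  p4 : Zf k (g4+g5)
  p5 : Zf k (g5+g6)
  p6 : Zf k (g6+g1)
  t1 : Zf k (g1+g2+g3)
  t2 : Zf k (g2+g3+g4)
  t3 : Zf k (g3+g4+g5)
  t4 : Zf k (g4+g5+g6)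
  t5 : Zf k (g5+g6+g1)
  t6 : Zf k (g6+g1+g2)

theorem Gaps6.rot {k g1 g2 g3 g4 g5 g6 : ℤ} (h : Gaps6 k g1 g2 g3 g4 g5 g6) :
    Gaps6 k g2 g3 g4 g5 g6 g1 where
  sum := by have := h.sum; omega
  s1 := h.s2
  s2 := h.s3
  s3 := h.s4
  s4 := h.s5
  s5 := h.s6
  s6 := h.s1
  p1 := h.p2
  p2 := h.p3
  p3 := h.p4
  p4 := h.p5
  p5 := h.p6
  p6 := h.p1
  t1 := h.t2
  t2 := h.t3
  t3 := h.t4
  t4 := h.t5
  t5 := h.t6
  t6 := h.t1

theorem Zpair {k a : ℤ} (hk : 8 ≤ k) (h : Zf k a) (h' : 2*k-2 ≤ a) : 2*k ≤ a := by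
  rcases h with h|h|h|h|h|h|h|h|h|h|h|h|h|h|h|h <;> omega

theorem Ztrip {k a : ℤ} (hk : 8 ≤ k) (h : Zf k a) (h' : 3*k-1 ≤ a) : 3*k ≤ a := by
  rcases h with h|h|h|h|h|h|h|h|h|h|h|h|h|h|h|h <;> omega

theorem Zno {k a : ℤ} (hk : 8 ≤ k) (h : Zf k a) (h' : a = 2*k+2) : False := by
  rcases h with h|h|h|h|h|h|h|h|h|h|h|h|h|h|h|h <;> omega

/-- Two consecutive pair sums both equal to `2k` are impossible. -/
theorem quad_aux {k a b c d : ℤ} (hk : 8 ≤ k) (ha : Zf k a) (hb : Zf k b) (hc : Zf k c)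
    (hd : Zf k d) (h1 : a + b = 2*k) (h2 : c + d = 2*k) (t1 : 3*k ≤ a+b+c) (t2 : 3*k ≤ b+c+d)
    (hbc : Zf k (b+c)) : False := by
  have A1 := (Zpos hk ha).1
  have A2 := (Zpos hk hb).1
  have A3 := (Zpos hk hc).1
  have A4 := (Zpos hk hd).1
  have hA := ZS hk ha (by omega)
  have hD := ZS hk hd (by omega)
  have e1 : a = k-1 := by omega
  have e2 : d = k-1 := by omega
  exact Zno hk hbc (by omega)

theorem quad_big {k a b c d : ℤ} (hk : 8 ≤ k) (ha : Zf k a) (hb : Zf k b) (hc : Zf k c)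
    (hd : Zf k d) (hab : Zf k (a+b)) (hbc : Zf k (b+c)) (hcd : Zf k (c+d))
    (habc : Zf k (a+b+c)) (hbcd : Zf k (b+c+d)) (hq : Zf k (a+b+c+d)) : 6*k-5 ≤ a+b+c+d := by
  have A1 := (Zpos hk ha).1
  have A2 := (Zpos hk hb).1
  have A3 := (Zpos hk hc).1
  have A4 := (Zpos hk hd).1
  have B1 := Zpair hk hab (by omega)
  have B2 := Zpair hk hbc (by omega)
  have B3 := Zpair hk hcd (by omega)
  have C1 := Ztrip hk habc (by omega)
  have C2 := Ztrip hk hbcd (by omega)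
  rcases Ztri hk hq with h|h|h
  · omega
  · exfalso
    exact quad_aux hk ha hb hc hd (by omega) (by omega) C1 C2 hbc
  · exact h

theorem six_low {k g1 g2 g3 g4 g5 g6 : ℤ} (hk : 8 ≤ k) (G : Gaps6 k g1 g2 g3 g4 g5 g6)
    (l1 : g1+g2+g3 ≤ 4*k) (l2 : g2+g3+g4 ≤ 4*k) (l3 : g3+g4+g5 ≤ 4*k) : False := by
  have sum := G.sum
  have q1 : Zf k (g1+g2+g3+g4) := by
    have := Zsymm G.p5
    rwa [show 10*k-5-(g5+g6) = g1+g2+g3+g4 by omega] at this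
  have q2 : Zf k (g2+g3+g4+g5) := by
    have := Zsymm G.p6
    rwa [show 10*k-5-(g6+g1) = g2+g3+g4+g5 by omega] at this
  have Q1 := quad_big hk G.s1 G.s2 G.s3 G.s4 G.p1 G.p2 G.p3 G.t1 G.t2 q1
  have Q2 := quad_big hk G.s2 G.s3 G.s4 G.s5 G.p2 G.p3 G.p4 G.t2 G.t3 q2
  have A3 := (Zpos hk G.s3).1
  have hk' : k ≤ 11 := by omega
  have h1 := ZS hk G.s1 (by omega)
  have h2 := ZS hk G.s2 (by omega)
  have h3 := ZS hk G.s3 (by omega)
  have P2 := Zpair hk G.p2 (by omega)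
  have h23 : g2+g3 = 2*k ∨ g2 + g3 = 2*k+1 ∨ g2+g3 = 3*k-2 ∨ 3*k ≤ g2+g3 := by
    rcases Ztri hk G.p2 with h|h|h
    · have := ZS hk G.p2 h; omega
    · have := ZM hk G.p2 (by omega) (by omega); omega
    · omega
  have h12 : g1+g2 = 3*k-2 ∨ 3*k ≤ g1+g2 := by
    rcases Ztri hk G.p1 with h|h|h
    · omega
    · have := ZM hk G.p1 (by omega) (by omega); omega
    · omega
  clear G q1 q2
  interval_cases k <;> omega

theorem six_alt {k g1 g2 g3 g4 g5 g6 : ℤ} (hk : 8 ≤ k) (G : Gaps6 k g1 g2 g3 g4 g5 g6)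
    (l1 : g1+g2+g3 ≤ 4*k) (l3 : g3+g4+g5 ≤ 4*k) (l5 : g5+g6+g1 ≤ 4*k) : False := by
  have sum := G.sum
  have A1 := (Zpos hk G.s1).1
  have A3 := (Zpos hk G.s3).1
  have A5 := (Zpos hk G.s5).1
  exact Zno hk G.s2 (by omega)

theorem six_false {k g1 g2 g3 g4 g5 g6 : ℤ} (hk : 8 ≤ k) (G : Gaps6 k g1 g2 g3 g4 g5 g6) :
    False := by
  have sum := G.sum
  have G2 := G.rot
  have G3 := G2.rot
  have G4 := G3.rot
  have G5 := G4.rot
  have G6 := G5.rot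
  have T1 := Ztri hk G.t1
  have T2 := Ztri hk G.t2
  have T3 := Ztri hk G.t3
  by_cases a1 : g1+g2+g3 ≤ 4*k
  · by_cases a2 : g2+g3+g4 ≤ 4*k
    · by_cases a3 : g3+g4+g5 ≤ 4*k
      · exact six_low hk G a1 a2 a3
      · exact six_low hk G6 (by omega) (by omega) (by omega)
    · by_cases a3 : g3+g4+g5 ≤ 4*k
      · exact six_alt hk G a1 a3 (by omega)
      · exact six_low hk G5 (by omega) (by omega) (by omega)
  · by_cases a2 : g2+g3+g4 ≤ 4*k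
    · by_cases a3 : g3+g4+g5 ≤ 4*k
      · exact six_low hk G2 (by omega) (by omega) (by omega)
      · exact six_alt hk G2 (by omega) (by omega) (by omega)
    · by_cases a3 : g3+g4+g5 ≤ 4*k
      · exact six_low hk G3 (by omega) (by omega) (by omega)
      · exact six_low hk G4 (by omega) (by omega) (by omega)

end Pool.Agent.R792.Circ
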