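import Pool.Agent.R792.Circ.Six
import Pool.Agent.R792.Circ.Ref8

namespace Pool.Agent.R792.Circ

/-- Two different fibres miss `A`. -/
def Two (k : ℤ) (A : ℤ → Prop) : Prop :=
  ∃ z1 z2 : ℤ, ¬ N k A z1 ∧ ¬ N k A z2 ∧ ¬ (2*k-1) ∣ z1 - z2

theorem ndvd {m x : ℤ} (h0 : x ≠ 0) (h1 : -m < x) (h2 : x < m) : ¬ m ∣ x := by
  intro h
  exact h0 (Int.eq_zero_of_abs_lt_dvd h (abs_lt.2 ⟨h1, h2⟩))

theorem two_of_list {k y : ℤ} {A : ℤ → Prop} (H : Hyp k A) (e : ℤ) (R : List ℤ)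
    (h0 : Pr k A 0) (hy : Pr k A y)
    (ref : ∀ B : ℤ → Prop, Hyp k B → B 0 → B (2*k-1) → B y → B (y+(2*k-1)) →
      (∀ a ∈ R, N k B a) → False)
    (hs : ∀ a ∈ R, ∀ b ∈ R, a+b-y+e*(2*k-1) ≠ 0 ∧ -(2*k-1) < a+b-y+e*(2*k-1) ∧
      a+b-y+e*(2*k-1) < 2*k-1) : Two k A := by
  have E1 : ∃ a ∈ R, ¬ N k A a := by
    by_contra hc
    push Not at hc
    exact ref A H h0.1 (tr h0.2 (by ring)) hy.1 hy.2 hc
  have E2 : ∃ b ∈ R, ¬ N k A (y+(2*k-1)-b) := by
    by_contra hc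
    push Not at hc
    refine ref (fun z => A (y+(2*k-1)-z)) (H.reflect _) (tr hy.2 (by ring)) (tr hy.1 (by ring))
      (tr h0.2 (by ring)) (tr h0.1 (by ring)) ?_
    intro a ha
    exact (N_reflect H _ _).2 (hc a ha)
  obtain ⟨a, ha, na⟩ := E1
  obtain ⟨b, hb, nb⟩ := E2
  obtain ⟨s1, s2, s3⟩ := hs a ha b hb
  refine ⟨a, _, na, nb, ?_⟩
  intro hd
  apply ndvd s1 s2 s3
  have : a + b - y + e*(2*k-1) = (a - (y+(2*k-1)-b)) + (e+1)*(2*k-1) := by ring
  rw [this]
  exact dvd_add hd (Dvd.intro_left _ rfl)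

theorem two_of_two {k y : ℤ} {A : ℤ → Prop} (H : Hyp k A) (R S : List ℤ)
    (h0 : Pr k A 0) (hy : Pr k A y)
    (ref : A 0 → A (2*k-1) → A y → A (y+(2*k-1)) → (∀ a ∈ R, N k A a) → False)
    (ref' : A 0 → A (2*k-1) → A y → A (y+(2*k-1)) → (∀ a ∈ S, N k A a) → False)
    (hs : ∀ a ∈ R, ∀ b ∈ S, a-b ≠ 0 ∧ -(2*k-1) < a-b ∧ a-b < 2*k-1) : Two k A := by
  have E1 : ∃ a ∈ R, ¬ N k A a := by
    by_contra hc
    push Not at hc
    exact ref h0.1 (tr h0.2 (by ring)) hy.1 hy.2 hc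
  have E2 : ∃ b ∈ S, ¬ N k A b := by
    by_contra hc
    push Not at hc
    exact ref' h0.1 (tr h0.2 (by ring)) hy.1 hy.2 hc
  obtain ⟨a, ha, na⟩ := E1
  obtain ⟨b, hb, nb⟩ := E2
  obtain ⟨s1, s2, s3⟩ := hs a ha b hb
  exact ⟨a, b, na, nb, ndvd s1 s2 s3⟩

theorem two_K1 {k y : ℤ} {A : ℤ → Prop} (H : Hyp k A) (h0 : Pr k A 0) (hy : Pr k A y)
    (hT : y = k-1) : Two k A := by
  have hk := H.hk
  rcases (by omega : k = 8 ∨ 9 ≤ k) with hk8|hk9
  · exact two_of_two H [8, 9, 10] [11, 13, 14] h0 hy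
      (fun b0 b1 b2 b3 hN => ref8a H hk8 b0 b1 (tr b2 (by omega)) (tr b3 (by omega)) (hN _ (by simp)) (hN _ (by simp)) (hN _ (by simp)))
      (fun b0 b1 b2 b3 hN => ref8b H hk8 b0 b1 (tr b2 (by omega)) (tr b3 (by omega)) (hN _ (by simp)) (hN _ (by simp)) (hN _ (by simp)))
      (by
        intro a ha b hb
        simp only [List.mem_cons, List.not_mem_nil, or_false] at ha hb
        rcases ha with ha|ha|ha <;> rcases hb with hb|hb|hb <;> subst ha hb <;> refine ⟨?_, ?_, ?_⟩ <;> omega)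
  · exact two_of_list H (-1) [2*k-2, 2*k-3, 2*k-5] h0 hy
      (fun B HB b0 b1 b2 b3 hN => refK1 HB b0 b1 (tr b2 (by omega)) (tr b3 (by omega)) (hN _ (by simp)) (hN _ (by simp)) (hN _ (by simp)))
      (by
        intro a ha b hb
        simp only [List.mem_cons, List.not_mem_nil, or_false] at ha hb
        rcases ha with ha|ha|ha <;> rcases hb with hb|hb|hb <;> subst ha hb <;> refine ⟨?_, ?_, ?_⟩ <;> omega)

theorem two_K2 {k y : ℤ} {A : ℤ → Prop} (H : Hyp k A) (h0 : Pr k A 0) (hy : Pr k A y)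
    (hT : y = 3*k-2) : Two k A := by
  have hk := H.hk
  rcases (by omega : k = 8 ∨ 9 ≤ k) with hk8|hk9
  · exact two_of_two H [8, 9, 11] [1, 12, 13, 14] h0 hy
      (fun b0 b1 b2 b3 hN => ref8c H hk8 b0 b1 (tr b2 (by omega)) (tr b3 (by omega)) (hN _ (by simp)) (hN _ (by simp)) (hN _ (by simp)))
      (fun b0 b1 b2 b3 hN => ref8d H hk8 b0 b1 (tr b2 (by omega)) (tr b3 (by omega)) (hN _ (by simp)) (hN _ (by simp)) (hN _ (by simp)) (hN _ (by simp)))
      (by
        intro a ha b hb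
        simp only [List.mem_cons, List.not_mem_nil, or_false] at ha hb
        rcases ha with ha|ha|ha <;> rcases hb with hb|hb|hb|hb <;> subst ha hb <;> refine ⟨?_, ?_, ?_⟩ <;> omega)
  · exact two_of_list H (0) [2*k-2, 2*k-3, 2*k-5] h0 hy
      (fun B HB b0 b1 b2 b3 hN => refK2 HB b0 b1 (tr b2 (by omega)) (tr b3 (by omega)) (hN _ (by simp)) (hN _ (by simp)) (hN _ (by simp)))
      (by
        intro a ha b hb
        simp only [List.mem_cons, List.not_mem_nil, or_false] at ha hb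
        rcases ha with ha|ha|ha <;> rcases hb with hb|hb|hb <;> subst ha hb <;> refine ⟨?_, ?_, ?_⟩ <;> omega)

theorem two_M1 {k y : ℤ} {A : ℤ → Prop} (H : Hyp k A) (h0 : Pr k A 0) (hy : Pr k A y)
    (hT : y = 3*k) : Two k A := by
  have hk := H.hk
  rcases (by omega : k = 8 ∨ 9 ≤ k) with hk8|hk9
  · exact two_of_two H [2, 10, 12] [3, 6, 7, 14] h0 hy
      (fun b0 b1 b2 b3 hN => ref8e H hk8 b0 b1 (tr b2 (by omega)) (tr b3 (by omega)) (hN _ (by simp)) (hN _ (by simp)) (hN _ (by simp)))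
      (fun b0 b1 b2 b3 hN => ref8f H hk8 b0 b1 (tr b2 (by omega)) (tr b3 (by omega)) (hN _ (by simp)) (hN _ (by simp)) (hN _ (by simp)) (hN _ (by simp)))
      (by
        intro a ha b hb
        simp only [List.mem_cons, List.not_mem_nil, or_false] at ha hb
        rcases ha with ha|ha|ha <;> rcases hb with hb|hb|hb|hb <;> subst ha hb <;> refine ⟨?_, ?_, ?_⟩ <;> omega)
  · exact two_of_list H (1) [2, k+2, k+4] h0 hy
      (fun B HB b0 b1 b2 b3 hN => refM1 HB b0 b1 (tr b2 (by omega)) (tr b3 (by omega)) (hN _ (by simp)) (hN _ (by simp)) (hN _ (by simp)))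
      (by
        intro a ha b hb
        simp only [List.mem_cons, List.not_mem_nil, or_false] at ha hb
        rcases ha with ha|ha|ha <;> rcases hb with hb|hb|hb <;> subst ha hb <;> refine ⟨?_, ?_, ?_⟩ <;> omega)

theorem two_S {k y : ℤ} {A : ℤ → Prop} (H : Hyp k A) (h0 : Pr k A 0) (hy : Pr k A y)
    (h1 : k+1 ≤ y) (h2 : y ≤ 2*k-4) : Two k A := by
  have hk := H.hk
  rcases (by omega : y = k+1 ∨ y = k+2 ∨ y = k+3 ∨ y = k+4 ∨ y = k+5 ∨ y = k+6 ∨ y = k+7 ∨ k+8 ≤ y)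
    with hT|hT|hT|hT|hT|hT|hT|hT
  · exact two_of_list H (0) [2, 3, k+2] h0 hy
      (fun B HB b0 b1 b2 b3 hN => refS1 HB b0 b1 (tr b2 (by omega)) (tr b3 (by omega)) (hN _ (by simp)) (hN _ (by simp)) (hN _ (by simp)))
      (by
        intro a ha b hb
        simp only [List.mem_cons, List.not_mem_nil, or_false] at ha hb
        rcases ha with ha|ha|ha <;> rcases hb with hb|hb|hb <;> subst ha hb <;> refine ⟨?_, ?_, ?_⟩ <;> omega)
  · exact two_of_list H (0) [1, 3, 4] h0 hy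
      (fun B HB b0 b1 b2 b3 hN => refS2 HB b0 b1 (tr b2 (by omega)) (tr b3 (by omega)) (hN _ (by simp)) (hN _ (by simp)) (hN _ (by simp)))
      (by
        intro a ha b hb
        simp only [List.mem_cons, List.not_mem_nil, or_false] at ha hb
        rcases ha with ha|ha|ha <;> rcases hb with hb|hb|hb <;> subst ha hb <;> refine ⟨?_, ?_, ?_⟩ <;> omega)
  · exact two_of_list H (0) [2, 4, 5] h0 hy
      (fun B HB b0 b1 b2 b3 hN => refS3 HB b0 b1 (tr b2 (by omega)) (tr b3 (by omega)) (hN _ (by simp)) (hN _ (by simp)) (hN _ (by simp)))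
      (by
        intro a ha b hb
        simp only [List.mem_cons, List.not_mem_nil, or_false] at ha hb
        rcases ha with ha|ha|ha <;> rcases hb with hb|hb|hb <;> subst ha hb <;> refine ⟨?_, ?_, ?_⟩ <;> omega)
  · exact two_of_list H (0) [1, 3, 4] h0 hy
      (fun B HB b0 b1 b2 b3 hN => refS4 HB b0 b1 (tr b2 (by omega)) (tr b3 (by omega)) (hN _ (by simp)) (hN _ (by simp)) (hN _ (by simp)))
      (by
        intro a ha b hb
        simp only [List.mem_cons, List.not_mem_nil, or_false] at ha hb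
        rcases ha with ha|ha|ha <;> rcases hb with hb|hb|hb <;> subst ha hb <;> refine ⟨?_, ?_, ?_⟩ <;> omega)
  · exact two_of_list H (0) [1, 3, 5] h0 hy
      (fun B HB b0 b1 b2 b3 hN => refS5 HB (by omega) b0 b1 (tr b2 (by omega)) (tr b3 (by omega)) (hN _ (by simp)) (hN _ (by simp)) (hN _ (by simp)))
      (by
        intro a ha b hb
        simp only [List.mem_cons, List.not_mem_nil, or_false] at ha hb
        rcases ha with ha|ha|ha <;> rcases hb with hb|hb|hb <;> subst ha hb <;> refine ⟨?_, ?_, ?_⟩ <;> omega)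
  · exact two_of_list H (0) [2, 4, 6] h0 hy
      (fun B HB b0 b1 b2 b3 hN => refS6 HB (by omega) b0 b1 (tr b2 (by omega)) (tr b3 (by omega)) (hN _ (by simp)) (hN _ (by simp)) (hN _ (by simp)))
      (by
        intro a ha b hb
        simp only [List.mem_cons, List.not_mem_nil, or_false] at ha hb
        rcases ha with ha|ha|ha <;> rcases hb with hb|hb|hb <;> subst ha hb <;> refine ⟨?_, ?_, ?_⟩ <;> omega)
  · exact two_of_list H (0) [1, 3, 6, 7] h0 hy
      (fun B HB b0 b1 b2 b3 hN => refS7 HB (by omega) b0 b1 (tr b2 (by omega)) (tr b3 (by omega)) (hN _ (by simp)) (hN _ (by simp)) (hN _ (by simp)) (hN _ (by simp)))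
      (by
        intro a ha b hb
        simp only [List.mem_cons, List.not_mem_nil, or_false] at ha hb
        rcases ha with ha|ha|ha|ha <;> rcases hb with hb|hb|hb|hb <;> subst ha hb <;> refine ⟨?_, ?_, ?_⟩ <;> omega)
  · exact two_of_list H (0) [1, 3, -k+y-2, -k+y] h0 hy
      (fun B HB b0 b1 b2 b3 hN => refS8 HB (by omega) (by omega) b0 b1 (tr b2 (by omega)) (tr b3 (by omega)) (hN _ (by simp)) (hN _ (by simp)) (hN _ (by simp)) (hN _ (by simp)))
      (by
        intro a ha b hb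
        simp only [List.mem_cons, List.not_mem_nil, or_false] at ha hb
        rcases ha with ha|ha|ha|ha <;> rcases hb with hb|hb|hb|hb <;> subst ha hb <;> refine ⟨?_, ?_, ?_⟩ <;> omega)

theorem two_M {k y : ℤ} {A : ℤ → Prop} (H : Hyp k A) (h0 : Pr k A 0) (hy : Pr k A y)
    (h1 : 3*k ≤ y) (h2 : y ≤ 4*k-5) : Two k A := by
  have hk := H.hk
  rcases (by omega : y = 3*k ∨ y = 3*k+1 ∨ y = 3*k+2 ∨ y = 3*k+3 ∨ y = 3*k+4 ∨ y = 3*k+5 ∨ y = 3*k+6 ∨ 3*k+7 ≤ y)
    with hT|hT|hT|hT|hT|hT|hT|hT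
  · exact two_M1 H h0 hy hT
  · exact two_of_list H (1) [1, 3, 4] h0 hy
      (fun B HB b0 b1 b2 b3 hN => refM2 HB b0 b1 (tr b2 (by omega)) (tr b3 (by omega)) (hN _ (by simp)) (hN _ (by simp)) (hN _ (by simp)))
      (by
        intro a ha b hb
        simp only [List.mem_cons, List.not_mem_nil, or_false] at ha hb
        rcases ha with ha|ha|ha <;> rcases hb with hb|hb|hb <;> subst ha hb <;> refine ⟨?_, ?_, ?_⟩ <;> omega)
  · exact two_of_list H (1) [2, 4, 5] h0 hy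
      (fun B HB b0 b1 b2 b3 hN => refM3 HB b0 b1 (tr b2 (by omega)) (tr b3 (by omega)) (hN _ (by simp)) (hN _ (by simp)) (hN _ (by simp)))
      (by
        intro a ha b hb
        simp only [List.mem_cons, List.not_mem_nil, or_false] at ha hb
        rcases ha with ha|ha|ha <;> rcases hb with hb|hb|hb <;> subst ha hb <;> refine ⟨?_, ?_, ?_⟩ <;> omega)
  · exact two_of_list H (1) [1, 3, 4] h0 hy
      (fun B HB b0 b1 b2 b3 hN => refM4 HB b0 b1 (tr b2 (by omega)) (tr b3 (by omega)) (hN _ (by simp)) (hN _ (by simp)) (hN _ (by simp)))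
      (by
        intro a ha b hb
        simp only [List.mem_cons, List.not_mem_nil, or_false] at ha hb
        rcases ha with ha|ha|ha <;> rcases hb with hb|hb|hb <;> subst ha hb <;> refine ⟨?_, ?_, ?_⟩ <;> omega)
  · exact two_of_list H (1) [1, 3, 5] h0 hy
      (fun B HB b0 b1 b2 b3 hN => refM5 HB (by omega) b0 b1 (tr b2 (by omega)) (tr b3 (by omega)) (hN _ (by simp)) (hN _ (by simp)) (hN _ (by simp)))
      (by
        intro a ha b hb
        simp only [List.mem_cons, List.not_mem_nil, or_false] at ha hb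
        rcases ha with ha|ha|ha <;> rcases hb with hb|hb|hb <;> subst ha hb <;> refine ⟨?_, ?_, ?_⟩ <;> omega)
  · exact two_of_list H (1) [2, 4, 6] h0 hy
      (fun B HB b0 b1 b2 b3 hN => refM6 HB (by omega) b0 b1 (tr b2 (by omega)) (tr b3 (by omega)) (hN _ (by simp)) (hN _ (by simp)) (hN _ (by simp)))
      (by
        intro a ha b hb
        simp only [List.mem_cons, List.not_mem_nil, or_false] at ha hb
        rcases ha with ha|ha|ha <;> rcases hb with hb|hb|hb <;> subst ha hb <;> refine ⟨?_, ?_, ?_⟩ <;> omega)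
  · exact two_of_list H (1) [1, 3, 5, 7] h0 hy
      (fun B HB b0 b1 b2 b3 hN => refM7 HB (by omega) b0 b1 (tr b2 (by omega)) (tr b3 (by omega)) (hN _ (by simp)) (hN _ (by simp)) (hN _ (by simp)) (hN _ (by simp)))
      (by
        intro a ha b hb
        simp only [List.mem_cons, List.not_mem_nil, or_false] at ha hb
        rcases ha with ha|ha|ha|ha <;> rcases hb with hb|hb|hb|hb <;> subst ha hb <;> refine ⟨?_, ?_, ?_⟩ <;> omega)
  · exact two_of_list H (1) [1, 3, -3*k+y-1, -3*k+y+1] h0 hy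
      (fun B HB b0 b1 b2 b3 hN => refM8 HB (by omega) (by omega) b0 b1 (tr b2 (by omega)) (tr b3 (by omega)) (hN _ (by simp)) (hN _ (by simp)) (hN _ (by simp)) (hN _ (by simp)))
      (by
        intro a ha b hb
        simp only [List.mem_cons, List.not_mem_nil, or_false] at ha hb
        rcases ha with ha|ha|ha|ha <;> rcases hb with hb|hb|hb|hb <;> subst ha hb <;> refine ⟨?_, ?_, ?_⟩ <;> omega)

theorem two_low {k y : ℤ} {A : ℤ → Prop} (H : Hyp k A) (h0 : Pr k A 0) (hy : Pr k A y)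
    (hT : y = k-1 ∨ (k+1 ≤ y ∧ y ≤ 2*k-4) ∨ y = 3*k-2 ∨ (3*k ≤ y ∧ y ≤ 4*k-5)) : Two k A := by
  rcases hT with h|h|h|h
  · exact two_K1 H h0 hy h
  · exact two_S H h0 hy h.1 h.2
  · exact two_K2 H h0 hy h
  · exact two_M H h0 hy h.1 h.2

theorem one_low {k y : ℤ} {A : ℤ → Prop} (H : Hyp k A) (h0 : Pr k A 0) (hy : Pr k A y)
    (hT : y = 2*k ∨ y = 2*k+1 ∨ y = 4*k-1 ∨ y = 4*k) : ∃ z, ¬ N k A z := by
  by_contra hc
  push Not at hc
  have b0 := h0.1
  have b1 : A (2*k-1) := tr h0.2 (by ring)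
  have b2 := hy.1
  have b3 := hy.2
  rcases hT with h|h|h|h
  · exact refE1 H b0 b1 (tr b2 (by omega)) (tr b3 (by omega)) (hc _) (hc _) (hc _)
  · exact refE2 H b0 b1 (tr b2 (by omega)) (tr b3 (by omega)) (hc _) (hc _) (hc _) (hc _)
  · exact refE3 H b0 b1 (tr b2 (by omega)) (tr b3 (by omega)) (hc _) (hc _) (hc _)
  · exact refE4 H b0 b1 (tr b2 (by omega)) (tr b3 (by omega)) (hc _) (hc _) (hc _)

theorem Two.one {k : ℤ} {A : ℤ → Prop} (h : Two k A) : ∃ z, ¬ N k A z := by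
  obtain ⟨z, _, h1, _⟩ := h
  exact ⟨z, h1⟩

theorem Two.shift {k x : ℤ} {A : ℤ → Prop} (h : Two k (fun z => A (x+z))) : Two k A := by
  obtain ⟨z1, z2, h1, h2, h3⟩ := h
  refine ⟨x+z1, x+z2, fun h => h1 ((N_shift _ _).2 h), fun h => h2 ((N_shift _ _).2 h), ?_⟩
  rwa [show x + z1 - (x + z2) = z1 - z2 by ring]

theorem Pr.sh {k x y : ℤ} {A : ℤ → Prop} (h : Pr k A y) : Pr k (fun z => A (x+z)) (y-x) := by
  obtain ⟨h1, h2⟩ := h
  exact ⟨tr h1 (by ring), tr h2 (by ring)⟩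

/-- Two pairs whose difference is not one of the four exceptional values (up to sign). -/
theorem two_diff {k u v : ℤ} {A : ℤ → Prop} (H : Hyp k A) (hu : Pr k A u) (hv : Pr k A v)
    (hT : v-u = k-1 ∨ (k+1 ≤ v-u ∧ v-u ≤ 2*k-4) ∨ v-u = 3*k-2 ∨ (3*k ≤ v-u ∧ v-u ≤ 4*k-5)) :
    Two k A := by
  have h0 : Pr k (fun z => A (u+z)) 0 := by
    have := hu.sh (x := u)
    rwa [sub_self] at this
  exact (two_low (H.shift u) h0 (hv.sh (x := u)) hT).shift

theorem one_diff {k u v : ℤ} {A : ℤ → Prop} (H : Hyp k A) (hu : Pr k A u) (hv : Pr k A v)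
    (hT : v-u = 2*k ∨ v-u = 2*k+1 ∨ v-u = 4*k-1 ∨ v-u = 4*k) :
    ∃ z, ¬ N k A z := by
  have h0 : Pr k (fun z => A (u+z)) 0 := by
    have := hu.sh (x := u)
    rwa [sub_self] at this
  obtain ⟨z, hz⟩ := one_low (H.shift u) h0 (hv.sh (x := u)) hT
  exact ⟨u+z, fun h => hz ((N_shift _ _).2 h)⟩

theorem two_zf {k u v : ℤ} {A : ℤ → Prop} (H : Hyp k A) (hu : Pr k A u) (hv : Pr k A v)
    (h1 : u < v) (h2 : v < u + (10*k-5)) :
    Two k A ∨ v-u = 2*k ∨ v-u = 2*k+1 ∨ v-u = 4*k-1 ∨ v-u = 4*k ∨ v-u = 6*k-5 ∨ v-u = 6*k-4 ∨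
      v-u = 8*k-6 ∨ v-u = 8*k-5 := by
  have hk := H.hk
  have hz := Zf_of H hu hv h1 h2
  have hu' : Pr k A (u + (10*k-5)) := (Pr_per H u).2 hu
  rcases hz with h|h|h|h|h|h|h|h|h|h|h|h|h|h|h|h
  · exact Or.inl (two_diff H hu hv (by omega))
  · exact Or.inl (two_diff H hu hv (by omega))
  · omega
  · omega
  · exact Or.inl (two_diff H hu hv (by omega))
  · exact Or.inl (two_diff H hu hv (by omega))
  · omega
  · omega
  · omega
  · omega
  · exact Or.inl (two_diff H hv hu' (by omega))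
  · exact Or.inl (two_diff H hv hu' (by omega))
  · omega
  · omega
  · exact Or.inl (two_diff H hv hu' (by omega))
  · exact Or.inl (two_diff H hv hu' (by omega))

/-- Two pairs force an empty fibre. -/
theorem one_of_two {k u v : ℤ} {A : ℤ → Prop} (H : Hyp k A) (hu : Pr k A u) (hv : Pr k A v)
    (h1 : u < v) (h2 : v < u + (10*k-5)) : ∃ z, ¬ N k A z := by
  have hu' : Pr k A (u + (10*k-5)) := (Pr_per H u).2 hu
  rcases two_zf H hu hv h1 h2 with h|h|h|h|h|h|h|h|h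
  · exact h.one
  · exact one_diff H hu hv (by omega)
  · exact one_diff H hu hv (by omega)
  · exact one_diff H hu hv (by omega)
  · exact one_diff H hu hv (by omega)
  · exact one_diff H hv hu' (by omega)
  · exact one_diff H hv hu' (by omega)
  · exact one_diff H hv hu' (by omega)
  · exact one_diff H hv hu' (by omega)

theorem two_prog {k x : ℤ} {A : ℤ → Prop} (H : Hyp k A) (h0 : Pr k A x) (h1 : Pr k A (x+2*k))
    (h2 : Pr k A (x+4*k)) : Two k A := by
  have hk := H.hk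
  have H' := H.shift x
  refine ⟨x+k, x+(k+1), fun h => ?_, fun h => ?_, ndvd (by omega) (by omega) (by omega)⟩
  · exact refT1 H' (tr h0.1 (by ring)) h0.2 h1.1 (tr h1.2 (by ring)) h2.1 (tr h2.2 (by ring))
      ((N_shift _ _).2 h)
  · exact refT2 H' (tr h0.1 (by ring)) h0.2 h1.1 (tr h1.2 (by ring)) h2.1 (tr h2.2 (by ring))
      ((N_shift _ _).2 h)

/-- Three pairs force two empty fibres. -/
theorem two_of_three {k u v w : ℤ} {A : ℤ → Prop} (H : Hyp k A) (hu : Pr k A u) (hv : Pr k A v)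
    (hw : Pr k A w) (h1 : u < v) (h2 : v < w) (h3 : w < u + (10*k-5)) : Two k A := by
  have hk := H.hk
  have hw' : Pr k A (w - (10*k-5)) := by
    have := Pr_per H (w - (10*k-5))
    rw [sub_add_cancel] at this
    exact this.1 hw
  have hu' : Pr k A (u + (10*k-5)) := (Pr_per H u).2 hu
  rcases two_zf H hu hv h1 (by omega) with T|T
  · exact T
  rcases two_zf H hv hw h2 (by omega) with S|S
  · exact S
  rcases two_zf H hu hw (by omega) (by omega) with R|R
  · exact R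
  have : (v-u = 2*k ∧ w-v = 2*k) ∨ (v-u = 2*k ∧ w-v = 6*k-5) ∨ (v-u = 6*k-5 ∧ w-v = 2*k) := by
    rcases T with T|T|T|T|T|T|T|T <;> rcases S with S|S|S|S|S|S|S|S <;> omega
  rcases this with h|h|h
  · exact two_prog H hu (by rwa [show u+2*k = v by omega]) (by rwa [show u+4*k = w by omega])
  · exact two_prog H hw' (by rwa [show w - (10*k-5) + 2*k = u by omega])
      (by rwa [show w - (10*k-5) + 4*k = v by omega])
  · exact two_prog H hv (by rwa [show v+2*k = w by omega])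
      (by rwa [show v+4*k = u + (10*k-5) by omega])

end Pool.Agent.R792.Circ
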