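import Pool.Agent.R792.Circ.Ref
import Pool.Agent.R792.Circ.Big

namespace Pool.Agent.R792.Circ

/-- Possible differences (mod `10k-5`) of two pair starts. -/
def Zf (k z : ℤ) : Prop :=
  z = k-1 ∨ (k+1 ≤ z ∧ z ≤ 2*k-4) ∨ z = 2*k ∨ z = 2*k+1 ∨ z = 3*k-2 ∨ (3*k ≤ z ∧ z ≤ 4*k-5) ∨
  z = 4*k-1 ∨ z = 4*k ∨ z = 6*k-5 ∨ z = 6*k-4 ∨ (6*k ≤ z ∧ z ≤ 7*k-5) ∨ z = 7*k-3 ∨
  z = 8*k-6 ∨ z = 8*k-5 ∨ (8*k-1 ≤ z ∧ z ≤ 9*k-6) ∨ z = 9*k-4

/-- `x` starts a pair: `x` and `x + m` are both in `A`. -/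
def Pr (k : ℤ) (A : ℤ → Prop) (x : ℤ) : Prop := A x ∧ A (x + (2*k-1))

theorem Pr_per {k : ℤ} {A : ℤ → Prop} (H : Hyp k A) (x : ℤ) : Pr k A (x + (10*k-5)) ↔ Pr k A x := by
  unfold Pr
  rw [H.per, show x + (10*k-5) + (2*k-1) = x + (2*k-1) + (10*k-5) by ring, H.per]

theorem Zf_of {k : ℤ} {A : ℤ → Prop} (H : Hyp k A) {u v : ℤ} (hu : Pr k A u) (hv : Pr k A v)
    (h1 : u < v) (h2 : v < u + (10*k-5)) : Zf k (v-u) := by
  have hk := H.hk
  obtain ⟨hu, hu'⟩ := hu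
  obtain ⟨hv, hv'⟩ := hv
  obtain ⟨z, hz⟩ : ∃ z, z = v - u := ⟨_, rfl⟩
  have e0 : ¬ Fp k z := by
    have := H.ind u v hu hv
    rwa [show v - u = z by omega] at this
  have ep : ¬ Fp k (z + (2*k-1)) := by
    have := H.ind u _ hu hv'
    rwa [show v + (2*k-1) - u = z + (2*k-1) by omega] at this
  have em : ¬ Fp k (z - (2*k-1)) := by
    have := H.ind _ v hu' hv
    rwa [show v - (u + (2*k-1)) = z - (2*k-1) by omega] at this
  have epn : ¬ Fp k (z + (2*k-1) - (10*k-5)) := by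
    have := H.ind u _ hu ((H.perk _).2 hv')
    rwa [show v + (2*k-1) - (10*k-5) - u = z + (2*k-1) - (10*k-5) by omega] at this
  have emn : ¬ Fp k (z - (2*k-1) + (10*k-5)) := by
    have := H.ind _ _ hu' ((H.per _).2 hv)
    rwa [show v + (10*k-5) - (u + (2*k-1)) = z - (2*k-1) + (10*k-5) by omega] at this
  rw [← hz]
  by_cases c0 : z ≤ 1
  · exact absurd (f9 (by omega)) emn
  by_cases c1 : z ≤ 2
  · exact absurd (f10 (by omega)) emn
  by_cases c2 : z ≤ k-2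
  · exact absurd (f3 (by omega)) ep
  by_cases c3 : z ≤ k-1
  · unfold Zf; omega
  by_cases c4 : z ≤ k
  · exact absurd (f4 (by omega)) ep
  by_cases c5 : z ≤ 2*k-4
  · unfold Zf; omega
  by_cases c6 : z ≤ 2*k-3
  · exact absurd (f1 (by omega)) e0
  by_cases c7 : z ≤ 2*k-2
  · exact absurd (f2 (by omega)) e0
  by_cases c8 : z ≤ 2*k-1
  · exact absurd (f5 (by omega)) ep
  by_cases c9 : z ≤ 2*k+1
  · unfold Zf; omega
  by_cases c10 : z ≤ 3*k-3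
  · exact absurd (f3 (by omega)) e0
  by_cases c11 : z ≤ 3*k-2
  · unfold Zf; omega
  by_cases c12 : z ≤ 3*k-1
  · exact absurd (f4 (by omega)) e0
  by_cases c13 : z ≤ 4*k-5
  · unfold Zf; omega
  by_cases c14 : z ≤ 4*k-4
  · exact absurd (f1 (by omega)) em
  by_cases c15 : z ≤ 4*k-3
  · exact absurd (f2 (by omega)) em
  by_cases c16 : z ≤ 4*k-2
  · exact absurd (f5 (by omega)) e0
  by_cases c17 : z ≤ 4*k
  · unfold Zf; omega
  by_cases c18 : z ≤ 5*k-4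
  · exact absurd (f3 (by omega)) em
  by_cases c19 : z ≤ 5*k-3
  · exact absurd (f7 (by omega)) ep
  by_cases c20 : z ≤ 5*k-2
  · exact absurd (f4 (by omega)) em
  by_cases c21 : z ≤ 6*k-6
  · exact absurd (f8 (by omega)) ep
  by_cases c22 : z ≤ 6*k-4
  · unfold Zf; omega
  by_cases c23 : z ≤ 6*k-3
  · exact absurd (f6 (by omega)) e0
  by_cases c24 : z ≤ 6*k-2
  · exact absurd (f9 (by omega)) ep
  by_cases c25 : z ≤ 6*k-1
  · exact absurd (f10 (by omega)) ep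
  by_cases c26 : z ≤ 7*k-5
  · unfold Zf; omega
  by_cases c27 : z ≤ 7*k-4
  · exact absurd (f7 (by omega)) e0
  by_cases c28 : z ≤ 7*k-3
  · unfold Zf; omega
  by_cases c29 : z ≤ 8*k-7
  · exact absurd (f8 (by omega)) e0
  by_cases c30 : z ≤ 8*k-5
  · unfold Zf; omega
  by_cases c31 : z ≤ 8*k-4
  · exact absurd (f6 (by omega)) em
  by_cases c32 : z ≤ 8*k-3
  · exact absurd (f9 (by omega)) e0
  by_cases c33 : z ≤ 8*k-2
  · exact absurd (f10 (by omega)) e0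
  by_cases c34 : z ≤ 9*k-6
  · unfold Zf; omega
  by_cases c35 : z ≤ 9*k-5
  · exact absurd (f7 (by omega)) em
  by_cases c36 : z ≤ 9*k-4
  · unfold Zf; omega
  by_cases c37 : z ≤ 10*k-8
  · exact absurd (f8 (by omega)) em
  by_cases c38 : z ≤ 10*k-7
  · exact absurd (f1 (by omega)) epn
  exact absurd (f2 (by omega)) epn

end Pool.Agent.R792.Circ
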